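import Mathlib

-- merged part: Pool.Agent.Work.MP_3d425c_gt.Cy.U1
section
/-! Shared definitions: oriented simply connected one-manifolds given by charts and sides,
equivariant folds, and the groupoid on the unit interval. -/

namespace Pool.Agent.Work.MP_3d425c_gt.Cy
open Set Filter Topology

/-- Torsion-free with cyclic centralisers. -/
structure Hyp (G : Type*) [Group G] : Prop where
  tf : ∀ a : G, a ≠ 1 → ¬ IsOfFinOrder a
  cent : ∀ a : G, a ≠ 1 → IsCyclic (Subgroup.centralizer ({a} : Set G))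

/-- Finitely generated subgroups are cyclic, of finite index, or map onto a rank two lattice. -/
def Big (G : Type*) [Group G] : Prop :=
  ∀ E : Subgroup G, E.FG → IsCyclic E ∨ E.FiniteIndex ∨
    ∃ f : E →* Multiplicative (ℤ × ℤ), Function.Surjective f

section Obj
variable (G : Type*) {X : Type*} [Group G] [MulAction G X]

/-- One ascending step inside a chart. -/
def Asc (C : Set (ℝ → X)) (a b : X) : Prop := ∃ c ∈ C, ∃ s t : ℝ, s < t ∧ c s = a ∧ c t = b

structure Pre (C : Set (ℝ → X)) : Prop where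
  cover : ∀ x, ∃ c ∈ C, ∃ t, c t = x
  smul : ∀ g : G, ∀ c ∈ C, (fun t => g • c t) ∈ C
  conn : ∀ P : X → Prop, (∀ c ∈ C, ∀ s t, P (c s) → P (c t)) → ∀ x y, P x → P y
  taut : ∀ x, ∃ g : G, Relation.TransGen (Asc C) x (g • x)

structure Good (C : Set (ℝ → X)) (r up : X → X → Prop) : Prop where
  eqv : Equivalence r
  rsm : ∀ (g : G) x y, r x y → r (g • x) (g • y)
  opn : ∀ c ∈ C, ∀ d ∈ C, IsOpen {u | ∃ v, r (c u) (d v)}
  upl : ∀ x x' y, r x x' → up x y → up x' y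
  upr : ∀ x y y', r y y' → up x y → up x y'
  upc : ∀ c ∈ C, ∀ s t, up (c s) (c t) ↔ s < t
  upk : ∀ c ∈ C, ∀ x, (∀ t, ¬ r x (c t)) → ∀ s t, up x (c s) → up x (c t)
  ups : ∀ (g : G) x y, up x y → up (g • x) (g • y)
  ab : ∀ x (g h : G), r (g • x) x → r (h • x) x → g * h = h * g
  nf : ∀ g : G, g ≠ 1 → ∀ c ∈ C, ∀ u v : ℝ, u < v → ∃ t ∈ Icc u v, ¬ r (g • c t) (c t)

/-- A map that is locally a chart after an increasing continuous change of parameter. -/
def LocChart (C : Set (ℝ → X)) (a : ℝ → X) : Prop :=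
  ∀ t, ∃ d ∈ C, ∃ f : ℝ → ℝ, ∃ ε > 0, StrictMonoOn f (Ioo (t - ε) (t + ε)) ∧
    ContinuousOn f (Ioo (t - ε) (t + ε)) ∧ ∀ u ∈ Ioo (t - ε) (t + ε), a u = d (f u)

structure OM (C : Set (ℝ → X)) (up : X → X → Prop) : Prop where
  pre : Pre G C
  good : Good G C Eq up
  sat : ∀ a, LocChart C a → a ∈ C

/-- Not separated from below. -/
def LG (C : Set (ℝ → X)) (x y : X) : Prop :=
  ∃ c ∈ C, ∃ d ∈ C, c 0 = x ∧ d 0 = y ∧ ∀ u < 0, c u = d u

def dualC (C : Set (ℝ → X)) : Set (ℝ → X) := {a | (fun t => a (-t)) ∈ C}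

def dualU (up : X → X → Prop) (x y : X) : Prop := ¬ up x y ∧ x ≠ y

/-- An invariant strict total order on every class of `E`. -/
structure ClassOrd (E lo : X → X → Prop) : Prop where
  inv : ∀ (g : G) x y, lo x y → lo (g • x) (g • y)
  tri : ∀ x y, E x y → x ≠ y → lo x y ∨ lo y x
  irr : ∀ x, ¬ lo x x
  tr : ∀ x y z, E x y → E y z → lo x y → lo y z → lo x z

/-- No rotating cataclysm. -/
def NoFold (C : Set (ℝ → X)) : Prop :=
  ∀ (μ : X) (g : G) (k : ℕ), 0 < k → LG C (g • μ) μ → g ^ k • μ = μ →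
    (∀ γ : G, γ • μ = μ → ∃ n : ℤ, γ = (g ^ k) ^ n) → g • μ = μ

end Obj

section Unit
variable {G : Type*} [Group G]

abbrev II : Type := unitInterval

/-- Contains no interval. -/
def NI (S : Set II) : Prop := ∀ u v : II, u < v → ∃ s ∈ Icc u v, s ∉ S

structure Grpd (O : G → II → II → Prop) : Prop where
  lt1 : ∀ b s t, O b s t → s < 1
  one : ∀ s, s < 1 → O 1 s s
  mul : ∀ b b' s t u, O b s t → O b' t u → O (b' * b) s u
  inv : ∀ b s t, O b s t → O b⁻¹ t s
  mono : ∀ b s s' t t', O b s s' → O b t t' → s < t → s' < t'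
  fill : ∀ b u u' v v' w, O b u u' → O b v v' → u' ≤ w → w ≤ v' → ∃ s, O b s w
  sig : ∀ b, ∃ K : ℕ → Set (II × II), (∀ m, IsClosed (K m)) ∧ ∀ s t, O b s t ↔ ∃ m, (s, t) ∈ K m
  ab : ∀ a b s, O a s s → O b s s → a * b = b * a
  nf : ∀ a, a ≠ 1 → NI {s | O a s s}

inductive Rel (O : G → II → II → Prop) (g : G) (ρ : II ≃o II) : G → II → II → Prop
  | arr {b s t} : O b s t → Rel O g ρ b s t
  | mv (i : ℤ) {s} : s < 1 → Rel O g ρ (g ^ i) s ((ρ ^ i) s)
  | comp {a b s t u} : Rel O g ρ a s t → Rel O g ρ b t u → Rel O g ρ (b * a) s u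

/-- Chains with `n` moves, all of whose ends avoid `P`. -/
def Ch (O : G → II → II → Prop) (g : G) (ρ : II ≃o II) (P : Set II) : ℕ → G → II → II → Prop
  | 0, γ, s, s' => O γ s s'
  | n + 1, γ, s, s' => ∃ (b : G) (t : II) (i : ℤ) (γ' : G), O b s t ∧ t ∉ P ∧ (ρ ^ i) t ∉ P ∧
      Ch O g ρ P n γ' ((ρ ^ i) t) s' ∧ γ = γ' * g ^ i * b

def orb (T : II ≃o II) (e : II) : Set II := {x | ∃ m : ℤ, x = (T ^ m) e}

/-- The union of the translates of an interval. -/
def satB (T : II ≃o II) (α β : II) : Set II := {x | ∃ m : ℤ, (T ^ m) x ∈ Ioo α β}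

/-- A wandering interval. -/
def Box (T : II ≃o II) (α β : II) : Prop := α < β ∧ (β ≤ T α ∨ β ≤ T⁻¹ α)

end Unit

end Pool.Agent.Work.MP_3d425c_gt.Cy

/-! Group theory: commutation, relative Burns-Hale, cones. -/

namespace Pool.Agent.Work.MP_3d425c_gt.Cy
open Set

variable {G : Type*} [Group G]

theorem grpA_gen (h : Hyp G) {b : G} (hb : b ≠ 1) :
    ∃ z : G, z * b = b * z ∧ ∀ x, x * b = b * x → ∃ n : ℤ, x = z ^ n := by
  obtain ⟨z, hz⟩ := (h.cent b hb).exists_zpow_surjective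
  refine ⟨z, Subgroup.mem_centralizer_singleton_iff.mp z.2, fun x hx => ?_⟩
  obtain ⟨n, hn⟩ := hz ⟨x, Subgroup.mem_centralizer_singleton_iff.mpr hx⟩
  exact ⟨n, by simpa using (congrArg Subtype.val hn).symm⟩

theorem grpA_inj (h : Hyp G) {g : G} (hg : g ≠ 1) {i j : ℤ} (e : g ^ i = g ^ j) : i = j :=
  injective_zpow_iff_not_isOfFinOrder.mpr (h.tf g hg) e

/-- Commutation is transitive through nontrivial elements. -/
theorem Hyp.ct (h : Hyp G) {a b c : G} (hb : b ≠ 1) (h1 : a * b = b * a) (h2 : c * b = b * c) :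
    a * c = c * a := by
  obtain ⟨z, -, hz⟩ := grpA_gen h hb
  obtain ⟨m, rfl⟩ := hz a h1
  obtain ⟨n, rfl⟩ := hz c h2
  exact (Commute.zpow_zpow_self z m n).eq

/-- Malnormality. Hint: the centraliser of `κ` is cyclic on `z`, it is normalised by `γ`,
so `γ z γ⁻¹ = z` or `z⁻¹`; in the second case use `γ ^ 2`. -/
theorem Hyp.mn (h : Hyp G) {γ κ : G} (hκ : κ ≠ 1)
    (h1 : (γ * κ * γ⁻¹) * κ = κ * (γ * κ * γ⁻¹)) : γ * κ = κ * γ := by
  obtain ⟨z, hzκ, hz⟩ := grpA_gen h hκ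
  obtain ⟨j, hj⟩ := hz κ rfl
  have hz1 : z ≠ 1 := fun e => hκ (by rw [hj, e, one_zpow])
  have key : ∀ δ : G, (δ * κ * δ⁻¹) * κ = κ * (δ * κ * δ⁻¹) → ∃ n : ℤ, δ * z * δ⁻¹ = z ^ n := by
    intro δ hδ
    refine hz _ (h.ct (b := δ * κ * δ⁻¹) (fun e => hκ ?_) ?_ hδ.symm)
    · simpa using e
    · calc δ * z * δ⁻¹ * (δ * κ * δ⁻¹) = δ * (z * κ) * δ⁻¹ := by group
        _ = δ * (κ * z) * δ⁻¹ := by rw [hzκ]
        _ = δ * κ * δ⁻¹ * (δ * z * δ⁻¹) := by group
  obtain ⟨m, hm⟩ := key γ h1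
  obtain ⟨n, hn⟩ := key γ⁻¹ (by
    calc γ⁻¹ * κ * γ⁻¹⁻¹ * κ = γ⁻¹ * (κ * (γ * κ * γ⁻¹)) * γ := by group
      _ = γ⁻¹ * ((γ * κ * γ⁻¹) * κ) * γ := by rw [h1]
      _ = κ * (γ⁻¹ * κ * γ⁻¹⁻¹) := by group)
  have hmn : m * n = 1 := by
    refine grpA_inj h hz1 ?_
    rw [zpow_mul, ← hm, conj_zpow, ← hn]
    group
  have hc : γ * z = z * γ := by
    rcases Int.eq_one_or_neg_one_of_mul_eq_one hmn with rfl | rfl
    · rw [zpow_one] at hm
      exact mul_inv_eq_iff_eq_mul.mp hm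
    · by_cases hγ : γ = 1
      · simp [hγ]
      · have h2 : γ * γ ≠ 1 := fun e => by
          have := grpA_inj h hγ (i := 2) (j := 0) (by rw [zpow_two, e, zpow_zero])
          omega
        refine h.ct h2 (mul_assoc _ _ _).symm ?_
        rw [zpow_neg_one] at hm
        calc z * (γ * γ) = (γ * z * γ⁻¹)⁻¹ * (γ * γ) := by rw [hm, inv_inv]
          _ = γ * z⁻¹ * γ := by group
          _ = γ * (γ * z * γ⁻¹) * γ := by rw [hm]
          _ = γ * γ * z := by group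
  rw [hj]
  exact (Commute.zpow_right hc j).eq

theorem Hyp.zpow_inj (h : Hyp G) {g : G} (hg : g ≠ 1) {i j : ℤ} (e : g ^ i = g ^ j) : i = j := by
  exact grpA_inj h hg e

end Pool.Agent.Work.MP_3d425c_gt.Cy

/-! Group theory: commutation, relative Burns-Hale, cones. -/

namespace Pool.Agent.Work.MP_3d425c_gt.Cy
open Set

variable {G : Type*} [Group G]

/-- A positive cone for an invariant order on `H / K`. -/
structure Cone (H K : Subgroup G) (P : Set G) : Prop where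
  notK : ∀ a ∈ P, a ∉ K
  mul : ∀ a ∈ P, ∀ b ∈ P, a * b ∈ P
  left : ∀ k ∈ K, ∀ a ∈ P, k * a ∈ P
  right : ∀ k ∈ K, ∀ a ∈ P, a * k ∈ P
  tot : ∀ h ∈ H, h ∉ K → h ∈ P ∨ h⁻¹ ∈ P

/-- Generators of the signed subsemigroup. -/
def gbGen (K : Subgroup G) (F : Set G) (σ : G → Prop) : Set G :=
  {y | ∃ k ∈ K, ∃ x ∈ F, ∃ k' ∈ K, (σ x ∧ y = k * x * k') ∨ (¬ σ x ∧ y = k * x⁻¹ * k')}

theorem gb_fin (H K : Subgroup G)
    (h : ∀ F : Finset G, (∀ x ∈ F, x ∈ H) → (∃ x ∈ F, x ∉ K) →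
      ∃ φ : Subgroup.closure ((K : Set G) ∪ F) →* Multiplicative ℤ,
        (∀ x : Subgroup.closure ((K : Set G) ∪ F), (x : G) ∈ K → φ x = 1) ∧ φ ≠ 1)
    (n : ℕ) : ∀ F : Finset G, F.card ≤ n → (∀ x ∈ F, x ∈ H ∧ x ∉ K) →
      ∃ σ : G → Prop, ∀ y ∈ Subsemigroup.closure (gbGen K (F : Set G) σ), y ∉ K := by
  classical
  induction n with
  | zero =>
    intro F hF _
    refine ⟨fun _ => True, fun y hy => ?_⟩
    have hF0 : F = ∅ := Finset.card_eq_zero.1 (Nat.le_zero.1 hF)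
    subst hF0
    exfalso
    induction hy using Subsemigroup.closure_induction with
    | mem x hx => obtain ⟨k, _, x, hx, _⟩ := hx; simp at hx
    | mul a b _ _ ha _ => exact ha
  | succ n ih =>
    intro F hF hFH
    rcases F.eq_empty_or_nonempty with hF0 | ⟨x1, hx1⟩
    · exact ih F (by simp [hF0]) hFH
    let E := Subgroup.closure ((K : Set G) ∪ F)
    obtain ⟨φ, hφK, hφ1⟩ : ∃ φ : E →* Multiplicative ℤ, (∀ x : E, (x : G) ∈ K → φ x = 1) ∧ φ ≠ 1 :=
      h F (fun x hx => (hFH x hx).1) ⟨x1, hx1, (hFH x1 hx1).2⟩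
    let ψ : G → ℤ := fun y => if hy : y ∈ E then Multiplicative.toAdd (φ ⟨y, hy⟩) else 0
    have hψ : ∀ y (hy : y ∈ E), ψ y = Multiplicative.toAdd (φ ⟨y, hy⟩) := by
      intro y hy; simp only [ψ, dif_pos hy]
    have hmul : ∀ a ∈ E, ∀ b ∈ E, ψ (a * b) = ψ a + ψ b := by
      intro a ha b hb
      rw [hψ _ (E.mul_mem ha hb), hψ a ha, hψ b hb, ← toAdd_mul, ← map_mul]; rfl
    have hinv : ∀ a ∈ E, ψ a⁻¹ = - ψ a := by
      intro a ha
      rw [hψ _ (E.inv_mem ha), hψ a ha, ← toAdd_inv, ← map_inv]; rfl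
    have hKE : ∀ k ∈ K, k ∈ E := fun k hk => Subgroup.subset_closure (Or.inl hk)
    have hFE : ∀ x ∈ F, x ∈ E := fun x hx => Subgroup.subset_closure (Or.inr hx)
    have hK0 : ∀ k ∈ K, ψ k = 0 := by
      intro k hk; rw [hψ k (hKE k hk), hφK ⟨k, hKE k hk⟩ hk]; rfl
    have hex : ∃ x ∈ F, ψ x ≠ 0 := by
      by_contra hcon
      push Not at hcon
      apply hφ1
      have : ∀ y ∈ E, ψ y = 0 := by
        intro y hy
        induction hy using Subgroup.closure_induction with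
        | mem x hx => exact hx.elim (hK0 x) (hcon x)
        | one => exact hK0 1 K.one_mem
        | mul a b ha hb h1 h2 => rw [hmul a ha b hb, h1, h2]; rfl
        | inv a ha h1 => rw [hinv a ha, h1]; rfl
      ext y
      have h2 := this y y.2
      rw [hψ y y.2] at h2
      exact h2
    obtain ⟨x0, hx0, hx00⟩ := hex
    have hcard : (F.filter fun x => ψ x = 0).card ≤ n := by
      have : (F.filter fun x => ψ x = 0).card < F.card :=
        Finset.card_lt_card (Finset.filter_ssubset.2 ⟨x0, hx0, hx00⟩)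
      omega
    obtain ⟨σ0, hσ0⟩ := ih _ hcard (fun x hx => hFH x (Finset.mem_filter.1 hx).1)
    refine ⟨fun x => if ψ x = 0 then σ0 x else 0 < ψ x, fun y hy hyK => ?_⟩
    have key : y ∈ E ∧ (0 < ψ y ∨ (ψ y = 0 ∧ y ∈ Subsemigroup.closure
        (gbGen K ((F.filter fun x => ψ x = 0 : Finset G) : Set G) σ0))) := by
      clear hyK
      induction hy using Subsemigroup.closure_induction with
      | mem y hy =>
        obtain ⟨k, hk, x, hx, k', hk', hy⟩ := hy
        have hxE := hFE x hx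
        have e1 : ψ (k * x * k') = ψ x := by
          rw [hmul _ (E.mul_mem (hKE k hk) hxE) _ (hKE k' hk'), hmul _ (hKE k hk) _ hxE,
            hK0 k hk, hK0 k' hk']; ring
        have e2 : ψ (k * x⁻¹ * k') = - ψ x := by
          rw [hmul _ (E.mul_mem (hKE k hk) (E.inv_mem hxE)) _ (hKE k' hk'),
            hmul _ (hKE k hk) _ (E.inv_mem hxE), hK0 k hk, hK0 k' hk', hinv x hxE]; ring
        by_cases h0 : ψ x = 0
        · have hxf : x ∈ ((F.filter fun x => ψ x = 0 : Finset G) : Set G) :=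
            Finset.mem_coe.2 (Finset.mem_filter.2 ⟨hx, h0⟩)
          simp only [if_pos h0] at hy
          rcases hy with ⟨h1, rfl⟩ | ⟨h1, rfl⟩
          · exact ⟨E.mul_mem (E.mul_mem (hKE k hk) hxE) (hKE k' hk'), Or.inr ⟨by rw [e1, h0],
              Subsemigroup.subset_closure ⟨k, hk, x, hxf, k', hk', Or.inl ⟨h1, rfl⟩⟩⟩⟩
          · exact ⟨E.mul_mem (E.mul_mem (hKE k hk) (E.inv_mem hxE)) (hKE k' hk'),
              Or.inr ⟨by rw [e2, h0]; rfl,
              Subsemigroup.subset_closure ⟨k, hk, x, hxf, k', hk', Or.inr ⟨h1, rfl⟩⟩⟩⟩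
        · simp only [if_neg h0] at hy
          rcases hy with ⟨h1, rfl⟩ | ⟨h1, rfl⟩
          · exact ⟨E.mul_mem (E.mul_mem (hKE k hk) hxE) (hKE k' hk'), Or.inl (by rw [e1]; exact h1)⟩
          · exact ⟨E.mul_mem (E.mul_mem (hKE k hk) (E.inv_mem hxE)) (hKE k' hk'),
              Or.inl (by rw [e2]; omega)⟩
      | mul a b _ _ ha hb =>
        refine ⟨E.mul_mem ha.1 hb.1, ?_⟩
        rw [hmul a ha.1 b hb.1]
        rcases ha.2 with h1 | ⟨h1, h1'⟩ <;> rcases hb.2 with h2 | ⟨h2, h2'⟩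
        · left; omega
        · left; omega
        · left; omega
        · right; exact ⟨by omega, Subsemigroup.mul_mem _ h1' h2'⟩
    rcases key.2 with h1 | ⟨_, h1⟩
    · rw [hK0 y hyK] at h1; exact lt_irrefl _ h1
    · exact hσ0 y h1 hyK

/-- Relative Burns-Hale. Hint: for a sign choice `ε` on a set `F` let `S F ε` be the
subsemigroup generated by the `k * x ^ (ε x) * k'`; by induction on `F.card` every finite
`F ⊆ H \ K` has signs with `S F ε` disjoint from `K`; then compactness of `G → Bool`. -/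
theorem relBH (H K : Subgroup G)
    (h : ∀ F : Finset G, (∀ x ∈ F, x ∈ H) → (∃ x ∈ F, x ∉ K) →
      ∃ φ : Subgroup.closure ((K : Set G) ∪ F) →* Multiplicative ℤ,
        (∀ x : Subgroup.closure ((K : Set G) ∪ F), (x : G) ∈ K → φ x = 1) ∧ φ ≠ 1) :
    ∃ P, Cone H K P := by
  classical
  have h1 : ∀ F : Finset G, ∃ σ : G → Prop, ∀ y ∈ Subsemigroup.closure
      (gbGen K ((F.filter fun x => x ∈ H ∧ x ∉ K : Finset G) : Set G) σ), y ∉ K :=
    fun F => gb_fin H K h _ _ le_rfl (fun x hx => (Finset.mem_filter.1 hx).2)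
  choose τ hτ using h1
  let U : Ultrafilter (Finset G) := Ultrafilter.of Filter.atTop
  have hU : ∀ x : G, ∀ᶠ F in (U : Filter (Finset G)), x ∈ F := by
    intro x
    apply Ultrafilter.of_le
    filter_upwards [Filter.eventually_ge_atTop ({x} : Finset G)] with F hF
    exact hF (Finset.mem_singleton_self x)
  let σ : G → Prop := fun x => ∀ᶠ F in (U : Filter (Finset G)), τ F x
  refine ⟨(Subsemigroup.closure (gbGen K {x | x ∈ H ∧ x ∉ K} σ) : Set G), ?_, ?_, ?_, ?_, ?_⟩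
  · intro a ha
    have key : ∀ᶠ F in (U : Filter (Finset G)), a ∈ Subsemigroup.closure
        (gbGen K ((F.filter fun x => x ∈ H ∧ x ∉ K : Finset G) : Set G) (τ F)) := by
      induction ha using Subsemigroup.closure_induction with
      | mem y hy =>
        obtain ⟨k, hk, x, hx, k', hk', hy⟩ := hy
        rcases hy with ⟨h1, rfl⟩ | ⟨h1, rfl⟩
        · filter_upwards [h1, hU x] with F h2 h3
          exact Subsemigroup.subset_closure ⟨k, hk, x,
            Finset.mem_coe.2 (Finset.mem_filter.2 ⟨h3, hx⟩), k', hk', Or.inl ⟨h2, rfl⟩⟩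
        · have h1' : ∀ᶠ F in (U : Filter (Finset G)), ¬ τ F x := Ultrafilter.eventually_not.2 h1
          filter_upwards [h1', hU x] with F h2 h3
          exact Subsemigroup.subset_closure ⟨k, hk, x,
            Finset.mem_coe.2 (Finset.mem_filter.2 ⟨h3, hx⟩), k', hk', Or.inr ⟨h2, rfl⟩⟩
      | mul a b _ _ ha hb =>
        filter_upwards [ha, hb] with F h2 h3
        exact Subsemigroup.mul_mem _ h2 h3
    obtain ⟨F, hF⟩ := key.exists
    exact hτ F a hF
  · intro a ha b hb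
    exact Subsemigroup.mul_mem _ ha hb
  · intro k hk a ha
    induction ha using Subsemigroup.closure_induction with
    | mem y hy =>
      obtain ⟨k1, hk1, x, hx, k', hk', hy⟩ := hy
      refine Subsemigroup.subset_closure ⟨k * k1, K.mul_mem hk hk1, x, hx, k', hk', ?_⟩
      rcases hy with ⟨h1, rfl⟩ | ⟨h1, rfl⟩
      · exact Or.inl ⟨h1, by simp only [mul_assoc]⟩
      · exact Or.inr ⟨h1, by simp only [mul_assoc]⟩
    | mul a b _ hb ha _ =>
      rw [← mul_assoc]; exact Subsemigroup.mul_mem _ ha hb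
  · intro k hk a ha
    induction ha using Subsemigroup.closure_induction with
    | mem y hy =>
      obtain ⟨k1, hk1, x, hx, k', hk', hy⟩ := hy
      refine Subsemigroup.subset_closure ⟨k1, hk1, x, hx, k' * k, K.mul_mem hk' hk, ?_⟩
      rcases hy with ⟨h1, rfl⟩ | ⟨h1, rfl⟩
      · exact Or.inl ⟨h1, by simp only [mul_assoc]⟩
      · exact Or.inr ⟨h1, by simp only [mul_assoc]⟩
    | mul a b ha _ _ hb =>
      rw [mul_assoc]; exact Subsemigroup.mul_mem _ ha hb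
  · intro x hx hxK
    by_cases h1 : σ x
    · exact Or.inl (Subsemigroup.subset_closure
        ⟨1, K.one_mem, x, ⟨hx, hxK⟩, 1, K.one_mem, Or.inl ⟨h1, by simp⟩⟩)
    · exact Or.inr (Subsemigroup.subset_closure
        ⟨1, K.one_mem, x, ⟨hx, hxK⟩, 1, K.one_mem, Or.inr ⟨h1, by simp⟩⟩)

/-- A trivial or maximal cyclic subgroup of an infinite index subgroup is relatively convex. -/
theorem exists_cone (h : Hyp G) (hB : Big G) (H K : Subgroup G) (hKH : K ≤ H)
    (hab : ∀ a ∈ K, ∀ b ∈ K, a * b = b * a)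
    (hinf : ∀ E : Subgroup G, E ≤ H → ¬ E.FiniteIndex)
    (hmax : ∀ κ ∈ K, κ ≠ 1 → ∀ x ∈ H, x * κ = κ * x → x ∈ K) : ∃ P, Cone H K P := by
  classical
  have hcyc : ∃ z : G, Subgroup.zpowers z = K := by
    by_cases hK : ∃ κ ∈ K, κ ≠ 1
    · obtain ⟨κ, hκ, hκ1⟩ := hK
      have := h.cent κ hκ1
      have hle : K ≤ Subgroup.centralizer ({κ} : Set G) := by
        intro a ha
        rw [Subgroup.mem_centralizer_iff]
        intro b hb
        rw [Set.mem_singleton_iff.1 hb]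
        exact hab κ hκ a ha
      exact (Subgroup.isCyclic_iff_exists_zpowers_eq_top K).1 (Subgroup.isCyclic_of_le hle)
    · push Not at hK
      refine ⟨1, ?_⟩
      rw [Subgroup.zpowers_one_eq_bot]
      exact ((Subgroup.eq_bot_iff_forall K).2 hK).symm
  obtain ⟨z, hz⟩ := hcyc
  have hzK : z ∈ K := hz ▸ Subgroup.mem_zpowers z
  refine relBH H K fun F hF hx => ?_
  obtain ⟨x, hxF, hxK⟩ := hx
  set E := Subgroup.closure ((K : Set G) ∪ F) with hE
  have hKE : ∀ k ∈ K, k ∈ E := fun k hk => Subgroup.subset_closure (Or.inl hk)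
  have hFE : ∀ x ∈ F, x ∈ E := fun x hx => Subgroup.subset_closure (Or.inr hx)
  have hEH : E ≤ H := by
    rw [hE, Subgroup.closure_le]
    rintro y (hy | hy)
    · exact hKH hy
    · exact hF y hy
  have hFG : E.FG := by
    refine ⟨insert z F, le_antisymm ?_ ?_⟩
    · rw [Subgroup.closure_le]
      intro y hy
      rcases Finset.mem_insert.1 (Finset.mem_coe.1 hy) with rfl | hy
      · exact hKE _ hzK
      · exact hFE y hy
    · rw [hE, Subgroup.closure_le]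
      rintro y (hy | hy)
      · rw [← hz] at hy
        obtain ⟨n, rfl⟩ := Subgroup.mem_zpowers_iff.1 hy
        exact Subgroup.zpow_mem _ (Subgroup.subset_closure (by simp)) n
      · exact Subgroup.subset_closure (by simp [Finset.mem_coe.1 hy])
  rcases hB E hFG with hc | hfi | ⟨f, hf⟩
  · have hK1 : ∀ κ ∈ K, κ = 1 := by
      intro κ hκ
      by_contra hκ1
      apply hxK
      refine hmax κ hκ hκ1 x (hF x hxF) ?_
      obtain ⟨w, hw⟩ := (Subgroup.isCyclic_iff_exists_zpowers_eq_top E).1 hc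
      have h1 : x ∈ Subgroup.zpowers w := hw ▸ hFE x hxF
      have h2 : κ ∈ Subgroup.zpowers w := hw ▸ hKE κ hκ
      obtain ⟨i, rfl⟩ := Subgroup.mem_zpowers_iff.1 h1
      obtain ⟨j, rfl⟩ := Subgroup.mem_zpowers_iff.1 h2
      rw [← zpow_add, ← zpow_add, add_comm]
    have hx1 : x ≠ 1 := fun e => hxK (e ▸ K.one_mem)
    have : Infinite E := by
      refine Infinite.of_injective (fun n : ℤ => (⟨x ^ n, E.zpow_mem (hFE x hxF) n⟩ : E)) ?_
      intro i j e
      exact h.zpow_inj hx1 (congrArg Subtype.val e)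
    refine ⟨(intCyclicMulEquiv (G := E)).symm.toMonoidHom, ?_, ?_⟩
    · intro y hy
      have : y = 1 := Subtype.ext (hK1 y hy)
      rw [this, map_one]
    · intro e
      have h1 : (intCyclicMulEquiv (G := E)).symm ⟨x, hFE x hxF⟩ = 1 :=
        DFunLike.congr_fun e ⟨x, hFE x hxF⟩
      rw [MulEquiv.map_eq_one_iff] at h1
      exact hx1 (congrArg Subtype.val h1)
  · exact absurd hfi (hinf E hEH)
  · obtain ⟨p, q, hpq, h0⟩ : ∃ p q : ℤ, (p ≠ 0 ∨ q ≠ 0) ∧
        p * (Multiplicative.toAdd (f ⟨z, hKE z hzK⟩)).1 +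
          q * (Multiplicative.toAdd (f ⟨z, hKE z hzK⟩)).2 = 0 := by
      generalize Multiplicative.toAdd (f ⟨z, hKE z hzK⟩) = v
      by_cases hv : v.1 = 0
      · exact ⟨1, 0, Or.inl one_ne_zero, by simp [hv]⟩
      · exact ⟨v.2, -v.1, Or.inr (neg_ne_zero.2 hv), by ring⟩
    let l : Multiplicative (ℤ × ℤ) →* Multiplicative ℤ :=
      { toFun := fun v => Multiplicative.ofAdd
          (p * (Multiplicative.toAdd v).1 + q * (Multiplicative.toAdd v).2)
        map_one' := by simp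
        map_mul' := by
          intro a b
          rw [← ofAdd_add]
          congr 1
          simp only [toAdd_mul, Prod.fst_add, Prod.snd_add]
          ring }
    refine ⟨l.comp f, ?_, ?_⟩
    · intro y hy
      rw [← hz] at hy
      obtain ⟨n, hn⟩ := Subgroup.mem_zpowers_iff.1 hy
      have : y = (⟨z, hKE z hzK⟩ : E) ^ n := Subtype.ext (by simpa using hn.symm)
      rw [this, map_zpow]
      have h2 : (l.comp f) ⟨z, hKE z hzK⟩ = 1 := congrArg Multiplicative.ofAdd h0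
      rw [h2, one_zpow]
    · intro e
      obtain ⟨a, ha⟩ := hf (Multiplicative.ofAdd (1, 0))
      obtain ⟨b, hb⟩ := hf (Multiplicative.ofAdd (0, 1))
      have h1 : l (f a) = 1 := DFunLike.congr_fun e a
      have h2 : l (f b) = 1 := DFunLike.congr_fun e b
      rw [ha] at h1
      rw [hb] at h2
      have h3 : p * 1 + q * 0 = 0 := congrArg Multiplicative.toAdd h1
      have h4 : p * 0 + q * 1 = 0 := congrArg Multiplicative.toAdd h2
      omega

end Pool.Agent.Work.MP_3d425c_gt.Cy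

/-! Group theory: commutation, relative Burns-Hale, cones. -/

namespace Pool.Agent.Work.MP_3d425c_gt.Cy
open Set

variable {G : Type*} [Group G]

theorem grpC_sub (g : G) (K : Subgroup G) :
    ∃ k : ℕ, ∀ n : ℤ, g ^ n ∈ K ↔ (k : ℤ) ∣ n := by
  let S : AddSubgroup ℤ :=
    { carrier := {n | g ^ n ∈ K}
      zero_mem' := by simp
      add_mem' := fun {a b} ha hb => by
        show g ^ (a + b) ∈ K
        rw [zpow_add]
        exact K.mul_mem ha hb
      neg_mem' := fun {a} ha => by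
        show g ^ (-a) ∈ K
        rw [zpow_neg]
        exact K.inv_mem ha }
  obtain ⟨a, ha⟩ := Int.subgroup_cyclic S
  refine ⟨a.natAbs, fun n => ?_⟩
  rw [Int.natAbs_dvd, ← Int.mem_zmultiples_iff, AddSubgroup.zmultiples_eq_closure, ← ha]
  rfl

theorem exists_gen (h : Hyp G) (H K : Subgroup G) (hKH : K ≤ H)
    (hab : ∀ a ∈ K, ∀ b ∈ K, a * b = b * a) {κ : G} (hκ : κ ∈ K) (h1 : κ ≠ 1) :
    ∃ g ∈ H, ∃ k : ℕ, 0 < k ∧ g ^ k ∈ K ∧ (∀ γ ∈ K, ∃ n : ℤ, γ = (g ^ k) ^ n) ∧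
      ∀ x ∈ H, x * κ = κ * x → ∃ n : ℤ, x = g ^ n := by
  obtain ⟨z, -, hz⟩ := grpA_gen h h1
  obtain ⟨a, ha⟩ := grpC_sub z H
  have hg : ∀ x ∈ H, x * κ = κ * x → ∃ n : ℤ, x = (z ^ (a : ℤ)) ^ n := fun x hx hc => by
    obtain ⟨n, rfl⟩ := hz x hc
    obtain ⟨m, rfl⟩ := (ha n).mp hx
    exact ⟨m, zpow_mul _ _ _⟩
  obtain ⟨k, hk⟩ := grpC_sub (z ^ (a : ℤ)) K
  have hK : ∀ γ ∈ K, ∃ n : ℤ, γ = ((z ^ (a : ℤ)) ^ k) ^ n := fun γ hγ => by
    obtain ⟨n, rfl⟩ := hg γ (hKH hγ) (hab γ hγ κ hκ)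
    obtain ⟨m, rfl⟩ := (hk n).mp hγ
    exact ⟨m, by rw [zpow_mul (z ^ (a : ℤ)), zpow_natCast (z ^ (a : ℤ))]⟩
  refine ⟨z ^ (a : ℤ), (ha a).mpr dvd_rfl, k, Nat.pos_of_ne_zero fun e => h1 ?_, ?_, hK, hg⟩
  · obtain ⟨n, hn⟩ := hK κ hκ
    rw [hn, e, pow_zero, one_zpow]
  · rw [← zpow_natCast]
    exact (hk k).mpr dvd_rfl

theorem grpC_cone (h : Hyp G) (K : Subgroup G) (hab : ∀ a ∈ K, ∀ b ∈ K, a * b = b * a) :
    ∃ P : Set G, 1 ∉ P ∧ (∀ a ∈ P, ∀ b ∈ P, a * b ∈ P) ∧ ∀ γ ∈ K, γ ∈ P ∨ γ = 1 ∨ γ⁻¹ ∈ P := by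
  by_cases hK : ∀ κ ∈ K, κ = 1
  · exact ⟨∅, by simp, by simp, fun γ hγ => Or.inr (Or.inl (hK γ hγ))⟩
  · push Not at hK
    obtain ⟨κ, hκ, h1⟩ := hK
    obtain ⟨g, -, k, -, -, hg, -⟩ := exists_gen h K K le_rfl hab hκ h1
    have ht : g ^ k ≠ 1 := fun e => by
      obtain ⟨n, hn⟩ := hg κ hκ
      exact h1 (by rw [hn, e, one_zpow])
    refine ⟨{y | ∃ n : ℤ, 0 < n ∧ y = (g ^ k) ^ n}, ?_, ?_, fun γ hγ => ?_⟩
    · rintro ⟨n, hn, e⟩
      have := h.zpow_inj ht (i := 0) (j := n) (by rw [zpow_zero, ← e])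
      omega
    · rintro _ ⟨m, hm, rfl⟩ _ ⟨n, hn, rfl⟩
      exact ⟨m + n, by omega, (zpow_add _ _ _).symm⟩
    · obtain ⟨n, rfl⟩ := hg γ hγ
      rcases lt_trichotomy 0 n with h2 | rfl | h2
      · exact Or.inl ⟨n, h2, rfl⟩
      · exact Or.inr (Or.inl (zpow_zero _))
      · exact Or.inr (Or.inr ⟨-n, by omega, (zpow_neg _ _).symm⟩)

/-- An action on a linear order with an abelian point stabiliser gives a left order. -/
theorem lo_of_action (h : Hyp G) {X : Type*} [MulAction G X] (lt : X → X → Prop)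
    (hlt : IsStrictTotalOrder X lt) (hinv : ∀ (g : G) x y, lt x y → lt (g • x) (g • y)) (x : X)
    (hab : ∀ a b : G, a • x = x → b • x = x → a * b = b * a) :
    ∃ r : G → G → Prop, IsStrictTotalOrder G r ∧ ∀ a b c, r a b ↔ r (c * a) (c * b) := by
  obtain ⟨P, p1, p2, p3⟩ := grpC_cone h (MulAction.stabilizer G x) fun a ha b hb => hab a b ha hb
  have hc : ∀ a b c : G, (lt (a • x) (b • x) ∨ (a • x = b • x ∧ a⁻¹ * b ∈ P)) →
      lt ((c * a) • x) ((c * b) • x) ∨ ((c * a) • x = (c * b) • x ∧ (c * a)⁻¹ * (c * b) ∈ P) := by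
    rintro a b c (h1 | ⟨h1, h2⟩)
    · rw [mul_smul, mul_smul]
      exact Or.inl (hinv c _ _ h1)
    · refine Or.inr ⟨by rw [mul_smul, mul_smul, h1], ?_⟩
      rwa [mul_inv_rev, mul_assoc, inv_mul_cancel_left]
  refine ⟨fun a b => lt (a • x) (b • x) ∨ (a • x = b • x ∧ a⁻¹ * b ∈ P), ?_, fun a b c =>
    ⟨hc a b c, fun h1 => by simpa using hc _ _ c⁻¹ h1⟩⟩
  refine { trichotomous := fun a b h1 h2 => ?_, irrefl := fun a => ?_, trans := ?_ }
  · have e : a • x = b • x :=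
      hlt.trichotomous _ _ (fun h3 => h1 (Or.inl h3)) fun h3 => h2 (Or.inl h3)
    have hs : a⁻¹ * b ∈ MulAction.stabilizer G x := by
      rw [MulAction.mem_stabilizer_iff, mul_smul, ← e, inv_smul_smul]
    rcases p3 _ hs with h3 | h3 | h3
    · exact absurd (Or.inr ⟨e, h3⟩) h1
    · exact inv_mul_eq_one.mp h3
    · exact absurd (Or.inr ⟨e.symm, by simpa using h3⟩) h2
  · rintro (h1 | ⟨-, h1⟩)
    · exact hlt.irrefl _ h1
    · exact p1 (by simpa using h1)
  · rintro a b c (h1 | ⟨h1, h2⟩) (h3 | ⟨h3, h4⟩)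
    · exact Or.inl (hlt.trans _ _ _ h1 h3)
    · exact Or.inl (h3 ▸ h1)
    · exact Or.inl (h1 ▸ h3)
    · exact Or.inr ⟨h1.trans h3, by simpa [mul_assoc] using p2 _ h2 _ h4⟩

end Pool.Agent.Work.MP_3d425c_gt.Cy

/-! Roots of order automorphisms of the unit interval, and orbits. -/

namespace Pool.Agent.Work.MP_3d425c_gt.Cy
open Set Filter Topology

/-- A map preserving each convex cell and increasing on each cell is increasing. -/
theorem glue_mono {α : Type*} [LinearOrder α] (E : α → α → Prop) (hE : Equivalence E)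
    (hc : ∀ x y z, E x z → x ≤ y → y ≤ z → E x y) (ψ : α → α) (h1 : ∀ x, E x (ψ x))
    (h2 : ∀ x y, E x y → x < y → ψ x < ψ y) : StrictMono ψ := by
  intro x y hxy
  by_cases e : E x y
  · exact h2 x y e hxy
  · by_contra k
    have a : ψ x < y := lt_of_not_ge fun j => e (hc x y _ (h1 x) hxy.le j)
    have b := hc _ _ _ (hE.symm (h1 y)) (le_of_not_gt k) a.le
    exact e (hE.trans (h1 x) (hE.trans (hE.symm b) (hE.symm (h1 y))))

/-- The convex hull of an orbit. -/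
private def rootA_E (T : II ≃o II) (x y : II) : Prop :=
  ∃ m n : ℤ, (T ^ m) x ≤ y ∧ y ≤ (T ^ n) x

private theorem rootA_add (T : II ≃o II) (m n : ℤ) (x : II) :
    (T ^ m) ((T ^ n) x) = (T ^ (m + n)) x := by
  rw [zpow_add]
  rfl

private theorem rootA_neg (T : II ≃o II) (m : ℤ) (x : II) : (T ^ (-m)) ((T ^ m) x) = x := by
  rw [rootA_add, neg_add_cancel, zpow_zero]
  rfl

private theorem rootA_eqv (T : II ≃o II) : Equivalence (rootA_E T) := by
  refine ⟨fun x => ⟨0, 0, le_rfl, le_rfl⟩, ?_, ?_⟩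
  · rintro x y ⟨m, n, a, b⟩
    refine ⟨-n, -m, ?_, ?_⟩
    · rw [← rootA_neg T n x]
      exact (T ^ (-n)).monotone b
    · rw [← rootA_neg T m x]
      exact (T ^ (-m)).monotone a
  · rintro x y z ⟨m, n, a, b⟩ ⟨m', n', a', b'⟩
    refine ⟨m' + m, n' + n, ?_, ?_⟩
    · rw [← rootA_add]
      exact ((T ^ m').monotone a).trans a'
    · rw [← rootA_add]
      exact b'.trans ((T ^ n').monotone b)

private theorem rootA_inv (T : II ≃o II) (x y : II) : rootA_E T⁻¹ x y ↔ rootA_E T x y := by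
  constructor
  · rintro ⟨m, n, a, b⟩
    exact ⟨-m, -n, by rwa [← inv_zpow'], by rwa [← inv_zpow']⟩
  · rintro ⟨m, n, a, b⟩
    exact ⟨-m, -n, by rwa [inv_zpow', neg_neg], by rwa [inv_zpow', neg_neg]⟩

private theorem rootA_up (T : II ≃o II) {y : II} (h : y < T y) : ∃ φ : ℝ → II, StrictMono φ ∧
    (∀ r, φ (r + 1) = T (φ r)) ∧ ∀ x, rootA_E T y x ↔ ∃ r, φ r = x := by
  have h' : (y : ℝ) < T y := h
  have mem : ∀ r : ℝ, (y : ℝ) + Int.fract r * (T y - y) ∈ Icc (0 : ℝ) 1 := fun r => by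
    have a := Int.fract_nonneg r
    have b := Int.fract_lt_one r
    constructor <;> nlinarith [y.2.1, (T y).2.2]
  obtain ⟨p, hp⟩ : ∃ p : ℝ → II, ∀ r, (p r : ℝ) = y + Int.fract r * (T y - y) :=
    ⟨fun r => ⟨_, mem r⟩, fun _ => rfl⟩
  have p0 : ∀ r, y ≤ p r := fun r => by
    have a := Int.fract_nonneg r
    rw [← Subtype.coe_le_coe, hp]
    nlinarith
  have p1 : ∀ r, p r < T y := fun r => by
    have b := Int.fract_lt_one r
    rw [← Subtype.coe_lt_coe, hp]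
    nlinarith
  have sc : ∀ m : ℤ, (T ^ (m + 1)) y = (T ^ m) (T y) := fun m => by
    rw [← rootA_add, zpow_one]
  have sm : StrictMono fun m : ℤ => (T ^ m) y := strictMono_int_of_lt_succ fun m => by
    rw [sc]
    exact (T ^ m).strictMono h
  have lo : ∀ r : ℝ, (T ^ ⌊r⌋) y ≤ (T ^ ⌊r⌋) (p r) := fun r => (T ^ ⌊r⌋).monotone (p0 r)
  have hi : ∀ r : ℝ, (T ^ ⌊r⌋) (p r) < (T ^ (⌊r⌋ + 1)) y := fun r => by
    rw [sc]
    exact (T ^ ⌊r⌋).strictMono (p1 r)
  refine ⟨fun r => (T ^ ⌊r⌋) (p r), fun r r' hr => ?_, fun r => ?_, fun x => ⟨?_, ?_⟩⟩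
  · rcases (Int.floor_le_floor hr.le).eq_or_lt with e | e
    · dsimp only
      rw [← e]
      refine (T ^ ⌊r⌋).strictMono ?_
      rw [← Subtype.coe_lt_coe, hp, hp]
      have a : Int.fract r < Int.fract r' := by
        unfold Int.fract
        rw [← e]
        linarith
      nlinarith
    · exact (hi r).trans_le ((sm.monotone (by omega : ⌊r⌋ + 1 ≤ ⌊r'⌋)).trans (lo r'))
  · have e : p (r + 1) = p r := Subtype.ext (by rw [hp, hp, Int.fract_add_one])
    dsimp only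
    rw [e, Int.floor_add_one, add_comm, ← rootA_add, zpow_one]
  · rintro ⟨m, n, a, b⟩
    obtain ⟨j, j0, j1⟩ := Int.exists_greatest_of_bdd (P := fun j => (T ^ j) y ≤ x)
      ⟨n, fun j hj => sm.le_iff_le.1 (hj.trans b)⟩ ⟨m, a⟩
    have j2 : x < (T ^ j) (T y) := by
      rw [← sc]
      exact lt_of_not_ge fun k => by have := j1 _ k; omega
    obtain ⟨z, rfl⟩ := (T ^ j).surjective x
    have z0 : (y : ℝ) ≤ z := (T ^ j).le_iff_le.1 j0
    have z1 : (z : ℝ) < T y := (T ^ j).lt_iff_lt.1 j2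
    have d : (0 : ℝ) < T y - y := sub_pos.2 h'
    have t0 : (0 : ℝ) ≤ (z - y) / (T y - y) := div_nonneg (sub_nonneg.2 z0) d.le
    have t1 : ((z : ℝ) - y) / (T y - y) < 1 := (div_lt_one d).2 (by linarith)
    refine ⟨j + (z - y) / (T y - y), ?_⟩
    have e : p (j + (z - y) / (T y - y)) = z := Subtype.ext (by
      rw [hp, Int.fract_intCast_add, Int.fract_eq_self.2 ⟨t0, t1⟩, div_mul_cancel₀ _ d.ne']
      ring)
    dsimp only
    rw [e, Int.floor_intCast_add, Int.floor_eq_zero_iff.2 ⟨t0, t1⟩, add_zero]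
  · rintro ⟨r, rfl⟩
    exact ⟨_, _, lo r, (hi r).le⟩

private theorem rootA_cell (T : II ≃o II) (y : II) : ∃ φ : ℝ → II,
    (∀ r r' s, φ r < φ r' → φ (r + s) < φ (r' + s)) ∧
    (∀ r, φ (r + 1) = T (φ r)) ∧ ∀ x, rootA_E T y x ↔ ∃ r, φ r = x := by
  rcases lt_trichotomy y (T y) with h | h | h
  · obtain ⟨φ, a, b, c⟩ := rootA_up T h
    exact ⟨φ, fun r r' s e => a (by linarith [a.lt_iff_lt.1 e]), b, c⟩
  · have f : ∀ m : ℤ, (T ^ m) y = y := fun m =>
      (MulAction.stabilizer (II ≃o II) y).zpow_mem (x := T) h.symm m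
    refine ⟨fun _ => y, fun _ _ _ e => e, fun _ => h, fun x => ⟨?_, ?_⟩⟩
    · rintro ⟨m, n, a, b⟩
      rw [f] at a b
      exact ⟨0, le_antisymm a b⟩
    · rintro ⟨-, rfl⟩
      exact (rootA_eqv T).refl _
  · have h' : y < T⁻¹ y := T.lt_iff_lt.1 (by
      rw [show T (T⁻¹ y) = y from T.apply_symm_apply y]
      exact h)
    obtain ⟨φ, a, b, c⟩ := rootA_up T⁻¹ h'
    refine ⟨fun r => φ (-r), fun r r' s e => a (by linarith [a.lt_iff_lt.1 e]), fun r => ?_,
      fun x => ?_⟩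
    · have e := b (-(r + 1))
      rw [show -(r + 1) + 1 = -r by ring] at e
      dsimp only
      rw [e]
      exact (T.apply_symm_apply _).symm
    · rw [← rootA_inv, c]
      exact ⟨fun ⟨r, e⟩ => ⟨-r, by simpa using e⟩, fun ⟨r, e⟩ => ⟨-r, e⟩⟩

/-- An order automorphism of the unit interval is the time one map of a flow. -/
private theorem rootA_flow (T : II ≃o II) : ∃ F : ℝ → II → II, (∀ s, StrictMono (F s)) ∧
    (∀ s t x, F s (F t x) = F (t + s) x) ∧ (∀ x, F 0 x = x) ∧ ∀ x, F 1 x = T x := by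
  choose φ f1 f2 f3 using rootA_cell T
  obtain ⟨b, b1, b2⟩ : ∃ b : II → II, (∀ x, rootA_E T (b x) x) ∧
      ∀ x y, rootA_E T x y → b x = b y := by
    let S : Setoid II := ⟨rootA_E T, rootA_eqv T⟩
    exact ⟨fun x => (Quotient.mk S x).out, fun x => Quotient.mk_out (s := S) x,
      fun x y e => congrArg Quotient.out (Quotient.sound (s := S) e)⟩
  choose c hc using fun x => (f3 (b x) x).1 (b1 x)
  have f0 : ∀ y r r' s, φ y r = φ y r' → φ y (r + s) = φ y (r' + s) := by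
    intro y r r' s e
    rcases lt_trichotomy (φ y (r + s)) (φ y (r' + s)) with k | k | k
    · have := f1 y _ _ (-s) k
      rw [add_neg_cancel_right, add_neg_cancel_right] at this
      exact (this.ne e).elim
    · exact k
    · have := f1 y _ _ (-s) k
      rw [add_neg_cancel_right, add_neg_cancel_right] at this
      exact (this.ne' e).elim
  have cl : ∀ x r, rootA_E T x (φ (b x) r) := fun x r =>
    (rootA_eqv T).trans ((rootA_eqv T).symm (b1 x)) ((f3 _ _).2 ⟨r, rfl⟩)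
  refine ⟨fun s x => φ (b x) (c x + s), fun s => ?_, fun s t x => ?_, fun x => ?_, fun x => ?_⟩
  · refine glue_mono (rootA_E T) (rootA_eqv T) ?_ _ (fun x => cl x _) fun x y e l => ?_
    · rintro x y z ⟨-, n, -, a⟩ h1 h2
      exact ⟨0, n, h1, h2.trans a⟩
    · have k := hc y
      dsimp only
      rw [← b2 x y e] at k ⊢
      exact f1 _ _ _ s (by rwa [hc, k])
  · have k := hc (φ (b x) (c x + t))
    dsimp only
    rw [← b2 _ _ (cl x _)] at k ⊢
    rw [f0 _ _ _ s k, add_assoc]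
  · dsimp only
    rw [add_zero, hc]
  · dsimp only
    rw [f2, hc]

/-- Hint: cells are the fixed points and the components of their complement; on a component
with base point `y` use `r ↦ T ^ ⌊r⌋ (y + fract r * (T y - y))` and translate `r` by `1 / k`. -/
theorem exists_root (T : II ≃o II) {k : ℕ} (hk : 0 < k) : ∃ ρ : II ≃o II, ρ ^ k = T := by
  obtain ⟨F, f1, f2, f3, f4⟩ := rootA_flow T
  have k0 : (k : ℝ) ≠ 0 := by positivity
  obtain ⟨ρ, hρ⟩ : ∃ ρ : II ≃o II, ∀ x, ρ x = F (1 / k) x :=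
    ⟨(f1 (1 / k)).orderIsoOfRightInverse _ (F (-(1 / k))) fun x => by
      rw [f2, neg_add_cancel, f3], fun _ => rfl⟩
  have key : ∀ (n : ℕ) x, (ρ ^ n) x = F (n * (1 / k)) x := by
    intro n
    induction n with
    | zero => exact fun x => by simp [f3]
    | succ n ih =>
      intro x
      rw [pow_succ', show (ρ * ρ ^ n) x = ρ ((ρ ^ n) x) from rfl, ih, hρ, f2]
      push_cast
      rw [add_mul, one_mul]
  refine ⟨ρ, OrderIso.ext (funext fun x => ?_)⟩
  rw [key, mul_one_div_cancel k0, f4]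

end Pool.Agent.Work.MP_3d425c_gt.Cy

/-! Roots of order automorphisms of the unit interval, and orbits. -/

namespace Pool.Agent.Work.MP_3d425c_gt.Cy
open Set Filter Topology

theorem rb_add (T : II ≃o II) (m n : ℤ) (x : II) : (T ^ (m + n)) x = (T ^ m) ((T ^ n) x) := by
  rw [zpow_add, RelIso.mul_apply]

theorem rb_mono {T : II ≃o II} {x : II} (h : x < T x) : StrictMono fun m : ℤ => (T ^ m) x :=
  strictMono_int_of_lt_succ fun m => by
    rw [rb_add, zpow_one]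
    exact (T ^ m).strictMono h

theorem rb_inv {T : II ≃o II} {x : II} (h : T x < x) : x < T⁻¹ x := by
  have := (T⁻¹).strictMono h
  rwa [RelIso.inv_apply_self] at this

theorem rb_box {T : II ≃o II} {e : II} (h : e < T e) :
    ∀ᶠ p in 𝓝 ((e, e) : II × II), p.2 ≤ T p.1 :=
  ((isOpen_lt continuous_snd (T.continuous.comp continuous_fst)).eventually_mem h).mono
    fun _ hp => le_of_lt hp

theorem rb_uniq {T : II ≃o II} {α β x : II} (h0 : α < β) (h : β ≤ T α) {m n : ℤ}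
    (hm : (T ^ m) x ∈ Ioo α β) (hn : (T ^ n) x ∈ Ioo α β) : ¬ m < n := fun hmn => by
  have e : (T ^ n) x = (T ^ (n - m)) ((T ^ m) x) := by rw [← rb_add, sub_add_cancel]
  have k1 := (rb_mono (h0.trans_le h)).monotone (show (1 : ℤ) ≤ n - m by omega)
  simp only [zpow_one] at k1
  have k2 := (T ^ (n - m)).strictMono hm.1
  rw [← e] at k2
  exact lt_irrefl _ (hn.2.trans_le (h.trans (k1.trans k2.le)))

theorem zpow_fix {ρ : II ≃o II} {s : II} {i : ℤ} (hi : i ≠ 0) (e : (ρ ^ i) s = s) : ρ s = s := by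
  by_contra h
  rcases lt_or_gt_of_ne h with h | h
  · have := (rb_mono (rb_inv h)).injective (a₁ := -i) (a₂ := 0)
      (by simpa only [inv_zpow', neg_neg, neg_zero, zpow_zero, RelIso.one_apply] using e)
    omega
  · exact hi ((rb_mono h).injective (a₁ := i) (a₂ := 0)
      (by simpa only [zpow_zero, RelIso.one_apply] using e))

theorem zpow_lt_one (ρ : II ≃o II) (i : ℤ) {s : II} (hs : s < 1) : (ρ ^ i) s < 1 :=
  ((ρ ^ i).strictMono hs).trans_le unitInterval.le_one'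

theorem rb_small (T : II ≃o II) {e : II} (he : T e ≠ e) :
    0 < e ∧ e < 1 ∧ ∀ᶠ p in 𝓝 ((e, e) : II × II), p.1 < p.2 → Box T p.1 p.2 := by
  refine ⟨lt_of_le_of_ne unitInterval.nonneg' fun h => he (by rw [← h]; exact T.map_bot),
    lt_of_le_of_ne unitInterval.le_one' fun h => he (by rw [h]; exact T.map_top), ?_⟩
  rcases lt_or_gt_of_ne he with h | h
  · exact (rb_box (rb_inv h)).mono fun p hp h' => ⟨h', Or.inr hp⟩
  · exact (rb_box h).mono fun p hp h' => ⟨h', Or.inl hp⟩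

theorem rb_one {T : II ≃o II} {α β x : II} (h : Box T α β) {m n : ℤ}
    (hm : (T ^ m) x ∈ Ioo α β) (hn : (T ^ n) x ∈ Ioo α β) : m = n := by
  rcases h.2 with h' | h'
  · exact le_antisymm (not_lt.1 (rb_uniq h.1 h' hn hm)) (not_lt.1 (rb_uniq h.1 h' hm hn))
  · have e : ∀ k : ℤ, T ^ k = T⁻¹ ^ (-k) := fun k => by rw [inv_zpow', neg_neg]
    rw [e] at hm hn
    have := rb_uniq h.1 h' hn hm
    have := rb_uniq h.1 h' hm hn
    omega

/-- An orbit missing a point that is not fixed stays away from it. -/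
theorem orbit_away (T : II ≃o II) {e y : II} (he : T e ≠ e) (hy : y ∉ orb T e) :
    ∀ᶠ p in 𝓝 ((e, e) : II × II), y ∉ satB T p.1 p.2 := by
  obtain ⟨h0, h1, hb⟩ := rb_small T he
  rw [nhds_prod_eq] at hb
  obtain ⟨U, hU, V, hV, hUV⟩ := mem_prod_iff.1 hb
  obtain ⟨l, r, a1, a2⟩ := (mem_nhds_iff_exists_Ioo_subset' ⟨0, h0⟩ ⟨1, h1⟩).1 (inter_mem hU hV)
  obtain ⟨α, b1, b2⟩ := exists_between a1.1
  obtain ⟨β, b3, b4⟩ := exists_between a1.2
  have hB : Box T α β := hUV (a := (α, β)) ⟨(a2 ⟨b1, b2.trans a1.2⟩).1,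
    (a2 ⟨a1.1.trans b3, b4⟩).2⟩ (b2.trans b3)
  have c1 : ∀ᶠ p in 𝓝 ((e, e) : II × II), α < p.1 :=
    (isOpen_lt continuous_const continuous_fst).eventually_mem b2
  have c2 : ∀ᶠ p in 𝓝 ((e, e) : II × II), p.2 < β :=
    (isOpen_lt continuous_snd continuous_const).eventually_mem b3
  by_cases hc : y ∈ satB T α β
  · obtain ⟨m, hm⟩ := hc
    have hne : (T ^ m) y ≠ e := fun h => hy ⟨-m, by rw [← h, ← rb_add, neg_add_cancel, zpow_zero]; rfl⟩
    have c3 : ∀ᶠ p in 𝓝 ((e, e) : II × II), (T ^ m) y ∉ Ioo p.1 p.2 := by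
      rcases lt_or_gt_of_ne hne with h | h
      · exact ((isOpen_lt continuous_const continuous_fst).eventually_mem
          (x := ((e, e) : II × II)) h).mono fun p hp h' => lt_asymm hp h'.1
      · exact ((isOpen_lt continuous_snd continuous_const).eventually_mem
          (x := ((e, e) : II × II)) h).mono fun p hp h' => lt_asymm hp h'.2
    filter_upwards [c1, c2, c3] with p p1 p2 p3
    rintro ⟨n, hn⟩
    exact p3 (rb_one hB hm ⟨p1.trans hn.1, hn.2.trans p2⟩ ▸ hn)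
  · filter_upwards [c1, c2] with p p1 p2
    rintro ⟨n, hn⟩
    exact hc ⟨n, p1.trans hn.1, hn.2.trans p2⟩

/-- Small boxes around a point that is not fixed. -/
theorem small_box (T : II ≃o II) {e : II} (he : T e ≠ e) :
    0 < e ∧ e < 1 ∧ ∀ᶠ p in 𝓝 ((e, e) : II × II), p.1 < p.2 → Box T p.1 p.2 :=
  rb_small T he

end Pool.Agent.Work.MP_3d425c_gt.Cy

/-! Small equivariant perturbations pushing a nowhere dense set off another. -/

namespace Pool.Agent.Work.MP_3d425c_gt.Cy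
open Set Filter Topology

private theorem pa_lift (f : ℝ → ℝ) (hm : StrictMono f) (hc : Continuous f) (h0 : f 0 = 0)
    (h1 : f 1 = 1) : ∃ χ : II ≃o II, ∀ z : II, (χ z : ℝ) = f z := by
  have hin : ∀ z : II, f z ∈ unitInterval := fun z =>
    ⟨h0 ▸ hm.monotone z.2.1, h1 ▸ hm.monotone z.2.2⟩
  refine ⟨StrictMono.orderIsoOfSurjective (fun z : II => (⟨f z, hin z⟩ : II))
    (fun a b h => hm h) fun w => ?_, fun z => rfl⟩
  obtain ⟨z, hz, e⟩ := intermediate_value_Icc (zero_le_one' ℝ) hc.continuousOn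
    (show (w : ℝ) ∈ Icc (f 0) (f 1) by rw [h0, h1]; exact w.2)
  exact ⟨⟨z, hz⟩, Subtype.ext e⟩

private theorem pa_up {q q' x y : II} (hx : x ∈ Ioo q q') (hy : y ∈ Ioo q q') (h : x ≤ y) :
    ∃ χ : II ≃o II, χ x = y ∧ ∀ z, z ∉ Ioo q q' → χ z = z := by
  have a1 : (q : ℝ) < x := hx.1
  have a2 : (x : ℝ) < q' := hx.2
  have a4 : (y : ℝ) < q' := hy.2
  have a5 : (x : ℝ) ≤ y := h
  obtain ⟨s, s1, s2⟩ : ∃ s : ℝ, 1 ≤ s ∧ s * (x - q) = y - q :=
    ⟨(y - q) / (x - q), by rw [le_div_iff₀ (by linarith)]; linarith,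
      div_mul_cancel₀ _ (by linarith)⟩
  obtain ⟨t, t0, t1, t2⟩ : ∃ t : ℝ, 0 < t ∧ t ≤ 1 ∧ t * (q' - x) = q' - y :=
    ⟨(q' - y) / (q' - x), div_pos (by linarith) (by linarith),
      by rw [div_le_iff₀ (by linarith)]; linarith, div_mul_cancel₀ _ (by linarith)⟩
  have out : ∀ z : ℝ, z ≤ q ∨ (q' : ℝ) ≤ z →
      max z (min (q + s * (z - q)) (q' - t * (q' - z))) = z := by
    rintro z (k | k)
    · exact max_eq_left ((min_le_left _ _).trans (by nlinarith))
    · exact max_eq_left ((min_le_right _ _).trans (by nlinarith))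
  obtain ⟨χ, e⟩ := pa_lift (fun z => max z (min (q + s * (z - q)) (q' - t * (q' - z))))
    (fun a b k => max_lt_max k (min_lt_min (by nlinarith) (by nlinarith))) (by fun_prop)
    (out 0 (Or.inl q.2.1)) (out 1 (Or.inr q'.2.2))
  refine ⟨χ, Subtype.ext ?_, fun z hz => Subtype.ext ?_⟩
  · rw [e, s2, t2, add_sub_cancel, sub_sub_cancel, min_self, max_eq_right a5]
  · rw [e]
    refine out z ?_
    rcases le_or_gt z q with k | k
    · exact Or.inl k
    · exact Or.inr (not_lt.1 fun k' => hz ⟨k, k'⟩)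

/-- Hint: for `x ≤ y` take `max z (min (l₁ z) (l₂ z))` with the two lines through
`(q, q), (x, y)` and `(x, y), (q', q')`; otherwise invert. -/
theorem pl_one {q q' x y : II} (hx : x ∈ Ioo q q') (hy : y ∈ Ioo q q') :
    ∃ χ : II ≃o II, χ x = y ∧ ∀ z, z ∉ Ioo q q' → χ z = z := by
  rcases le_total x y with h | h
  · exact pa_up hx hy h
  · obtain ⟨χ, e, k⟩ := pa_up hy hx h
    exact ⟨χ.symm, by rw [← e, χ.symm_apply_apply], fun z hz => by
      rw [χ.symm_apply_eq, k z hz]⟩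

private theorem pa_mem {α β : II} {χ : II ≃o II} (k : ∀ z, z ∉ Ioo α β → χ z = z) {z : II}
    (hz : z ∈ Ioo α β) : χ z ∈ Ioo α β :=
  ⟨k α (fun h => h.1.false) ▸ χ.strictMono hz.1, k β (fun h => h.2.false) ▸ χ.strictMono hz.2⟩

private theorem pa_base {α β : II} {A B : Set II} (hA : IsClosed A) (hA' : NI A)
    (hB : IsClosed B) (hsub : B ⊆ Ioo α β) {δ : ℝ} (hδ : 0 < δ) (hl : (β : ℝ) - α ≤ δ) :
    ∃ χ : II ≃o II, (∀ z, z ∉ Ioo α β → χ z = z) ∧ (∀ z ∈ B, χ z ∉ A) ∧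
      ∀ z, dist (χ z) z ≤ δ := by
  suffices h : ∃ χ : II ≃o II, (∀ z, z ∉ Ioo α β → χ z = z) ∧ ∀ z ∈ B, χ z ∉ A by
    obtain ⟨χ, k1, k2⟩ := h
    refine ⟨χ, k1, k2, fun z => ?_⟩
    by_cases hz : z ∈ Ioo α β
    · have b := pa_mem k1 hz
      have b1 : (α : ℝ) < χ z := b.1
      have b2 : (χ z : ℝ) < β := b.2
      have c1 : (α : ℝ) < z := hz.1
      have c2 : (z : ℝ) < β := hz.2
      rw [Subtype.dist_eq, Real.dist_eq, abs_le]
      constructor <;> linarith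
    · rw [k1 z hz, dist_self]
      exact hδ.le
  rcases B.eq_empty_or_nonempty with rfl | hne
  · exact ⟨OrderIso.refl _, fun _ _ => rfl, fun _ h => h.elim⟩
  obtain ⟨b0, m0, l0⟩ := hB.isCompact.exists_isLeast hne
  obtain ⟨b1, m1, l1⟩ := hB.isCompact.exists_isGreatest hne
  obtain ⟨c, c1, c2⟩ := exists_between (hsub m0).1
  obtain ⟨v, ⟨v1, v2⟩, v3⟩ := hA' c b0 c2
  have hv : v ∈ Ioo α β := ⟨c1.trans_le v1, v2.trans_lt (hsub m0).2⟩
  obtain ⟨l, r, ⟨w1, w2⟩, w3⟩ := (mem_nhds_iff_exists_Ioo_subset' ⟨α, hv.1⟩ ⟨β, hv.2⟩).1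
    ((isOpen_Ioo.inter hA.isOpen_compl).mem_nhds ⟨hv, v3⟩)
  obtain ⟨u, u1, u2⟩ := exists_between w1
  have gap : ∀ z, u ≤ z → z ≤ v → z ∉ A := fun z p p' => (w3 ⟨u1.trans_le p, p'.trans_lt w2⟩).2
  have hu : α < u := (w3 ⟨u1, u2.trans w2⟩).1.1
  obtain ⟨χ, e, k⟩ := pl_one (hsub m1) hv
  rcases le_or_gt u (χ b0) with h | h
  · exact ⟨χ, k, fun z hz => gap _ (h.trans (χ.monotone (l0 hz))) (e ▸ χ.monotone (l1 hz))⟩
  obtain ⟨ψ, e', k'⟩ := pl_one (q := α) (q' := v) ⟨(pa_mem k (hsub m0)).1, h.trans u2⟩ ⟨hu, u2⟩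
  refine ⟨χ.trans ψ, fun z hz => ?_, fun z hz => gap _ ?_ ?_⟩
  · rw [OrderIso.trans_apply, k z hz, k' z fun p => hz ⟨p.1, p.2.trans hv.2⟩]
  · exact e' ▸ ψ.monotone (χ.monotone (l0 hz))
  · exact k' v (fun p => p.2.false) ▸ ψ.monotone (e ▸ χ.monotone (l1 hz))

private theorem pa_ind {A : Set II} (hA : IsClosed A) (hA' : NI A) {δ : ℝ} (hδ : 0 < δ)
    (β : II) (n : ℕ) : ∀ (α : II) (B : Set II), IsClosed B → NI B → B ⊆ Ioo α β →
      (β : ℝ) - α ≤ δ + n * (δ / 2) →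
      ∃ χ : II ≃o II, (∀ z, z ∉ Ioo α β → χ z = z) ∧ (∀ z ∈ B, χ z ∉ A) ∧
        ∀ z, dist (χ z) z ≤ δ := by
  induction n with
  | zero => exact fun α B hB _ hs hl => pa_base hA hA' hB hs hδ (by simpa using hl)
  | succ n ih =>
    intro α B hB hB' hs hl
    rcases le_or_gt ((β : ℝ) - α) δ with h | h
    · exact pa_base hA hA' hB hs hδ h
    have a0 := α.2.1
    have b1 := β.2.2
    obtain ⟨c, ⟨c1, c2⟩, c3⟩ := hB' ⟨α + δ / 2, by constructor <;> linarith⟩
      ⟨α + δ, by constructor <;> linarith⟩ (show (α : ℝ) + δ / 2 < α + δ by linarith)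
    have c1' : (α : ℝ) + δ / 2 ≤ c := c1
    have c2' : (c : ℝ) ≤ α + δ := c2
    have d1 : α < c := show (α : ℝ) < c by linarith
    have d2 : c < β := show (c : ℝ) < β by linarith
    obtain ⟨χ, k1, k2, k3⟩ := pa_base (α := α) (β := c) (B := B ∩ Iic c) hA hA'
      (hB.inter isClosed_Iic)
      (fun z hz => ⟨(hs hz.1).1, lt_of_le_of_ne hz.2 fun e => c3 (e ▸ hz.1)⟩) hδ (by linarith)
    obtain ⟨ψ, l1, l2, l3⟩ := ih c (B ∩ Ici c) (hB.inter isClosed_Ici)
      (fun u v p => let ⟨s, p1, p2⟩ := hB' u v p; ⟨s, p1, fun r => p2 r.1⟩)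
      (fun z hz => ⟨lt_of_le_of_ne hz.2 fun e => c3 (e ▸ hz.1), (hs hz.1).2⟩)
      (by push_cast at hl; linarith)
    have lo : ∀ z, z ≤ c → (χ.trans ψ) z = χ z := fun z hz =>
      l1 _ fun p => p.1.not_ge (k1 c (fun r => r.2.false) ▸ χ.monotone hz)
    have hi : ∀ z, c ≤ z → (χ.trans ψ) z = ψ z := fun z hz => by
      rw [OrderIso.trans_apply, k1 z fun r => r.2.not_ge hz]
    refine ⟨χ.trans ψ, fun z hz => ?_, fun z hz => ?_, fun z => ?_⟩ <;>
      rcases le_total z c with p | p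
    · rw [lo z p, k1 z fun r => hz ⟨r.1, r.2.trans d2⟩]
    · rw [hi z p, l1 z fun r => hz ⟨d1.trans r.1, r.2⟩]
    · exact lo z p ▸ k2 z ⟨hz, p⟩
    · exact hi z p ▸ l2 z ⟨hz, p⟩
    · exact lo z p ▸ k3 z
    · exact hi z p ▸ l3 z

theorem pl_push {α β : II} {A B : Set II} (hA : IsClosed A) (hA' : NI A) (hB : IsClosed B)
    (hB' : NI B) (hsub : B ⊆ Ioo α β) {δ : ℝ} (hδ : 0 < δ) :
    ∃ χ : II ≃o II, (∀ z, z ∉ Ioo α β → χ z = z) ∧ (∀ z ∈ B, χ z ∉ A) ∧
      ∀ z, dist (χ z) z ≤ δ := by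
  obtain ⟨n, hn⟩ := exists_nat_ge (1 / (δ / 2))
  rw [div_le_iff₀ (by linarith)] at hn
  exact pa_ind hA hA' hδ β n α B hB hB' hsub (by linarith [α.2.1, β.2.2])

end Pool.Agent.Work.MP_3d425c_gt.Cy

/-! Small equivariant perturbations pushing a nowhere dense set off another. -/

namespace Pool.Agent.Work.MP_3d425c_gt.Cy
open Set Filter Topology

theorem pertB_add (S : II ≃o II) (m n : ℤ) (x : II) :
    (S ^ (m + n)) x = (S ^ m) ((S ^ n) x) := by
  rw [zpow_add]; rfl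

theorem pertB_neg (S : II ≃o II) (m : ℤ) (x : II) : (S ^ (-m)) ((S ^ m) x) = x := by
  rw [← pertB_add, neg_add_cancel, zpow_zero]; rfl

theorem pertB_neg' (S : II ≃o II) (m : ℤ) (x : II) : (S ^ m) ((S ^ (-m)) x) = x := by
  rw [← pertB_add, add_neg_cancel, zpow_zero]; rfl

theorem pertB_mono (S : II ≃o II) {α : II} (h : α ≤ S α) : Monotone fun m : ℤ => (S ^ m) α := by
  apply monotone_int_of_le_succ
  intro m
  rw [pertB_add, zpow_one]
  exact (S ^ m).monotone h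

theorem pertB_equi (S : II ≃o II) {α β : II} (h0 : α < β) (h : β ≤ S α) {ε : ℝ} (hε : 0 < ε) :
    ∃ δ > 0, ∀ u ∈ Icc α β, ∀ v ∈ Icc α β, dist u v ≤ δ →
      ∀ m : ℤ, dist ((S ^ m) u) ((S ^ m) v) ≤ ε := by
  let f : ℤ → ℝ := fun m => ((S ^ m) α : II)
  have hf : Monotone f := fun a b hab => pertB_mono S (h0.le.trans h) hab
  have ha : BddAbove (range f) := ⟨1, by rintro _ ⟨m, rfl⟩; exact ((S ^ m) α).2.2⟩
  have hb : BddBelow (range f) := ⟨0, by rintro _ ⟨m, rfl⟩; exact ((S ^ m) α).2.1⟩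
  have t1 := tendsto_atTop_ciSup hf ha
  have t2 := tendsto_atBot_ciInf hf hb
  have t3 : Tendsto (fun m => f (m + 1) - f m) atTop (𝓝 0) := by
    have := (t1.comp (tendsto_atTop_add_const_right atTop (1 : ℤ) tendsto_id)).sub t1
    rwa [sub_self] at this
  have t4 : Tendsto (fun m => f (m + 1) - f m) atBot (𝓝 0) := by
    have := (t2.comp (tendsto_atBot_add_const_right atBot (1 : ℤ) tendsto_id)).sub t2
    rwa [sub_self] at this
  have t5 : ∀ᶠ m in cofinite, f (m + 1) - f m < ε := by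
    rw [Int.cofinite_eq, eventually_sup]
    exact ⟨t4.eventually (gt_mem_nhds hε), t3.eventually (gt_mem_nhds hε)⟩
  have hfin := eventually_cofinite.1 t5
  have e1 : ∀ m : ℤ, ∀ᶠ δ in 𝓝[>] (0 : ℝ), ∀ u v : II, dist u v ≤ δ →
      dist ((S ^ m) u) ((S ^ m) v) ≤ ε := by
    intro m
    have hu : UniformContinuous (S ^ m : II ≃o II) :=
      CompactSpace.uniformContinuous_of_continuous (S ^ m).continuous
    obtain ⟨d, hd, h1⟩ := Metric.uniformContinuous_iff.1 hu ε hε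
    filter_upwards [mem_nhdsWithin_of_mem_nhds (gt_mem_nhds hd)] with δ hδ u v huv
    exact (h1 (huv.trans_lt hδ)).le
  obtain ⟨δ, h1, h2⟩ :=
    (((eventually_all_finite hfin).2 fun m _ => e1 m).and self_mem_nhdsWithin).exists
  refine ⟨δ, h2, fun u hu v hv huv m => ?_⟩
  by_cases hm : f (m + 1) - f m < ε
  · have k : ∀ w ∈ Icc α β, f m ≤ ((S ^ m) w : II) ∧ (((S ^ m) w : II) : ℝ) ≤ f (m + 1) := by
      intro w hw
      refine ⟨(S ^ m).monotone hw.1, ?_⟩
      show (S ^ m) w ≤ (S ^ (m + 1)) α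
      rw [pertB_add, zpow_one]
      exact (S ^ m).monotone (hw.2.trans h)
    have k1 := k u hu
    have k2 := k v hv
    rw [Subtype.dist_eq, Real.dist_eq, abs_le]
    constructor <;> linarith [k1.1, k1.2, k2.1, k2.2]
  · exact h1 m hm u v huv

theorem pertB_uniq0 (S : II ≃o II) {α β : II} (h0 : α < β) (h : β ≤ S α) {x : II} {m n : ℤ}
    (hm : (S ^ m) x ∈ Ioo α β) (hn : (S ^ n) x ∈ Ioo α β) : m = n := by
  have key : ∀ a b : ℤ, (S ^ a) x ∈ Ioo α β → (S ^ b) x ∈ Ioo α β → ¬ a < b := by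
    intro a b ha hb hab
    have e : (S ^ b) x = (S ^ (b - a)) ((S ^ a) x) := by rw [← pertB_add, sub_add_cancel]
    have k1 : (S ^ (1 : ℤ)) α ≤ (S ^ (b - a)) α := pertB_mono S (h0.le.trans h) (by omega)
    rw [zpow_one] at k1
    have k2 : (S ^ (b - a)) α < (S ^ (b - a)) ((S ^ a) x) := (S ^ (b - a)).strictMono ha.1
    rw [← e] at k2
    exact absurd ((h.trans k1).trans_lt k2) (not_lt.2 hb.2.le)
  exact le_antisymm (not_lt.1 (key n m hn hm)) (not_lt.1 (key m n hm hn))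

theorem pertB_uniq (T : II ≃o II) {α β : II} (hb : Box T α β) {x : II} {m n : ℤ}
    (hm : (T ^ m) x ∈ Ioo α β) (hn : (T ^ n) x ∈ Ioo α β) : m = n := by
  rcases hb.2 with h | h
  · exact pertB_uniq0 T hb.1 h hm hn
  · have e : ∀ k : ℤ, T ^ k = T⁻¹ ^ (-k) := fun k => by rw [inv_zpow', neg_neg]
    rw [e] at hm hn
    exact neg_injective (pertB_uniq0 T⁻¹ hb.1 h hm hn)

theorem pertB_keep (χ : II ≃o II) {α β : II} (h : ∀ z, z ∉ Ioo α β → χ z = z) {z : II} :
    χ z ∈ Ioo α β ↔ z ∈ Ioo α β := by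
  constructor
  · intro hz
    by_contra hc
    rw [h z hc] at hz
    exact hc hz
  · intro hz
    by_contra hc
    rw [χ.injective (h _ hc)] at hc
    exact hc hz

theorem equicont (T : II ≃o II) {α β : II} (hb : Box T α β) {ε : ℝ} (hε : 0 < ε) :
    ∃ δ > 0, ∀ u ∈ Icc α β, ∀ v ∈ Icc α β, dist u v ≤ δ →
      ∀ m : ℤ, dist ((T ^ m) u) ((T ^ m) v) ≤ ε := by
  rcases hb.2 with h | h
  · exact pertB_equi T hb.1 h hε
  · obtain ⟨δ, hδ, h1⟩ := pertB_equi T⁻¹ hb.1 h hε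
    refine ⟨δ, hδ, fun u hu v hv huv m => ?_⟩
    have := h1 u hu v hv huv (-m)
    rwa [inv_zpow', neg_neg] at this

theorem pert (T : II ≃o II) {α β : II} (hb : Box T α β) {A B : Set II} (hA : IsClosed A)
    (hA' : NI A) (hB : IsClosed B) (hB' : NI B) (hsub : B ⊆ Ioo α β) {ε : ℝ} (hε : 0 < ε) :
    ∃ Ψ : II ≃o II, Ψ * T = T * Ψ ∧ (∀ z, z ∉ satB T α β → Ψ z = z) ∧ (∀ z ∈ B, Ψ z ∉ A) ∧
      ∀ z, dist (Ψ z) z ≤ ε := by
  classical
  obtain ⟨δ, hδ, he⟩ := equicont T hb hε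
  obtain ⟨χ, c1, c2, c3⟩ := pl_push hA hA' hB hB' hsub hδ
  let ψ : II → II := fun x =>
    if h : ∃ m : ℤ, (T ^ m) x ∈ Ioo α β then (T ^ (-h.choose)) (χ ((T ^ h.choose) x)) else x
  have p1 : ∀ (x : II) (m : ℤ), (T ^ m) x ∈ Ioo α β → ψ x = (T ^ (-m)) (χ ((T ^ m) x)) := by
    intro x m hm
    have h : ∃ m : ℤ, (T ^ m) x ∈ Ioo α β := ⟨m, hm⟩
    have e : h.choose = m := pertB_uniq T hb h.choose_spec hm
    simp only [ψ, dif_pos h, e]
  have p2 : ∀ x : II, (¬ ∃ m : ℤ, (T ^ m) x ∈ Ioo α β) → ψ x = x := by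
    intro x h
    simp only [ψ, dif_neg h]
  have hm : StrictMono ψ := by
    refine glue_mono (fun x y => x = y ∨ ∃ m : ℤ, (T ^ m) x ∈ Ioo α β ∧ (T ^ m) y ∈ Ioo α β)
      ⟨fun x => Or.inl rfl, ?_, ?_⟩ ?_ ψ ?_ ?_
    · rintro x y (h | ⟨m, h1, h2⟩)
      · exact Or.inl h.symm
      · exact Or.inr ⟨m, h2, h1⟩
    · rintro x y z (h | ⟨m, h1, h2⟩) h'
      · rwa [h]
      · rcases h' with h' | ⟨n, h3, h4⟩
        · exact Or.inr ⟨m, h1, h' ▸ h2⟩
        · exact Or.inr ⟨m, h1, (pertB_uniq T hb h2 h3) ▸ h4⟩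
    · rintro x y z (h | ⟨m, h1, h2⟩) hxy hyz
      · exact Or.inl (le_antisymm hxy (h ▸ hyz))
      · exact Or.inr ⟨m, h1, h1.1.trans_le ((T ^ m).monotone hxy),
          ((T ^ m).monotone hyz).trans_lt h2.2⟩
    · intro x
      by_cases h : ∃ m : ℤ, (T ^ m) x ∈ Ioo α β
      · obtain ⟨m, h⟩ := h
        refine Or.inr ⟨m, h, ?_⟩
        rw [p1 x m h, pertB_neg']
        exact (pertB_keep χ c1).2 h
      · exact Or.inl (p2 x h).symm
    · rintro x y (h | ⟨m, h1, h2⟩) hxy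
      · exact absurd h hxy.ne
      · rw [p1 x m h1, p1 y m h2]
        exact (T ^ (-m)).strictMono (χ.strictMono ((T ^ m).strictMono hxy))
  have hs : Function.Surjective ψ := by
    intro y
    by_cases h : ∃ m : ℤ, (T ^ m) y ∈ Ioo α β
    · obtain ⟨m, h⟩ := h
      refine ⟨(T ^ (-m)) (χ.symm ((T ^ m) y)), ?_⟩
      rw [p1 _ m (by
        rw [pertB_neg', ← pertB_keep χ c1, χ.apply_symm_apply]
        exact h), pertB_neg', χ.apply_symm_apply, pertB_neg]
    · exact ⟨y, p2 y h⟩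
  refine ⟨hm.orderIsoOfSurjective ψ hs, ?_, fun z hz => p2 z hz, fun z hz => ?_, fun z => ?_⟩
  · refine RelIso.ext fun x => ?_
    show ψ (T x) = T (ψ x)
    have e : ∀ m : ℤ, (T ^ m) (T x) = (T ^ (m + 1)) x := fun m => by rw [pertB_add, zpow_one]
    by_cases h : ∃ m : ℤ, (T ^ m) (T x) ∈ Ioo α β
    · obtain ⟨m, h⟩ := h
      rw [p1 _ m h, p1 x (m + 1) (e m ▸ h), e m]
      have e2 : -m = 1 + -(m + 1) := by ring
      rw [e2, pertB_add, zpow_one]
    · rw [p2 _ h, p2 x]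
      rintro ⟨m, hm⟩
      exact h ⟨m - 1, by rwa [e, sub_add_cancel]⟩
  · show ψ z ∉ A
    rw [p1 z 0 (by rw [zpow_zero]; exact hsub hz), neg_zero, zpow_zero]
    exact c2 z hz
  · show dist (ψ z) z ≤ ε
    by_cases h : ∃ m : ℤ, (T ^ m) z ∈ Ioo α β
    · obtain ⟨m, h⟩ := h
      have := he _ (Ioo_subset_Icc_self ((pertB_keep χ c1).2 h)) _ (Ioo_subset_Icc_self h)
        (c3 _) (-m)
      rwa [pertB_neg, ← p1 z m h] at this
    · rw [p2 z h, dist_self]
      exact hε.le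

end Pool.Agent.Work.MP_3d425c_gt.Cy

/-! Combinatorics of chains. -/

namespace Pool.Agent.Work.MP_3d425c_gt.Cy
open Set

variable {G : Type*} [Group G] {O : G → II → II → Prop} {g : G} {ρ : II ≃o II}

theorem Ch.anti {P Q : Set II} (hPQ : P ⊆ Q) {n γ s s'} (h : Ch O g ρ Q n γ s s') :
    Ch O g ρ P n γ s s' := by
  induction n generalizing γ s with
  | zero => exact h
  | succ n ih =>
    obtain ⟨b, t, i, γ', h1, h2, h3, h4, h5⟩ := h
    exact ⟨b, t, i, γ', h1, fun e => h2 (hPQ e), fun e => h3 (hPQ e), ih h4, h5⟩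

theorem ca_add (ρ : II ≃o II) (i j : ℤ) (x : II) : (ρ ^ i) ((ρ ^ j) x) = (ρ ^ (i + j)) x := by
  rw [zpow_add]
  rfl

theorem ca_lt (hO : Grpd O) {P : Set II} {n a s t} (h : Ch O g ρ P n a s t) : s < 1 := by
  cases n with
  | zero => exact hO.lt1 _ _ _ h
  | succ n =>
    obtain ⟨b, t, -, -, h1, -⟩ := h
    exact hO.lt1 _ _ _ h1

theorem ca_mv (hO : Grpd O) {P : Set II} (i : ℤ) {s : II} (hs : s < 1) (h1 : s ∉ P)
    (h2 : (ρ ^ i) s ∉ P) : Ch O g ρ P 1 (g ^ i) s ((ρ ^ i) s) :=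
  ⟨1, s, i, 1, hO.one s hs, h1, h2, hO.one _ (zpow_lt_one ρ i hs), by rw [one_mul, mul_one]⟩

theorem Ch.comp (hO : Grpd O) {P : Set II} {n m a b s t u} (h1 : Ch O g ρ P n a s t)
    (h2 : Ch O g ρ P m b t u) : Ch O g ρ P (n + m) (b * a) s u := by
  induction n generalizing a s with
  | zero =>
    rw [Nat.zero_add]
    cases m with
    | zero => exact hO.mul _ _ _ _ _ h1 h2
    | succ m =>
      obtain ⟨c, t', i, γ', k1, k2, k3, k4, rfl⟩ := h2
      exact ⟨c * a, t', i, γ', hO.mul _ _ _ _ _ h1 k1, k2, k3, k4, mul_assoc _ _ _⟩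
  | succ n ih =>
    obtain ⟨c, t', i, γ', k1, k2, k3, k4, rfl⟩ := h1
    rw [Nat.add_right_comm]
    exact ⟨c, t', i, b * γ', k1, k2, k3, ih k4, by simp only [mul_assoc]⟩

theorem Ch.symm (hO : Grpd O) {P : Set II} {n a s t} (h1 : Ch O g ρ P n a s t) :
    Ch O g ρ P n a⁻¹ t s := by
  induction n generalizing a s with
  | zero => exact hO.inv _ _ _ h1
  | succ n ih =>
    obtain ⟨c, t', i, γ', k1, k2, k3, k4, rfl⟩ := h1
    have e : (ρ ^ (-i)) ((ρ ^ i) t') = t' := by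
      rw [ca_add, neg_add_cancel, zpow_zero]
      rfl
    have k5 := ca_mv (g := g) (ρ := ρ) hO (-i) (ca_lt hO k4) k3 (by rwa [e])
    rw [e] at k5
    have k6 := ((ih k4).comp hO k5).comp hO (m := 0) (hO.inv _ _ _ k1)
    rw [mul_inv_rev, mul_inv_rev, ← zpow_neg]
    exact k6

theorem rel_iff (hO : Grpd O) {a s t} : Rel O g ρ a s t ↔ ∃ n, Ch O g ρ ∅ n a s t := by
  constructor
  · intro h
    induction h with
    | arr h => exact ⟨0, h⟩
    | mv i h => exact ⟨1, ca_mv hO i h id id⟩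
    | comp _ _ h1 h2 =>
      obtain ⟨n, h1⟩ := h1
      obtain ⟨m, h2⟩ := h2
      exact ⟨_, h1.comp hO h2⟩
  · rintro ⟨n, h⟩
    induction n generalizing a s with
    | zero => exact .arr h
    | succ n ih =>
      obtain ⟨c, t', i, γ', k1, -, -, k4, rfl⟩ := h
      rw [mul_assoc]
      exact ((Rel.arr k1).comp (.mv i (hO.lt1 _ _ _ (hO.inv _ _ _ k1)))).comp (ih k4)

theorem ca_arr (hO : Grpd O) {k : ℕ} (hT : ∀ s, s < 1 → O (g ^ k) s ((ρ ^ k) s)) (m : ℤ) {s : II}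
    (hs : s < 1) : O (g ^ (k * m)) s ((ρ ^ (k * m)) s) := by
  induction m using Int.induction_on with
  | zero =>
    rw [mul_zero, zpow_zero, zpow_zero]
    exact hO.one s hs
  | succ m ih =>
    have := hO.mul _ _ _ _ _ ih (hT _ (zpow_lt_one ρ _ hs))
    rwa [← zpow_natCast, ← zpow_natCast, ca_add, ← zpow_add, add_comm (k : ℤ), ← mul_add_one] at this
  | pred m ih =>
    have h := hT _ (zpow_lt_one ρ (k * (-m - 1)) hs)
    have e : (k : ℤ) + k * (-m - 1) = k * -m := by ring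
    rw [← zpow_natCast, ← zpow_natCast, ca_add, e] at h
    have := hO.mul _ _ _ _ _ ih (hO.inv _ _ _ h)
    rwa [← e, zpow_add, inv_mul_cancel_left] at this

/-- In a shortest nontrivial loop the orbit of the first incidence is not met again. -/
theorem short_loop (hG : Hyp G) (hO : Grpd O) (hg : g ≠ 1) {k : ℕ} (hk : 0 < k)
    (hT : ∀ s, s < 1 → O (g ^ k) s ((ρ ^ k) s)) {n : ℕ} {s t : II} {b γ' : G} {i : ℤ}
    (hsh : ∀ s' δ n', Ch O g ρ ∅ n' δ s s' → ∀ m ≤ n, ∀ a, Ch O g ρ ∅ m a s' s' → a = 1)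
    (hb : O b s t) (hc : Ch O g ρ ∅ n γ' ((ρ ^ i) t) s) (hne : γ' * g ^ i * b ≠ 1) :
    (ρ ^ k) t ≠ t ∧ (ρ ^ i) t ∉ orb (ρ ^ k) t ∧
      ¬ ∃ (n₁ n₂ : ℕ) (γ₁ γ₂ : G) (j : ℤ) (y : II), n₁ + n₂ + 1 = n ∧
        Ch O g ρ ∅ n₁ γ₁ ((ρ ^ i) t) y ∧ Ch O g ρ ∅ n₂ γ₂ ((ρ ^ j) y) s ∧
        γ' = γ₂ * g ^ j * γ₁ ∧ (y ∈ orb (ρ ^ k) t ∨ (ρ ^ j) y ∈ orb (ρ ^ k) t) := by
  have t1 : t < 1 := hO.lt1 _ _ _ (hO.inv _ _ _ hb)
  have ob : ∀ x, x ∈ orb (ρ ^ k) t → ∃ m : ℤ, x = (ρ ^ (k * m)) t := fun x ⟨m, e⟩ =>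
    ⟨m, by rw [e, zpow_mul, zpow_natCast]⟩
  have h1 : (ρ ^ k) t ≠ t := fun e => by
    have a := hT t t1
    rw [e] at a
    exact hG.tf g hg (isOfFinOrder_iff_pow_eq_one.2 ⟨k, hk, hsh t b 0 hb 0 n.zero_le _ a⟩)
  have mv : ∀ (j : ℤ) {x : II}, x < 1 → Ch O g ρ ∅ 1 (g ^ j) x ((ρ ^ j) x) := fun j _ hx =>
    ca_mv hO j hx id id
  have c0 : Ch O g ρ ∅ 0 b s t := hb
  have s0 : Ch O g ρ ∅ 0 1 s s := hO.one s (hO.lt1 _ _ _ hb)
  have ar : ∀ m : ℤ, Ch O g ρ ∅ 0 (g ^ (k * m)) t ((ρ ^ (k * m)) t) := fun m => ca_arr hO hT m t1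
  refine ⟨h1, fun h => ?_, ?_⟩
  · obtain ⟨m, e⟩ := ob _ h
    by_cases him : i = k * m
    · subst him
      refine hne ?_
      rw [mul_assoc]
      exact hsh s 1 0 s0 _ (by omega) _ ((c0.comp hO (ar m)).comp hO hc)
    · have e2 : (ρ ^ (-(k * m) + i)) t = t := by
        rw [← ca_add, e, ca_add, neg_add_cancel, zpow_zero]
        rfl
      have e3 := zpow_fix (by omega) e2
      refine h1 ?_
      clear hk hT ob h1 ar h e him e2
      induction k with
      | zero => rfl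
      | succ k ih =>
        rw [pow_succ]
        exact (congrArg (ρ ^ k) e3).trans ih
  · rintro ⟨n₁, n₂, γ₁, γ₂, j, y, hn, c1, c2, rfl, h | h⟩
    · obtain ⟨m, rfl⟩ := ob _ h
      have a := hsh t b 0 hb _ (by omega) _ (((mv i t1).comp hO c1).comp hO ((ar m).symm hO))
      have a' := hsh s 1 0 s0 _ (by omega) _
        (((c0.comp hO (ar m)).comp hO (mv j (zpow_lt_one ρ _ t1))).comp hO c2)
      rw [inv_mul_eq_one] at a
      refine hne ?_
      rw [a] at a'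
      simpa only [mul_assoc] using a'
    · obtain ⟨m, e⟩ := ob _ h
      have e2 : (ρ ^ (i + -(k * m) + j)) y = (ρ ^ i) t := by
        rw [← ca_add, e, ca_add, neg_add_cancel_right]
      have c3 := mv (i + -(k * m) + j) (ca_lt hO (c1.symm hO))
      rw [e2] at c3
      rw [e] at c2
      have a := hsh _ _ _ (c0.comp hO (mv i t1)) _ (by omega) _ (c1.comp hO c3)
      have a' := hsh s 1 0 s0 _ (by omega) _ ((c0.comp hO (ar m)).comp hO c2)
      refine hne ?_
      rw [eq_inv_of_mul_eq_one_right a, ← a']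
      group

end Pool.Agent.Work.MP_3d425c_gt.Cy

/-! Combinatorics of chains. -/

namespace Pool.Agent.Work.MP_3d425c_gt.Cy
open Set

variable {G : Type*} [Group G] {O : G → II → II → Prop} {g : G} {ρ : II ≃o II}

/-- The case of a trivial vertex group at the source. -/
theorem cb_arrow {α : Type*} (R : G → α → α → Prop)
    (hmul : ∀ a b s t u, R a s t → R b t u → R (b * a) s u)
    (hinv : ∀ a s t, R a s t → R a⁻¹ t s)
    (hab : ∀ a b s, R a s s → R b s s → a * b = b * a) {p q : α} (w : G) (hp1 : R 1 p p)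
    (hq1 : R 1 q q) (hp : ∀ a, R a p p → a = 1) :
    ∃ J : G → α → α → Prop, (∀ a s t, R a s t → J a s t) ∧ J w p q ∧ J w⁻¹ q p ∧
      (∀ a b s t u, J a s t → J b t u → J (b * a) s u) ∧
      ∀ a b s, J a s s → J b s s → a * b = b * a := by
  obtain ⟨H, hc, h1, h2⟩ : ∃ H : Subgroup G, (∀ x ∈ H, ∀ y ∈ H, x * y = y * x) ∧
      (∀ a, R a q q → a ∈ H) ∧ ∀ d, R d q p → w * d ∈ H := by
    by_cases h : ∃ d, R d q p
    · obtain ⟨d, hd⟩ := h
      refine ⟨Subgroup.zpowers (w * d), ?_, fun a ha => ?_, fun d' hd' => ?_⟩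
      · rintro _ ⟨i, rfl⟩ _ ⟨j, rfl⟩
        exact (Commute.zpow_zpow_self _ i j).eq
      · have h3 := hp _ (hmul _ _ _ _ _ (hmul _ _ _ _ _ (hinv _ _ _ hd) ha) hd)
        have h4 : a = 1 := by
          calc a = d⁻¹ * (d * (a * d⁻¹)) * d := by group
            _ = 1 := by rw [h3]; group
        rw [h4]
        exact one_mem _
      · rw [mul_inv_eq_one.1 (hp _ (hmul _ _ _ _ _ (hinv _ _ _ hd) hd'))]
        exact Subgroup.mem_zpowers _
    · exact ⟨{ carrier := {a | R a q q}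
               mul_mem' := fun ha hb => hmul _ _ _ _ _ hb ha
               one_mem' := hq1
               inv_mem' := fun ha => hinv _ _ _ ha },
        fun x hx y hy => hab x y q hx hy, fun a ha => ha, fun d hd => absurd ⟨d, hd⟩ h⟩
  let C : α → G → Prop := fun s l => R l s q ∨ ∃ a, R a s p ∧ l = w * a
  have K1 : ∀ s l l', C s l → C s l' → l' * l⁻¹ ∈ H := by
    have m : ∀ s l a, R l s q → R a s p → w * a * l⁻¹ ∈ H := fun s l a hl ha => by
      rw [mul_assoc]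
      exact h2 _ (hmul _ _ _ _ _ (hinv _ _ _ hl) ha)
    rintro s l l' (hl | ⟨a, ha, rfl⟩) (hl' | ⟨a', ha', rfl⟩)
    · exact h1 _ (hmul _ _ _ _ _ (hinv _ _ _ hl) hl')
    · exact m _ _ _ hl ha'
    · have := inv_mem (m _ _ _ hl' ha)
      rwa [mul_inv_rev, inv_inv] at this
    · rw [mul_inv_eq_one.1 (hp _ (hmul _ _ _ _ _ (hinv _ _ _ ha) ha')), mul_inv_cancel]
      exact one_mem _
  have K2 : ∀ g s t l, R g s t → C t l → C s (l * g) := by
    rintro g s t l hg (hl | ⟨a, ha, rfl⟩)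
    · exact Or.inl (hmul _ _ _ _ _ hg hl)
    · exact Or.inr ⟨a * g, hmul _ _ _ _ _ hg ha, mul_assoc _ _ _⟩
  have Cp : C p w := Or.inr ⟨1, hp1, (mul_one w).symm⟩
  have Cq : C q 1 := Or.inl hq1
  have K3 : ∀ s l₀ g, C s l₀ → (R g s s ∨ ∃ l l₂, C s l ∧ C s l₂ ∧ l₂ * g * l⁻¹ ∈ H) →
      l₀ * g * l₀⁻¹ ∈ H := by
    rintro s l₀ g h0 (hg | ⟨l, l₂, hl, hl₂, hm⟩)
    · exact K1 _ _ _ h0 (K2 _ _ _ _ hg h0)
    · have := mul_mem (mul_mem (K1 _ _ _ hl₂ h0) hm) (K1 _ _ _ h0 hl)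
      rwa [show l₀ * l₂⁻¹ * (l₂ * g * l⁻¹) * (l * l₀⁻¹) = l₀ * g * l₀⁻¹ by group] at this
  have K4 : ∀ s l₀ a b, C s l₀ → (R a s s ∨ ∃ l l₂, C s l ∧ C s l₂ ∧ l₂ * a * l⁻¹ ∈ H) →
      (R b s s ∨ ∃ l l₂, C s l ∧ C s l₂ ∧ l₂ * b * l⁻¹ ∈ H) → a * b = b * a :=
    fun s l₀ a b h0 ha hb => by
      have h3 := hc _ (K3 _ _ _ h0 ha) _ (K3 _ _ _ h0 hb)
      calc a * b = l₀⁻¹ * (l₀ * a * l₀⁻¹ * (l₀ * b * l₀⁻¹)) * l₀ := by group
        _ = b * a := by rw [h3]; group
  refine ⟨fun g s t => R g s t ∨ ∃ l l₂, C s l ∧ C t l₂ ∧ l₂ * g * l⁻¹ ∈ H,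
    fun a s t h => Or.inl h, Or.inr ⟨w, 1, Cp, Cq, ?_⟩, Or.inr ⟨1, w, Cq, Cp, ?_⟩, ?_, ?_⟩
  · rw [one_mul, mul_inv_cancel]
    exact one_mem _
  · rw [mul_inv_cancel, inv_one, mul_one]
    exact one_mem _
  · rintro a b s t u (ha | ⟨l, l₂, hl, hl₂, hm⟩) (hb | ⟨m, m₂, hk, hk₂, hn⟩)
    · exact Or.inl (hmul _ _ _ _ _ ha hb)
    · refine Or.inr ⟨m * a, m₂, K2 _ _ _ _ ha hk, hk₂, ?_⟩
      rwa [show m₂ * (b * a) * (m * a)⁻¹ = m₂ * b * m⁻¹ by group]
    · refine Or.inr ⟨l, l₂ * b⁻¹, hl, K2 _ _ _ _ (hinv _ _ _ hb) hl₂, ?_⟩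
      rwa [show l₂ * b⁻¹ * (b * a) * l⁻¹ = l₂ * a * l⁻¹ by group]
    · refine Or.inr ⟨l, m₂, hl, hk₂, ?_⟩
      have := mul_mem (mul_mem hn (K1 _ _ _ hl₂ hk)) hm
      rwa [show m₂ * b * m⁻¹ * (m * l₂⁻¹) * (l₂ * a * l⁻¹) = m₂ * (b * a) * l⁻¹ by group] at this
  · rintro a b s (ha | ⟨l, l₂, hl, h⟩) hb
    · rcases hb with hb | ⟨l, l₂, hl, h⟩
      · exact hab _ _ _ ha hb
      · exact K4 s l a b hl (Or.inl ha) (Or.inr ⟨l, l₂, hl, h⟩)
    · exact K4 s l a b hl (Or.inr ⟨l, l₂, hl, h⟩) hb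

/-- Adding one arrow to a groupoid with abelian vertex groups, trivial at the source.
`Q` is any relation closed under the operations below that is generated by them: the
conclusion is an invariant `J` containing `R` and the arrow, with abelian vertex groups. -/
theorem one_arrow {α : Type*} (R : G → α → α → Prop)
    (hmul : ∀ a b s t u, R a s t → R b t u → R (b * a) s u)
    (hinv : ∀ a s t, R a s t → R a⁻¹ t s)
    (hab : ∀ a b s, R a s s → R b s s → a * b = b * a) {p q : α} (w : G) (hp1 : R 1 p p)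
    (hq1 : R 1 q q) (hp : (∀ a, R a p p → a = 1) ∨ ∀ a, R a q q → a = 1) :
    ∃ J : G → α → α → Prop, (∀ a s t, R a s t → J a s t) ∧ J w p q ∧ J w⁻¹ q p ∧
      (∀ a b s t u, J a s t → J b t u → J (b * a) s u) ∧
      ∀ a b s, J a s s → J b s s → a * b = b * a := by
  rcases hp with hp | hq
  · exact cb_arrow R hmul hinv hab w hp1 hq1 hp
  · obtain ⟨J, h1, h2, h3, h4⟩ := cb_arrow R hmul hinv hab w⁻¹ hq1 hp1 hq
    exact ⟨J, h1, inv_inv w ▸ h3, h2, h4⟩

end Pool.Agent.Work.MP_3d425c_gt.Cy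

/-! Combinatorics of chains. -/

namespace Pool.Agent.Work.MP_3d425c_gt.Cy
open Set

variable {G : Type*} [Group G] {O : G → II → II → Prop} {g : G} {ρ : II ≃o II}

theorem cc_add (a b : ℤ) (x : II) : (ρ ^ a) ((ρ ^ b) x) = (ρ ^ (a + b)) x := by
  rw [zpow_add]
  rfl

theorem cc_pow {H : Type*} [Group H] (x : H) (k : ℕ) (m : ℤ) : (x ^ k) ^ m = x ^ ((k : ℤ) * m) := by
  rw [zpow_mul, zpow_natCast]

theorem cc_fix {t : II} (h : ρ t = t) (i : ℤ) : (ρ ^ i) t = t :=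
  MulAction.mem_stabilizer_iff.1 (zpow_mem (MulAction.mem_stabilizer_iff.2 h :
    ρ ∈ MulAction.stabilizer (II ≃o II) t) i)

/-- Powers of `ρ ^ k` are arrows. -/
theorem cc_T (hO : Grpd O) {k : ℕ} (hT : ∀ s, s < 1 → O (g ^ k) s ((ρ ^ k) s)) (m : ℤ) :
    ∀ t, t < 1 → O (g ^ ((k : ℤ) * m)) t ((ρ ^ ((k : ℤ) * m)) t) := by
  rw [← cc_pow, ← cc_pow]
  induction m using Int.induction_on with
  | zero =>
    rw [zpow_zero, zpow_zero]
    exact hO.one
  | succ n ih =>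
    intro t ht
    rw [zpow_add_one, zpow_add_one]
    exact hO.mul _ _ _ _ _ (hT t ht) (ih _ (hO.lt1 _ _ _ (hO.inv _ _ _ (hT t ht))))
  | pred n ih =>
    intro t ht
    rw [zpow_sub_one, zpow_sub_one]
    have h1 : (ρ ^ k)⁻¹ t < 1 := by
      have := zpow_lt_one (ρ ^ k) (-1) ht
      rwa [zpow_neg_one] at this
    have h2 := hO.inv _ _ _ (hT _ h1)
    rw [RelIso.apply_inv_self] at h2
    exact hO.mul _ _ _ _ _ h2 (ih _ h1)

/-- A relation that is closed under products and contains arrows and moves contains chains. -/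
theorem cc_sub (hO : Grpd O) {P : Set II} (J : G → II → II → Prop)
    (hmul : ∀ a b s t u, J a s t → J b t u → J (b * a) s u) (h0 : ∀ b s t, O b s t → J b s t)
    (hmv : ∀ t (i : ℤ), t < 1 → t ∉ P → (ρ ^ i) t ∉ P → J (g ^ i) t ((ρ ^ i) t)) (n : ℕ) :
    ∀ γ s s', Ch O g ρ P n γ s s' → J γ s s' := by
  induction n with
  | zero => exact h0
  | succ n ih =>
    rintro γ s s' ⟨b, t, i, γ', h1, h2, h3, h4, rfl⟩
    rw [mul_assoc]
    exact hmul _ _ _ _ _ (hmul _ _ _ _ _ (h0 _ _ _ h1)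
      (hmv t i (hO.lt1 _ _ _ (hO.inv _ _ _ h1)) h2 h3)) (ih _ _ _ h4)

theorem cc_move (hO : Grpd O) {P : Set II} {t : II} {i : ℤ} (ht : t < 1) (h1 : t ∉ P)
    (h2 : (ρ ^ i) t ∉ P) : Ch O g ρ P 1 (g ^ i) t ((ρ ^ i) t) :=
  ⟨1, t, i, 1, hO.one t ht, h1, h2, hO.one _ (zpow_lt_one ρ i ht), by rw [one_mul, mul_one]⟩

/-- Points that are neither fixed nor in the orbit of a member of `E`. -/
def ccP (T : II ≃o II) (E : List II) : Set II := {x | ¬ (T x = x ∨ ∃ e ∈ E, x ∈ orb T e)}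

theorem ccP_zpow {T : II ≃o II} {E : List II} {x : II} (h : x ∉ ccP T E) (m : ℤ) :
    (T ^ m) x ∉ ccP T E := by
  refine not_not.2 ((not_not.1 h).imp (fun h => ?_) ?_)
  · have h1 : T ((T ^ m) x) = (T ^ m) (T x) :=
      congrArg (fun f : II ≃o II => f x) (Commute.self_zpow T m).eq
    rw [h1, h]
  · rintro ⟨e, he, a, rfl⟩
    exact ⟨e, he, m + a, cc_add _ _ _⟩

theorem ccP_cons {T : II ≃o II} {E : List II} {e x : II} :
    x ∉ ccP T (e :: E) ↔ x ∉ ccP T E ∨ x ∈ orb T e := by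
  simp only [ccP, mem_ofPred_eq, not_not, List.mem_cons, exists_eq_or_imp]
  rw [or_assoc, or_comm (b := x ∈ orb T e)]

theorem cc_fin (T : II ≃o II) (n : ℕ) : ∀ γ s s', Ch O g ρ ∅ n γ s s' →
    ∃ E : List II, Ch O g ρ (ccP T E) n γ s s' := by
  induction n with
  | zero => exact fun γ s s' h => ⟨[], h⟩
  | succ n ih =>
    rintro γ s s' ⟨b, t, i, γ', h1, -, -, h4, rfl⟩
    obtain ⟨E, hE⟩ := ih _ _ _ h4
    refine ⟨t :: (ρ ^ i) t :: E, b, t, i, γ', h1, ccP_cons.2 (Or.inr ⟨0, rfl⟩),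
      ccP_cons.2 (Or.inl (ccP_cons.2 (Or.inr ⟨0, rfl⟩))), hE.anti fun x hx => ?_, rfl⟩
    by_contra h
    exact ccP_cons.2 (Or.inl (ccP_cons.2 (Or.inl h))) hx

theorem cc_conj {x y : G} (c : G) (h : x * y = y * x) :
    c * x * c⁻¹ * (c * y * c⁻¹) = c * y * c⁻¹ * (c * x * c⁻¹) := by
  calc c * x * c⁻¹ * (c * y * c⁻¹) = c * (x * y) * c⁻¹ := by group
    _ = _ := by rw [h]; group

theorem cc_ne {x : G} (c : G) (h : x ≠ 1) : c * x * c⁻¹ ≠ 1 := fun e =>
  h (conj_eq_one_iff.1 e)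

/-- Moves only at fixed points. -/
theorem cc_base (hG : Hyp G) (hO : Grpd O) (hg : g ≠ 1) {k : ℕ} (hk : 0 < k)
    (hT : ∀ s, s < 1 → O (g ^ k) s ((ρ ^ k) s)) {a b : G} {s : II} {n m : ℕ}
    (ha : Ch O g ρ (ccP (ρ ^ k) []) n a s s) (hb : Ch O g ρ (ccP (ρ ^ k) []) m b s s) :
    a * b = b * a := by
  have hgk : g ^ k ≠ 1 := fun e => hG.tf g hg (isOfFinOrder_iff_pow_eq_one.2 ⟨k, hk, e⟩)
  have cj : ∀ c x s t, O c s t → O x s s → O (c * x * c⁻¹) t t := fun c x s t hc hx => by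
    rw [mul_assoc]
    exact hO.mul _ _ _ _ _ (hO.mul _ _ _ _ _ (hO.inv _ _ _ hc) hx) hc
  let J : G → II → II → Prop := fun γ s t => O γ s t ∨ ∃ x y, x ≠ 1 ∧ y ≠ 1 ∧ O x s s ∧ O y t t ∧
    γ * x * γ⁻¹ * y = y * (γ * x * γ⁻¹)
  have key := cc_sub (g := g) (ρ := ρ) (P := ccP (ρ ^ k) []) hO J (by
    rintro a b s t u (ha | ⟨x, y, hx, hy, h1, h2, h3⟩) (hb | ⟨z, w, hz, hw, h4, h5, h6⟩)
    · exact Or.inl (hO.mul _ _ _ _ _ ha hb)
    · refine Or.inr ⟨a⁻¹ * z * a⁻¹⁻¹, w, cc_ne _ hz, hw, cj _ _ _ _ (hO.inv _ _ _ ha) h4, h5, ?_⟩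
      rwa [show b * a * (a⁻¹ * z * a⁻¹⁻¹) * (b * a)⁻¹ = b * z * b⁻¹ by group]
    · refine Or.inr ⟨x, b * y * b⁻¹, hx, cc_ne _ hy, h1, cj _ _ _ _ hb h2, ?_⟩
      rw [show b * a * x * (b * a)⁻¹ = b * (a * x * a⁻¹) * b⁻¹ by group]
      exact cc_conj b h3
    · refine Or.inr ⟨x, w, hx, hw, h1, h5, ?_⟩
      rw [show b * a * x * (b * a)⁻¹ = b * (a * x * a⁻¹) * b⁻¹ by group]
      exact hG.ct (cc_ne b hz) (cc_conj b (hG.ct hy h3 (hO.ab _ _ _ h4 h2))) h6.symm)
    (fun b s t h => Or.inl h) (by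
    intro t i ht h1 _
    have h2 : (ρ ^ k) t = t := (not_not.1 h1).resolve_right fun ⟨e, he, _⟩ => List.not_mem_nil he
    have h3 : ρ t = t := zpow_fix (i := k) (by omega) (by rwa [zpow_natCast])
    have h4 : (ρ ^ i) t = t := cc_fix h3 i
    have h5 := hT t ht
    rw [h2] at h5
    rw [h4]
    refine Or.inr ⟨g ^ k, g ^ k, hgk, hgk, h5, h5, ?_⟩
    group)
  have fin : ∀ x γ, x ≠ 1 → O x s s → J γ s s → γ * x = x * γ := by
    rintro x γ hx h0 (h | ⟨y, z, hy, hz, h1, h2, h3⟩)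
    · exact hO.ab _ _ _ h h0
    · exact hG.ct hy (hG.mn hy (hG.ct hz h3 (hO.ab _ _ _ h1 h2))) (hO.ab _ _ _ h0 h1)
  rcases key _ _ _ _ ha with h | ⟨x, y, hx, hy, h1, h⟩
  · rcases key _ _ _ _ hb with h' | ⟨x, y, hx, hy, h1, h'⟩
    · exact hO.ab _ _ _ h h'
    · exact hG.ct hx (fin x a hx h1 (Or.inl h)) (fin x b hx h1 (key _ _ _ _ hb))
  · exact hG.ct hx (fin x a hx h1 (key _ _ _ _ ha)) (fin x b hx h1 (key _ _ _ _ hb))

/-- The star condition makes all vertex groups abelian. -/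
theorem star_comm (hG : Hyp G) (hO : Grpd O) (hg : g ≠ 1) {k : ℕ} (hk : 0 < k)
    (hT : ∀ s, s < 1 → O (g ^ k) s ((ρ ^ k) s))
    (hstar : ∀ (e : II) (i : ℤ), (ρ ^ k) e ≠ e → (ρ ^ i) e ∉ orb (ρ ^ k) e →
      ∀ n a n' a', Ch O g ρ (orb (ρ ^ k) e) n a e e →
        Ch O g ρ (orb (ρ ^ k) e) n' a' ((ρ ^ i) e) ((ρ ^ i) e) → a = 1 ∨ a' = 1)
    {s : II} {a b : G} (ha : Rel O g ρ a s s) (hb : Rel O g ρ b s s) : a * b = b * a := by
  have main : ∀ (E : List II) (a b : G) (s : II), (∃ n, Ch O g ρ (ccP (ρ ^ k) E) n a s s) →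
      (∃ n, Ch O g ρ (ccP (ρ ^ k) E) n b s s) → a * b = b * a := by
    intro E
    induction E with
    | nil => exact fun a b s ⟨n, ha⟩ ⟨m, hb⟩ => cc_base hG hO hg hk hT ha hb
    | cons e E ih =>
      by_cases he : e ∈ ccP (ρ ^ k) E
      swap
      · have sub : ccP (ρ ^ k) E ⊆ ccP (ρ ^ k) (e :: E) := fun x hx => by
          by_contra h
          rcases ccP_cons.1 h with h | ⟨m, rfl⟩
          exacts [h hx, ccP_zpow he m hx]
        exact fun a b s ⟨n, ha⟩ ⟨m, hb⟩ => ih a b s ⟨n, ha.anti sub⟩ ⟨m, hb.anti sub⟩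
      have sub : orb (ρ ^ k) e ⊆ ccP (ρ ^ k) E := by
        rintro _ ⟨m, rfl⟩
        by_contra h
        have := ccP_zpow h (-m)
        rw [cc_add, neg_add_cancel] at this
        exact this he
      have hne : (ρ ^ k) e ≠ e := fun h => he (Or.inl h)
      have he1 : e < 1 := lt_top_iff_ne_top.2 fun h => hne (by rw [h]; exact map_top _)
      have Rm : ∀ a b s t u, (∃ n, Ch O g ρ (ccP (ρ ^ k) E) n a s t) →
          (∃ n, Ch O g ρ (ccP (ρ ^ k) E) n b t u) → ∃ n, Ch O g ρ (ccP (ρ ^ k) E) n (b * a) s u :=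
        fun a b s t u ⟨n, h⟩ ⟨m, h'⟩ => ⟨n + m, h.comp hO h'⟩
      obtain ⟨J, J1, J2, J3, J4⟩ : ∃ J : G → II → II → Prop,
          (∀ a s t, (∃ n, Ch O g ρ (ccP (ρ ^ k) E) n a s t) → J a s t) ∧
          (∀ a b s t u, J a s t → J b t u → J (b * a) s u) ∧
          (∀ a b s, J a s s → J b s s → a * b = b * a) ∧
          ∀ j : ℤ, (ρ ^ j) e ∉ ccP (ρ ^ k) E →
            J (g ^ j) e ((ρ ^ j) e) ∧ J (g ^ (-j)) ((ρ ^ j) e) e := by
        by_cases h : ∃ i : ℤ, (ρ ^ i) e ∉ ccP (ρ ^ k) E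
        swap
        · exact ⟨_, fun _ _ _ h => h, Rm, ih, fun j hj => absurd ⟨j, hj⟩ h⟩
        obtain ⟨i, hi⟩ := h
        obtain ⟨J, J1, J2, J3, J4, J5⟩ := one_arrow
          (fun a s t => ∃ n, Ch O g ρ (ccP (ρ ^ k) E) n a s t) Rm
          (fun a s t ⟨n, h⟩ => ⟨n, h.symm hO⟩) ih (p := e) (q := (ρ ^ i) e) (g ^ i)
          ⟨0, hO.one _ he1⟩ ⟨0, hO.one _ (zpow_lt_one ρ i he1)⟩ (by
            by_contra hc
            rw [not_or, not_forall, not_forall] at hc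
            obtain ⟨⟨a, ha⟩, a', ha'⟩ := hc
            rw [Classical.not_imp] at ha ha'
            obtain ⟨⟨n, h1⟩, h2⟩ := ha
            obtain ⟨⟨n', h3⟩, h4⟩ := ha'
            exact (hstar e i hne (fun h => hi (sub h)) n a n' a' (h1.anti sub)
              (h3.anti sub)).elim h2 h4)
        refine ⟨J, J1, J4, J5, fun j hj => ⟨?_, ?_⟩⟩
        · have h1 : (ρ ^ (j - i)) ((ρ ^ i) e) = (ρ ^ j) e := by rw [cc_add, sub_add_cancel]
          have h2 := cc_move (g := g) hO (zpow_lt_one ρ i he1) hi (h1 ▸ hj)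
          rw [h1] at h2
          have := J4 _ _ _ _ _ J2 (J1 _ _ _ ⟨1, h2⟩)
          rwa [← zpow_add, sub_add_cancel] at this
        · have h1 : (ρ ^ (i - j)) ((ρ ^ j) e) = (ρ ^ i) e := by rw [cc_add, sub_add_cancel]
          have h2 := cc_move (g := g) hO (zpow_lt_one ρ j he1) hj (h1 ▸ hi)
          rw [h1] at h2
          have := J4 _ _ _ _ _ (J1 _ _ _ ⟨1, h2⟩) J3
          rwa [← zpow_neg, ← zpow_add, show -i + (i - j) = -j by ring] at this
      have J0 : ∀ b s t, O b s t → J b s t := fun b s t h => J1 _ _ _ ⟨0, h⟩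
      have key := cc_sub (g := g) (ρ := ρ) (P := ccP (ρ ^ k) (e :: E)) hO J J2 J0 (by
        intro t i ht h1 h2
        rcases ccP_cons.1 h1 with h1 | ⟨x, hx⟩ <;> rcases ccP_cons.1 h2 with h2 | ⟨y, hy⟩
        · exact J1 _ _ _ ⟨1, cc_move hO ht h1 h2⟩
        · rw [cc_pow] at hy
          have h3 : t = (ρ ^ (-i + k * y)) e := by
            rw [← cc_add, ← hy, cc_add, neg_add_cancel]
            rfl
          have := J2 _ _ _ _ _ (J4 _ (h3 ▸ h1)).2 (J0 _ _ _ (cc_T hO hT y e he1))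
          rwa [← h3, ← hy, ← zpow_add, show k * y + -(-i + k * y) = i by ring] at this
        · rw [cc_pow] at hx
          have h3 : (ρ ^ i) t = (ρ ^ (i + k * x)) e := by rw [hx, cc_add]
          have h4 := hO.inv _ _ _ (cc_T hO hT x e he1)
          have := J2 _ _ _ _ _ (J0 _ _ _ h4) (J4 _ (h3 ▸ h2)).1
          rwa [← h3, ← hx, ← zpow_neg, ← zpow_add, add_neg_cancel_right] at this
        · rw [cc_pow] at hx hy
          have h3 : i = k * (y - x) := by
            by_contra hc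
            have h4 : (ρ ^ (-(k * y) + (i + k * x))) e = e := by
              rw [← cc_add, ← cc_add, ← hx, hy, cc_add, neg_add_cancel]
              rfl
            have h5 := zpow_fix (fun h => hc (by linear_combination h)) h4
            exact hne (by rw [← zpow_natCast]; exact cc_fix h5 k)
          rw [h3]
          exact J0 _ _ _ (cc_T hO hT _ t ht))
      exact fun a b s ⟨n, ha⟩ ⟨m, hb⟩ => J3 a b s (key _ _ _ _ ha) (key _ _ _ _ hb)
  obtain ⟨n, ha⟩ := (rel_iff hO).1 ha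
  obtain ⟨m, hb⟩ := (rel_iff hO).1 hb
  obtain ⟨E, hE⟩ := cc_fin (ρ ^ k) n _ _ _ ha
  obtain ⟨E', hE'⟩ := cc_fin (ρ ^ k) m _ _ _ hb
  have sub : ∀ E F : List II, E ⊆ F → ccP (ρ ^ k) F ⊆ ccP (ρ ^ k) E := fun E F hs x hx h =>
    hx (h.imp_right fun ⟨e, h1, h2⟩ => ⟨e, hs h1, h2⟩)
  exact main (E ++ E') a b s ⟨n, hE.anti (sub _ _ (List.subset_append_left _ _))⟩
    ⟨m, hE'.anti (sub _ _ (List.subset_append_right _ _))⟩

end Pool.Agent.Work.MP_3d425c_gt.Cy

/-! The generic root. -/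

namespace Pool.Agent.Work.MP_3d425c_gt.Cy
open Set Filter Topology

variable {G : Type*} [Group G] {O : G → II → II → Prop} {g : G}

/-- Chains that follow a fixed pattern of compact pieces and moves. -/
def gW (K : G → ℕ → Set (II × II)) (ρ : II ≃o II) (P : Set II) (e : G × ℕ) :
    List (G × ℕ × ℤ) → II → II → Prop
  | [], s, u => (s, u) ∈ K e.1 e.2
  | x :: l, s, u => ∃ t, (s, t) ∈ K x.1 x.2.1 ∧ t ∉ P ∧ (ρ ^ x.2.2) t ∉ P ∧
      gW K ρ P e l ((ρ ^ x.2.2) t) u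

/-- The label of a pattern. -/
def gL (g : G) (e : G × ℕ) : List (G × ℕ × ℤ) → G
  | [] => e.1
  | x :: l => gL g e l * g ^ x.2.2 * x.1

/-- A space of roots of `T`. -/
structure GSp (T : II ≃o II) (k : ℕ) {R : Type} [MetricSpace R] (ι : R → II ≃o II) : Prop where
  pow : ∀ f, ι f ^ k = T
  cont : ∀ z : ℤ, Continuous fun p : R × II => (ι p.1 ^ z) p.2
  conj : ∀ f, ∀ ε > 0, ∃ δ > 0, ∀ ψ : II ≃o II, ψ * T = T * ψ → (∀ x, dist (ψ x) x ≤ δ) →
    ∃ f', ι f' = ψ * ι f * ψ⁻¹ ∧ dist f' f < ε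

theorem gen_pow (ρ : II ≃o II) (k : ℕ) (x : II) : (ρ ^ k) x = ρ^[k] x := by
  induction k generalizing x with
  | zero => rfl
  | succ k ih => rw [pow_succ, RelIso.mul_apply, ih, Function.iterate_succ_apply]

theorem gen_space (T : II ≃o II) {k : ℕ} (hk : 0 < k) :
    ∃ (R : Type) (_ : MetricSpace R) (_ : CompleteSpace R) (_ : Nonempty R) (ι : R → II ≃o II),
      GSp T k ι := by
  have it : ∀ j : ℕ, Continuous fun p : C(II, II) × II => p.1^[j] p.2 := fun j => by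
    induction j with
    | zero => exact continuous_snd
    | succ j ih =>
      simp only [Function.iterate_succ_apply']
      exact continuous_eval.comp (continuous_fst.prodMk ih)
  have hcl : IsClosed {f : C(II, II) | Monotone f ∧ ∀ x, f^[k] x = T x} := by
    refine IsClosed.inter (s₁ := {f : C(II, II) | Monotone f})
      (s₂ := {f : C(II, II) | ∀ x, f^[k] x = T x}) ?_ ?_
    · simp only [Monotone, ofPred_forall]
      exact isClosed_iInter fun a => isClosed_iInter fun b => isClosed_iInter fun _ =>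
        isClosed_le (continuous_eval_const a) (continuous_eval_const b)
    · simp only [ofPred_forall]
      exact isClosed_iInter fun x => isClosed_eq
        ((it k).comp (continuous_id.prodMk continuous_const)) continuous_const
  have hiso : ∀ f : {f : C(II, II) | Monotone f ∧ ∀ x, f^[k] x = T x},
      ∃ ρ : II ≃o II, ∀ x, ρ x = f.1 x := by
    rintro ⟨f, h1, h2⟩
    obtain ⟨j, rfl⟩ := Nat.exists_eq_succ_of_ne_zero hk.ne'
    have i1 : Function.Injective f := fun a b h => T.injective (by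
      rw [← h2, ← h2, Function.iterate_succ_apply, Function.iterate_succ_apply, h])
    have i2 : Function.Surjective f := fun y => ⟨f^[j] (T.symm y), by
      rw [← Function.iterate_succ_apply' f, h2, T.apply_symm_apply]⟩
    exact ⟨(h1.strictMono_of_injective i1).orderIsoOfSurjective f i2, fun _ => rfl⟩
  choose ι hι using hiso
  have hι' : ∀ f, ⇑(ι f) = ⇑f.1 := fun f => funext (hι f)
  have hmk : ∀ ρ : II ≃o II, ρ ^ k = T → ∃ f, ι f = ρ := fun ρ h =>
    ⟨⟨⟨ρ, ρ.continuous⟩, ρ.monotone, fun x => (gen_pow ρ k x).symm.trans (by rw [h])⟩,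
      RelIso.ext fun x => hι _ x⟩
  have hpow : ∀ f, ι f ^ k = T := fun f => RelIso.ext fun x => by
    rw [gen_pow, hι' f, f.2.2]
  have hnat : ∀ j : ℕ, Continuous fun p : {f : C(II, II) | Monotone f ∧ ∀ x, f^[k] x = T x} × II =>
      (ι p.1 ^ j) p.2 := fun j => by
    simp only [gen_pow, hι']
    exact (it j).comp ((continuous_subtype_val.comp continuous_fst).prodMk continuous_snd)
  obtain ⟨ρ0, h0⟩ := exists_root T hk
  obtain ⟨f0, -⟩ := hmk ρ0 h0
  refine ⟨{f : C(II, II) | Monotone f ∧ ∀ x, f^[k] x = T x}, inferInstance,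
    hcl.completeSpace_coe, ⟨f0⟩, ι, hpow, fun z => ?_, fun f ε hε => ?_⟩
  · have e : ∀ f, ι f ^ z = ι f ^ (z + k * |z|).toNat * T ^ (-|z|) := fun f => by
      have h1 : (1 : ℤ) ≤ k := by exact_mod_cast hk
      have h2 : 0 ≤ z + k * |z| := by nlinarith [neg_abs_le z, abs_nonneg z]
      rw [← hpow f, ← zpow_natCast, ← zpow_natCast, Int.toNat_of_nonneg h2, ← zpow_mul, ← zpow_add]
      congr 1
      ring
    simp only [e, RelIso.mul_apply]
    exact (hnat _).comp (continuous_fst.prodMk ((T ^ (-|z|)).continuous.comp continuous_snd))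
  · obtain ⟨δ, hδ, hu⟩ := Metric.uniformContinuous_iff.1
      (CompactSpace.uniformContinuous_of_continuous (ι f).continuous) (ε / 3) (by positivity)
    refine ⟨min (δ / 2) (ε / 3), by positivity, fun ψ hψ hc => ?_⟩
    obtain ⟨f', hf'⟩ := hmk (ψ * ι f * ψ⁻¹) (by rw [conj_pow, hpow, hψ, mul_inv_cancel_right])
    refine ⟨f', hf', ?_⟩
    refine lt_of_le_of_lt ((ContinuousMap.dist_le (C := 2 * (ε / 3)) (by positivity)).2
      fun x => ?_) (by linarith)
    rw [← hι, ← hι, hf', RelIso.mul_apply, RelIso.mul_apply]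
    have a1 := (hc (ι f (ψ⁻¹ x))).trans (min_le_right _ _)
    have a2 := (hc (ψ⁻¹ x)).trans (min_le_left _ _)
    rw [RelIso.apply_inv_self, dist_comm] at a2
    have a3 := hu (a2.trans_lt (half_lt_self hδ))
    have a4 := dist_triangle (ψ (ι f (ψ⁻¹ x))) (ι f (ψ⁻¹ x)) (ι f x)
    linarith

theorem gen_ni_mono {F F' : Set II} (h : NI F') (hs : F ⊆ F') : NI F := fun u v huv =>
  let ⟨s, h1, h2⟩ := h u v huv
  ⟨s, h1, fun h => h2 (hs h)⟩

theorem gen_ni_res {F : Set II} (hF : IsClosed F) (h : NI F) : ∀ᶠ s in residual II, s ∉ F := by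
  refine residual_of_dense_open hF.isOpen_compl (dense_iff_exists_between.2 fun a b hab => ?_)
  obtain ⟨u, u1, u2⟩ := exists_between hab
  obtain ⟨v, v1, v2⟩ := exists_between u2
  obtain ⟨s, h1, h2⟩ := h u v v1
  exact ⟨s, h2, u1.trans_le h1.1, h1.2.trans_lt v2⟩

theorem gen_ni_pre {F : Set II} (h : NI F) (φ : II ≃o II) : NI {s | φ s ∈ F} := fun u v huv => by
  obtain ⟨y, h1, h2⟩ := h _ _ (φ.strictMono huv)
  obtain ⟨s, rfl⟩ := φ.surjective y
  exact ⟨s, ⟨φ.le_iff_le.1 h1.1, φ.le_iff_le.1 h1.2⟩, h2⟩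

theorem gen_ni_one (t : II) : NI {t} := fun u v huv => by
  by_cases h : u = t
  · exact ⟨v, ⟨huv.le, le_rfl⟩, fun e => huv.ne (h.trans (Eq.symm e))⟩
  · exact ⟨u, ⟨le_rfl, huv.le⟩, h⟩

theorem gen_ex {X : Type} [TopologicalSpace X] {Q : X → II → Prop}
    (h : IsClosed {p : X × II | Q p.1 p.2}) : IsClosed {x | ∃ t, Q x t} := by
  have e : {x | ∃ t, Q x t} = Prod.fst '' {p : X × II | Q p.1 p.2} := by
    ext x
    simp
  rw [e]
  exact isClosedMap_fst_of_compactSpace _ h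

theorem gen_pull {W : II → II → Prop} (hW : IsClosed {p : II × II | W p.1 p.2})
    (hl : ∀ s u s' u', W s u → W s' u' → (s < s' ↔ u < u')) {F : Set II} (hF : IsClosed F)
    (h : NI F) : ∀ᶠ s in residual II, s ∉ {s | ∃ x, W s x ∧ x ∈ F} := by
  have fn : ∀ s x y, W s x → W s y → x = y := fun s x y hx hy =>
    le_antisymm (not_lt.1 fun h => lt_irrefl _ ((hl _ _ _ _ hy hx).2 h))
      (not_lt.1 fun h => lt_irrefl _ ((hl _ _ _ _ hx hy).2 h))
  refine gen_ni_res (gen_ex (hW.inter (hF.preimage continuous_snd))) fun u v huv => ?_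
  by_contra hc
  have hD : ∀ s ∈ Icc u v, ∃ x, W s x ∧ x ∈ F := fun s hs => by
    by_contra h'
    exact hc ⟨s, hs, h'⟩
  obtain ⟨a, ha, -⟩ := hD u ⟨le_rfl, huv.le⟩
  obtain ⟨b, hb, -⟩ := hD v ⟨huv.le, le_rfl⟩
  obtain ⟨y, hy, hy'⟩ := h a b ((hl _ _ _ _ ha hb).1 huv)
  obtain ⟨s, hs, ⟨x, x1, x2⟩, x', x3, x4⟩ := isPreconnected_closed_iff.1 isPreconnected_Icc
    {s | ∃ x, W s x ∧ x ≤ y} {s | ∃ x, W s x ∧ y ≤ x}
    (gen_ex (hW.inter (isClosed_Iic.preimage continuous_snd)))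
    (gen_ex (hW.inter (isClosed_Ici.preimage continuous_snd)))
    (fun s hs => by
      obtain ⟨x, hx, -⟩ := hD s hs
      exact (le_total x y).imp (fun h => ⟨x, hx, h⟩) fun h => ⟨x, hx, h⟩)
    ⟨u, ⟨le_rfl, huv.le⟩, a, ha, hy.1⟩ ⟨v, ⟨huv.le, le_rfl⟩, b, hb, hy.2⟩
  obtain ⟨z, z1, z2⟩ := hD s hs
  exact hy' (le_antisymm (fn _ _ _ x1 z1 ▸ x2) (fn _ _ _ x3 z1 ▸ x4) ▸ z2)

theorem gen_box {D : Set II} (hD : Dense D) {e : II} (h0 : 0 < e) (h1 : e < 1)
    {Q : II × II → Prop} (h : ∀ᶠ p in 𝓝 ((e, e) : II × II), Q p) :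
    ∃ α ∈ D, ∃ β ∈ D, α < e ∧ e < β ∧ Q (α, β) := by
  rw [nhds_prod_eq] at h
  obtain ⟨U, hU, V, hV, hUV⟩ := mem_prod_iff.1 h
  obtain ⟨l, r, a1, a2⟩ := (mem_nhds_iff_exists_Ioo_subset' ⟨0, h0⟩ ⟨1, h1⟩).1 (inter_mem hU hV)
  obtain ⟨α, hα, b1⟩ := hD.exists_between a1.1
  obtain ⟨β, hβ, b2⟩ := hD.exists_between a1.2
  exact ⟨α, hα, β, hβ, b1.2, b2.1, hUV ⟨(a2 ⟨b1.1, b1.2.trans a1.2⟩).1,
    (a2 ⟨a1.1.trans b2.1, b2.2⟩).2⟩⟩

theorem gen_open (T : II ≃o II) (α β : II) : IsOpen (satB T α β) := by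
  simp only [satB, ofPred_exists]
  exact isOpen_iUnion fun m => isOpen_Ioo.preimage (T ^ m).continuous

theorem gen_olt (hO : Grpd O) {b s t s' t'} (h : O b s t) (h' : O b s' t') : s < s' ↔ t < t' :=
  ⟨hO.mono _ _ _ _ _ h h', hO.mono _ _ _ _ _ (hO.inv _ _ _ h) (hO.inv _ _ _ h')⟩

theorem gen_conj {ρ ψ : II ≃o II} {P : Set II} (hψ : ∀ z, z ∉ P → ψ z = z) (i : ℤ) {t : II}
    (ht : t ∉ P) : ((ψ * ρ * ψ⁻¹) ^ i) t = ψ ((ρ ^ i) t) := by
  have e : ψ⁻¹ t = t := by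
    conv_lhs => rw [← hψ t ht]
    exact RelIso.inv_apply_self ψ t
  rw [conj_zpow, RelIso.mul_apply, RelIso.mul_apply, e]

section Pat

variable {K : G → ℕ → Set (II × II)} {ρ : II ≃o II} {P Q : Set II} {e : G × ℕ}
  {l : List (G × ℕ × ℤ)} {s u : II}

theorem gW_ch (hK : ∀ b s t, O b s t ↔ ∃ m, (s, t) ∈ K b m) (h : gW K ρ P e l s u) :
    Ch O g ρ P l.length (gL g e l) s u := by
  induction l generalizing s with
  | nil => exact (hK _ _ _).2 ⟨_, h⟩
  | cons x l ih =>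
    obtain ⟨t, h1, h2, h3, h4⟩ := h
    exact ⟨x.1, t, x.2.2, _, (hK _ _ _).2 ⟨_, h1⟩, h2, h3, ih h4, rfl⟩

theorem ch_gW (hK : ∀ b s t, O b s t ↔ ∃ m, (s, t) ∈ K b m) {n : ℕ} {γ : G}
    (h : Ch O g ρ P n γ s u) : ∃ e l, l.length = n ∧ gL g e l = γ ∧ gW K ρ P e l s u := by
  induction n generalizing γ s with
  | zero =>
    obtain ⟨m, hm⟩ := (hK _ _ _).1 h
    exact ⟨(γ, m), [], rfl, rfl, hm⟩
  | succ n ih =>
    obtain ⟨b, t, i, γ', h1, h2, h3, h4, rfl⟩ := h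
    obtain ⟨m, hm⟩ := (hK _ _ _).1 h1
    obtain ⟨e, l, rfl, rfl, h5⟩ := ih h4
    exact ⟨e, (b, m, i) :: l, rfl, rfl, t, hm, h2, h3, h5⟩

theorem gW_anti (hs : P ⊆ Q) (h : gW K ρ Q e l s u) : gW K ρ P e l s u := by
  induction l generalizing s with
  | nil => exact h
  | cons x l ih =>
    obtain ⟨t, h1, h2, h3, h4⟩ := h
    exact ⟨t, h1, fun h => h2 (hs h), fun h => h3 (hs h), ih h4⟩

theorem gW_lt (hO : Grpd O) (hK : ∀ b s t, O b s t ↔ ∃ m, (s, t) ∈ K b m) {s' u' : II}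
    (h : gW K ρ P e l s u) (h' : gW K ρ P e l s' u') : s < s' ↔ u < u' := by
  induction l generalizing s s' with
  | nil => exact gen_olt hO ((hK _ _ _).2 ⟨_, h⟩) ((hK _ _ _).2 ⟨_, h'⟩)
  | cons x l ih =>
    obtain ⟨t, h1, -, -, h4⟩ := h
    obtain ⟨t', h1', -, -, h4'⟩ := h'
    rw [gen_olt hO ((hK _ _ _).2 ⟨_, h1⟩) ((hK _ _ _).2 ⟨_, h1'⟩), ← ih h4 h4',
      OrderIso.lt_iff_lt]

theorem gW_conj {ψ : II ≃o II} (hψ : ∀ z, z ∉ P → ψ z = z) :
    gW K (ψ * ρ * ψ⁻¹) P e l s u ↔ gW K ρ P e l s u := by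
  induction l generalizing s with
  | nil => rfl
  | cons x l ih =>
    refine exists_congr fun t => and_congr_right fun _ => and_congr_right fun ht => ?_
    rw [gen_conj hψ _ ht]
    constructor
    · rintro ⟨h1, h2⟩
      have e := ψ.injective (hψ _ h1)
      rw [e] at h1 h2
      exact ⟨h1, ih.1 h2⟩
    · rintro ⟨h1, h2⟩
      rw [hψ _ h1]
      exact ⟨h1, ih.2 h2⟩

theorem gW_dich (hK : ∀ b s t, O b s t ↔ ∃ m, (s, t) ∈ K b m) (Q : Set II)
    (h : gW K ρ ∅ e l s u) : gW K ρ Q e l s u ∨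
      ∃ (n₁ n₂ : ℕ) (γ₁ γ₂ : G) (j : ℤ) (y : II), n₁ + n₂ + 1 = l.length ∧
        Ch O g ρ ∅ n₁ γ₁ s y ∧ Ch O g ρ ∅ n₂ γ₂ ((ρ ^ j) y) u ∧
        gL g e l = γ₂ * g ^ j * γ₁ ∧ (y ∈ Q ∨ (ρ ^ j) y ∈ Q) := by
  induction l generalizing s with
  | nil => exact Or.inl h
  | cons x l ih =>
    obtain ⟨t, h1, h2, h3, h4⟩ := h
    have o := (hK _ _ _).2 ⟨_, h1⟩
    by_cases hc : t ∈ Q ∨ (ρ ^ x.2.2) t ∈ Q
    · exact Or.inr ⟨0, l.length, x.1, _, x.2.2, t, by simp, o, gW_ch hK h4, rfl, hc⟩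
    · rcases ih h4 with h | ⟨n₁, n₂, γ₁, γ₂, j, y, a1, a2, a3, a4, a5⟩
      · exact Or.inl ⟨t, h1, fun h => hc (Or.inl h), fun h => hc (Or.inr h), h⟩
      · refine Or.inr ⟨n₁ + 1, n₂, γ₁ * g ^ x.2.2 * x.1, γ₂, j, y, by simp; omega,
          ⟨x.1, t, x.2.2, γ₁, o, h2, h3, a2, rfl⟩, a3, ?_, a5⟩
        rw [gL, a4]
        simp only [mul_assoc]

theorem gW_shrink {T : II ≃o II} {c : II} (hc : T c ≠ c) (h : gW K ρ (orb T c) e l s u) :
    ∀ᶠ p in 𝓝 ((c, c) : II × II), gW K ρ (satB T p.1 p.2) e l s u := by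
  induction l generalizing s with
  | nil => exact Eventually.of_forall fun _ => h
  | cons x l ih =>
    obtain ⟨t, h1, h2, h3, h4⟩ := h
    filter_upwards [orbit_away T hc h2, orbit_away T hc h3, ih h4] with p a1 a2 a3
    exact ⟨t, h1, a1, a2, a3⟩

variable {T : II ≃o II} {k : ℕ} {R : Type} [MetricSpace R] {ι : R → II ≃o II}

theorem gW_closed (S : GSp T k ι) (hC : ∀ b m, IsClosed (K b m)) (hP : IsOpen P) (e : G × ℕ)
    (l : List (G × ℕ × ℤ)) {X : Type} [TopologicalSpace X] {f : X → R} {a b : X → II}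
    (hf : Continuous f) (ha : Continuous a) (hb : Continuous b) :
    IsClosed {x | gW K (ι (f x)) P e l (a x) (b x)} := by
  induction l generalizing X with
  | nil => exact (hC _ _).preimage (ha.prodMk hb)
  | cons y l ih =>
    have c1 : Continuous fun p : X × II => (ι (f p.1) ^ y.2.2) p.2 :=
      (S.cont y.2.2).comp ((hf.comp continuous_fst).prodMk continuous_snd)
    exact gen_ex (((hC _ _).preimage ((ha.comp continuous_fst).prodMk continuous_snd)).inter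
      ((hP.isClosed_compl.preimage continuous_snd).inter ((hP.isClosed_compl.preimage c1).inter
        (ih (hf.comp continuous_fst) c1 (hb.comp continuous_fst)))))

theorem gen_resid [CompleteSpace R] (S : GSp T k ι) {Bad : Set R} (hB : IsClosed Bad)
    {Gd : R → Prop} (hG : ∀ᶠ f in residual R, Gd f)
    (h : ∀ f, Gd f → f ∈ Bad → ∀ δ > 0, ∃ ψ : II ≃o II, ψ * T = T * ψ ∧
      (∀ x, dist (ψ x) x ≤ δ) ∧ ∀ f', ι f' = ψ * ι f * ψ⁻¹ → f' ∉ Bad) :
    ∀ᶠ f in residual R, f ∉ Bad := by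
  refine residual_of_dense_open hB.isOpen_compl (Metric.dense_iff.2 fun x r hr => ?_)
  obtain ⟨f, f1, f2⟩ := Metric.dense_iff.1 (dense_of_mem_residual hG) x (r / 2) (half_pos hr)
  by_cases hf : f ∈ Bad
  · obtain ⟨δ, hδ, h1⟩ := S.conj f (r / 2) (half_pos hr)
    obtain ⟨ψ, a1, a2, a3⟩ := h f f2 hf δ hδ
    obtain ⟨f', b1, b2⟩ := h1 ψ a1 a2
    refine ⟨f', ?_, a3 f' b1⟩
    have := dist_triangle f' f x
    rw [Metric.mem_ball] at f1 ⊢
    linarith
  · exact ⟨f, Metric.ball_subset_ball (half_le_self hr.le) f1, hf⟩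

theorem gen_N [Countable G] [CompleteSpace R] (hG : Hyp G) (hO : Grpd O) (hg : g ≠ 1) (hk : 0 < k)
    (hT : ∀ s, s < 1 → O (g ^ k) s (T s)) (S : GSp T k ι) (hC : ∀ b m, IsClosed (K b m))
    (hK : ∀ b s t, O b s t ↔ ∃ m, (s, t) ∈ K b m) (n : ℕ) :
    ∀ᶠ f in residual R, ∀ e l, l.length = n → gL g e l ≠ 1 → NI {s | gW K (ι f) ∅ e l s s} := by
  induction n using Nat.strong_induction_on with
  | _ n ih =>
  obtain ⟨D, hDc, hD⟩ := TopologicalSpace.exists_countable_dense II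
  have := hDc.to_subtype
  refine eventually_countable_forall.2 fun e => eventually_countable_forall.2 fun l => ?_
  rcases l with _ | ⟨x, l⟩
  · exact Eventually.of_forall fun f _ hne =>
      gen_ni_mono (hO.nf _ hne) fun s hs => (hK _ _ _).2 ⟨_, hs⟩
  by_cases hn : (x :: l).length = n ∧ gL g e (x :: l) ≠ 1
  swap
  · exact Eventually.of_forall fun f h1 h2 => absurd ⟨h1, h2⟩ hn
  obtain ⟨rfl, hne⟩ := hn
  have ih' : ∀ᶠ f in residual R, ∀ m ≤ l.length, ∀ e l', l'.length = m → gL g e l' ≠ 1 →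
      NI {s | gW K (ι f) ∅ e l' s s} := eventually_countable_forall.2 fun m => by
    by_cases hm : m ≤ l.length
    · exact (ih m (Nat.lt_succ_of_le hm)).mono fun f h _ => h
    · exact Eventually.of_forall fun f h => absurd h hm
  have key : ∀ u v : II, u < v →
      ∀ᶠ f in residual R, f ∉ {f | ∀ s ∈ Icc u v, gW K (ι f) ∅ e (x :: l) s s} := fun u v huv => by
    refine gen_resid S ?_ ih' fun f hf hb δ hδ => ?_
    · simp only [ofPred_forall]
      exact isClosed_iInter fun s => isClosed_iInter fun _ =>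
        gW_closed S hC isOpen_empty _ _ continuous_id continuous_const continuous_const
    have gd : ∀ᶠ s in residual II, ∀ e1 l1 e2 l2, l2.length ≤ l.length → gL g e2 l2 ≠ 1 →
        s ∉ {s | ∃ y, gW K (ι f) ∅ e1 l1 s y ∧ y ∈ {y | gW K (ι f) ∅ e2 l2 y y}} := by
      refine eventually_countable_forall.2 fun e1 => eventually_countable_forall.2 fun l1 =>
        eventually_countable_forall.2 fun e2 => eventually_countable_forall.2 fun l2 => ?_
      by_cases h : l2.length ≤ l.length ∧ gL g e2 l2 ≠ 1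
      · exact (gen_pull (gW_closed S hC isOpen_empty e1 l1 continuous_const continuous_fst
          continuous_snd) (fun _ _ _ _ => gW_lt hO hK) (gW_closed S hC isOpen_empty e2 l2
          continuous_const continuous_id continuous_id) (hf _ h.1 e2 l2 rfl h.2)).mono
          fun s hs _ _ => hs
      · exact Eventually.of_forall fun s h1 h2 => absurd ⟨h1, h2⟩ h
    obtain ⟨s, hs, hs'⟩ := (dense_of_mem_residual gd).exists_between huv
    have hI : s ∈ Icc u v := ⟨hs'.1.le, hs'.2.le⟩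
    obtain ⟨t, h1, -, -, h4⟩ := hb s hI
    have o := (hK _ _ _).2 ⟨_, h1⟩
    obtain ⟨a1, a2, a3⟩ := short_loop hG hO hg hk (ρ := ι f) (by rw [S.pow]; exact hT)
      (fun s' δ n' c1 m hm a c2 => by
        obtain ⟨e1, l1, -, -, w1⟩ := ch_gW hK c1
        obtain ⟨e2, l2, rfl, rfl, w2⟩ := ch_gW hK c2
        by_contra hc
        exact hs e1 l1 e2 l2 hm hc ⟨s', w1, w2⟩) o (gW_ch hK h4) hne
    rw [S.pow] at a1 a2 a3
    obtain ⟨t0, t1, hbox⟩ := small_box T a1
    obtain ⟨α, -, β, -, b1, b2, b3, b4, b5⟩ := gen_box hD t0 t1 (hbox.and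
      ((orbit_away T a1 a2).and (gW_shrink a1 ((gW_dich hK _ h4).resolve_right a3))))
    obtain ⟨Ψ, p1, p2, p3, p4⟩ := pert T (b3 (b1.trans b2)) isClosed_singleton (gen_ni_one t)
      isClosed_singleton (gen_ni_one t) (singleton_subset_iff.2 ⟨b1, b2⟩) hδ
    refine ⟨Ψ, p1, p4, fun f' hf' hb' => p3 t rfl ?_⟩
    obtain ⟨t', c1, -, -, c4⟩ := hb' s hI
    have o' := (hK _ _ _).2 ⟨_, c1⟩
    have e1 : t' = t := le_antisymm (not_lt.1 fun h => lt_irrefl _ ((gen_olt hO o o').2 h))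
      (not_lt.1 fun h => lt_irrefl _ ((gen_olt hO o' o).2 h))
    rw [e1, hf'] at c4
    have c5 := gW_anti (empty_subset _) ((gW_conj p2).2 b5)
    have e2 := le_antisymm (not_lt.1 fun h => lt_irrefl _ ((gW_lt hO hK c5 c4).1 h))
      (not_lt.1 fun h => lt_irrefl _ ((gW_lt hO hK c4 c5).1 h))
    rw [conj_zpow, RelIso.mul_apply, RelIso.mul_apply] at e2
    have e3 := (ι f ^ x.2.2).injective (Ψ.injective (e2.trans (p2 _ b4).symm))
    exact (congrArg Ψ e3).symm.trans (RelIso.apply_inv_self Ψ t)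
  have all : ∀ᶠ f in residual R, ∀ u v : D, u.1 < v.1 →
      f ∉ {f | ∀ s ∈ Icc u.1 v.1, gW K (ι f) ∅ e (x :: l) s s} :=
    eventually_countable_forall.2 fun u => eventually_countable_forall.2 fun v => by
      by_cases h : u.1 < v.1
      · exact (key _ _ h).mono fun f h _ => h
      · exact Eventually.of_forall fun f h' => absurd h' h
  refine all.mono fun f hf _ _ u v huv => ?_
  obtain ⟨u', hu, u1⟩ := hD.exists_between huv
  obtain ⟨v', hv, v1⟩ := hD.exists_between u1.2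
  by_contra hc
  refine hf ⟨u', hu⟩ ⟨v', hv⟩ v1.1 fun s hs => ?_
  by_contra h'
  exact hc ⟨s, ⟨u1.1.le.trans hs.1, hs.2.trans v1.2.le⟩, h'⟩

theorem gen_star [CompleteSpace R] (S : GSp T k ι) (hC : ∀ b m, IsClosed (K b m))
    (hN : ∀ᶠ f in residual R, ∀ e l, gL g e l ≠ 1 → NI {s | gW K (ι f) ∅ e l s s})
    {α α' β' β : II} (hb : Box T α β) (h1 : α < α') (h2 : β' < β) (i : ℤ) {e1 e2 : G × ℕ}
    {l1 l2 : List (G × ℕ × ℤ)} (n1 : gL g e1 l1 ≠ 1) (n2 : gL g e2 l2 ≠ 1) :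
    ∀ᶠ f in residual R, f ∉ {f | ∃ c, c ∈ Icc α' β' ∧ gW K (ι f) (satB T α β) e1 l1 c c ∧
      (ι f ^ i) c ∉ satB T α β ∧
      gW K (ι f) (satB T α β) e2 l2 ((ι f ^ i) c) ((ι f ^ i) c)} := by
  have hP := gen_open T α β
  refine gen_resid S (gen_ex ((isClosed_Icc.preimage continuous_snd).inter
    ((gW_closed S hC hP e1 l1 continuous_fst continuous_snd continuous_snd).inter
      ((hP.isClosed_compl.preimage (S.cont i)).inter
        (gW_closed S hC hP e2 l2 continuous_fst (S.cont i) (S.cont i)))))) hN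
    fun f hf _ δ hδ => ?_
  obtain ⟨Ψ, p1, p2, p3, p4⟩ := pert T hb
    (A := {c | gW K (ι f) (satB T α β) e2 l2 ((ι f ^ i) c) ((ι f ^ i) c)})
    (B := {c | c ∈ Icc α' β' ∧ gW K (ι f) (satB T α β) e1 l1 c c})
    (gW_closed S hC hP e2 l2 continuous_const (ι f ^ i).continuous (ι f ^ i).continuous)
    (gen_ni_mono (gen_ni_pre (hf e2 l2 n2) (ι f ^ i)) fun c hc => gW_anti (empty_subset _) hc)
    (isClosed_Icc.inter (gW_closed S hC hP e1 l1 continuous_const continuous_id continuous_id))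
    (gen_ni_mono (hf e1 l1 n1) fun c hc => gW_anti (empty_subset _) hc.2)
    (fun c hc => ⟨h1.trans_le hc.1.1, hc.1.2.trans_lt h2⟩) hδ
  have q2 : ∀ z, z ∉ satB T α β → Ψ⁻¹ z = z := fun z hz => by
    conv_lhs => rw [← p2 z hz]
    exact RelIso.inv_apply_self Ψ z
  refine ⟨Ψ⁻¹, (Commute.inv_left p1).eq, fun x => ?_, ?_⟩
  · have := p4 (Ψ⁻¹ x)
    rwa [RelIso.apply_inv_self, dist_comm] at this
  · rintro f' hf' ⟨c, c1, c2, c3, c4⟩
    rw [hf'] at c2 c3 c4
    refine p3 c ⟨c1, (gW_conj q2).1 c2⟩ ?_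
    have c5 := (gW_conj q2).1 c4
    rw [conj_zpow, RelIso.mul_apply, RelIso.mul_apply, inv_inv] at c3 c5
    rwa [(Ψ⁻¹).injective (q2 _ c3)] at c5

end Pat

theorem generic [Countable G] (hG : Hyp G) (hO : Grpd O) (hg : g ≠ 1) {k : ℕ} (hk : 0 < k)
    (T : II ≃o II) (hT : ∀ s, s < 1 → O (g ^ k) s (T s)) :
    ∃ ρ : II ≃o II, ρ ^ k = T ∧
      (∀ s a b, Rel O g ρ a s s → Rel O g ρ b s s → a * b = b * a) ∧
      ∀ a, a ≠ 1 → NI {s | Rel O g ρ a s s} := by
  choose K hC hK using hO.sig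
  obtain ⟨R, _, _, _, ι, S⟩ := gen_space T hk
  obtain ⟨D, hDc, hD⟩ := TopologicalSpace.exists_countable_dense II
  have := hDc.to_subtype
  have hN : ∀ᶠ f in residual R, ∀ e l, gL g e l ≠ 1 → NI {s | gW K (ι f) ∅ e l s s} :=
    (eventually_countable_forall.2 (gen_N hG hO hg hk hT S hC hK)).mono
      fun f h e l => h _ e l rfl
  have hS : ∀ᶠ f in residual R, ∀ (q : D × D × D × D × ℤ)
      (π : (G × ℕ) × (G × ℕ) × List (G × ℕ × ℤ) × List (G × ℕ × ℤ)),
      (Box T q.1 q.2.2.2.1 ∧ q.1.1 < q.2.1 ∧ q.2.2.1.1 < q.2.2.2.1 ∧ gL g π.1 π.2.2.1 ≠ 1 ∧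
        gL g π.2.1 π.2.2.2 ≠ 1) → f ∉ {f | ∃ c, c ∈ Icc q.2.1.1 q.2.2.1.1 ∧
          gW K (ι f) (satB T q.1 q.2.2.2.1) π.1 π.2.2.1 c c ∧
          (ι f ^ q.2.2.2.2) c ∉ satB T q.1 q.2.2.2.1 ∧
          gW K (ι f) (satB T q.1 q.2.2.2.1) π.2.1 π.2.2.2 ((ι f ^ q.2.2.2.2) c)
            ((ι f ^ q.2.2.2.2) c)} :=
    eventually_countable_forall.2 fun q => eventually_countable_forall.2 fun π => by
      by_cases h : Box T q.1 q.2.2.2.1 ∧ q.1.1 < q.2.1 ∧ q.2.2.1.1 < q.2.2.2.1 ∧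
          gL g π.1 π.2.2.1 ≠ 1 ∧ gL g π.2.1 π.2.2.2 ≠ 1
      · exact (gen_star S hC hN h.1 h.2.1 h.2.2.1 _ h.2.2.2.1 h.2.2.2.2).mono fun f h _ => h
      · exact Eventually.of_forall fun f h' => absurd h' h
  obtain ⟨f, f1, f2⟩ := (dense_of_mem_residual (hN.and hS)).nonempty
  refine ⟨ι f, S.pow f, fun s a b => star_comm hG hO hg hk (by rw [S.pow]; exact hT) ?_,
    fun a ha u v huv => ?_⟩
  · rw [S.pow]
    intro c i h1 h2 n a n' a' c1 c2
    obtain ⟨e1, l1, -, rfl, w1⟩ := ch_gW hK c1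
    obtain ⟨e2, l2, -, rfl, w2⟩ := ch_gW hK c2
    by_contra hc
    obtain ⟨t0, t1, hbox⟩ := small_box T h1
    obtain ⟨α, hα, β, hβ, b1, b2, b3, b4, b5, b6⟩ := gen_box hD t0 t1 (hbox.and
      ((orbit_away T h1 h2).and ((gW_shrink h1 w1).and (gW_shrink h1 w2))))
    obtain ⟨α', hα', d1⟩ := hD.exists_between b1
    obtain ⟨β', hβ', d2⟩ := hD.exists_between b2
    exact f2 (⟨α, hα⟩, ⟨α', hα'⟩, ⟨β', hβ'⟩, ⟨β, hβ⟩, i) (e1, e2, l1, l2)
      ⟨b3 (b1.trans b2), d1.1, d2.2, fun h => hc (Or.inl h), fun h => hc (Or.inr h)⟩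
      ⟨c, ⟨d1.2.le, d2.1.le⟩, b5, b4, b6⟩
  · have gd : ∀ᶠ s in residual II, ∀ e l, gL g e l = a → s ∉ {s | gW K (ι f) ∅ e l s s} :=
      eventually_countable_forall.2 fun e => eventually_countable_forall.2 fun l => by
        by_cases h : gL g e l = a
        · exact (gen_ni_res (gW_closed S hC isOpen_empty e l continuous_const continuous_id
            continuous_id) (f1 e l (h ▸ ha))).mono fun s hs _ => hs
        · exact Eventually.of_forall fun s h' => absurd h' h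
    obtain ⟨s, hs, hs'⟩ := (dense_of_mem_residual gd).exists_between huv
    refine ⟨s, ⟨hs'.1.le, hs'.2.le⟩, fun h => ?_⟩
    obtain ⟨n, hn⟩ := (rel_iff hO).1 h
    obtain ⟨e, l, -, h1, h2⟩ := ch_gW hK hn
    exact hs e l h1 h2

end Pool.Agent.Work.MP_3d425c_gt.Cy
end

-- merged part: Pool.Agent.Work.MP_3d425c_gt.Cy.U2
section
/-! Basic lemmas on oriented simply connected one-manifolds. -/

namespace Pool.Agent.Work.MP_3d425c_gt.Cy
open Set Filter Topology

variable {G X : Type*} [Group G] [MulAction G X] {C : Set (ℝ → X)} {up : X → X → Prop}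

namespace OM
variable (h : OM G C up)
include h

theorem upc {c} (hc : c ∈ C) (s t : ℝ) : up (c s) (c t) ↔ s < t := h.good.upc c hc s t

theorem upk {c} (hc : c ∈ C) {x} (hx : ∀ t, x ≠ c t) (s t : ℝ) : up x (c s) → up x (c t) :=
  h.good.upk c hc x hx s t

theorem opn {c d} (hc : c ∈ C) (hd : d ∈ C) : IsOpen {u | ∃ v, c u = d v} :=
  h.good.opn c hc d hd

theorem inj {c} (hc : c ∈ C) {s t : ℝ} (e : c s = c t) : s = t := by
  rcases lt_trichotomy s t with hl | hl | hl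
  · have h1 := (h.upc hc s t).2 hl
    rw [e] at h1
    exact absurd ((h.upc hc t t).1 h1) (lt_irrefl _)
  · exact hl
  · have h1 := (h.upc hc t s).2 hl
    rw [e] at h1
    exact absurd ((h.upc hc t t).1 h1) (lt_irrefl _)

theorem irr (x : X) : ¬ up x x := by
  obtain ⟨c, hc, t, rfl⟩ := h.pre.cover x
  intro h1
  exact lt_irrefl _ ((h.upc hc t t).1 h1)

theorem ups_iff (g : G) (x y : X) : up (g • x) (g • y) ↔ up x y := by
  refine ⟨fun h1 => ?_, h.good.ups g x y⟩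
  have h2 := h.good.ups g⁻¹ _ _ h1
  simpa using h2

theorem mono {c} (hc : c ∈ C) {w} {s t : ℝ} (hst : s ≤ t) (hw : up w (c s)) : up w (c t) := by
  by_cases hw' : ∃ r, w = c r
  · obtain ⟨r, rfl⟩ := hw'
    exact (h.upc hc r t).2 (lt_of_lt_of_le ((h.upc hc r s).1 hw) hst)
  · exact h.upk hc (fun r hr => hw' ⟨r, hr⟩) s t hw

/-- Overlaps are convex. -/
theorem conv {c d} (hc : c ∈ C) (hd : d ∈ C) {u u' w v v' : ℝ} (e : c u = d v)
    (e' : c u' = d v') (h1 : u ≤ w) (h2 : w ≤ u') : ∃ z, v ≤ z ∧ z ≤ v' ∧ c w = d z := by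
  have hvv : v ≤ v' := by
    rcases (h1.trans h2).eq_or_lt with huu | huu
    · subst huu
      exact (h.inj hd (e.symm.trans e')).le
    · have h3 := (h.upc hc u u').2 huu
      rw [e, e'] at h3
      exact ((h.upc hd v v').1 h3).le
  rcases h1.eq_or_lt with h1 | h1
  · subst h1
    exact ⟨v, le_rfl, hvv, e⟩
  rcases h2.eq_or_lt with h2 | h2
  · subst h2
    exact ⟨v', hvv, le_rfl, e'⟩
  have a1 := (h.upc hc u w).2 h1
  have a2 := (h.upc hc w u').2 h2
  by_cases hz : ∃ z, c w = d z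
  · obtain ⟨z, hz⟩ := hz
    rw [e, hz] at a1
    rw [e', hz] at a2
    exact ⟨z, ((h.upc hd v z).1 a1).le, ((h.upc hd z v').1 a2).le, hz⟩
  · exfalso
    rw [e'] at a2
    have a3 := h.upk hd (fun r hr => hz ⟨r, hr⟩) v' v a2
    rw [← e] at a3
    exact lt_asymm h1 ((h.upc hc w u).1 a3)

theorem near {c d} (hc : c ∈ C) (hd : d ∈ C) {u v : ℝ} (e : c u = d v) {N : Set ℝ}
    (hN : N ∈ 𝓝 v) : ∀ᶠ u' in 𝓝 u, ∃ v' ∈ N, c u' = d v' := by
  have ho : {v | ∃ u, d v = c u} ∈ 𝓝 v := (h.opn hd hc).mem_nhds ⟨u, e.symm⟩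
  obtain ⟨ε, hε, hb⟩ := Metric.mem_nhds_iff.1 (inter_mem hN ho)
  have hin : ∀ z, v - ε / 2 ≤ z → z ≤ v + ε / 2 → z ∈ N ∩ {v | ∃ u, d v = c u} := by
    intro z hz1 hz2
    apply hb
    rw [Metric.mem_ball, Real.dist_eq, abs_lt]
    constructor <;> linarith
  obtain ⟨u1, e1⟩ := (hin (v - ε / 2) le_rfl (by linarith)).2
  obtain ⟨u2, e2⟩ := (hin (v + ε / 2) (by linarith) le_rfl).2
  have l1 : u1 < u := by
    have a := (h.upc hd (v - ε / 2) v).2 (by linarith)
    rw [e1, ← e] at a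
    exact (h.upc hc u1 u).1 a
  have l2 : u < u2 := by
    have a := (h.upc hd v (v + ε / 2)).2 (by linarith)
    rw [e2, ← e] at a
    exact (h.upc hc u u2).1 a
  filter_upwards [Ioo_mem_nhds l1 l2] with w hw
  obtain ⟨z, hz1, hz2, hz⟩ := h.conv hc hd e1.symm e2.symm hw.1.le hw.2.le
  exact ⟨z, (hin z hz1 hz2).1, hz⟩

theorem reparam {c} (hc : c ∈ C) {f : ℝ → ℝ} (hf : StrictMono f) (hf' : Continuous f) :
    (fun t => c (f t)) ∈ C := by
  apply h.sat
  intro t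
  exact ⟨c, hc, f, 1, one_pos, hf.strictMonoOn _, hf'.continuousOn, fun _ _ => rfl⟩

theorem shrink {c} (hc : c ∈ C) {u : ℝ} {N : Set ℝ} (hN : N ∈ 𝓝 u) :
    ∃ f : ℝ → ℝ, StrictMono f ∧ Continuous f ∧ f 0 = u ∧ ∀ t, f t ∈ N := by
  obtain ⟨ε, hε, hb⟩ := Metric.mem_nhds_iff.1 hN
  refine ⟨fun t => u + ε / 2 * Real.arctan t, ?_, ?_, by simp, ?_⟩
  · intro s t hst
    have := Real.arctan_strictMono hst
    have h2 : 0 < ε / 2 := by linarith
    show u + ε / 2 * Real.arctan s < u + ε / 2 * Real.arctan t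
    nlinarith
  · exact continuous_const.add (continuous_const.mul Real.continuous_arctan)
  · intro t
    apply hb
    have a1 := Real.arctan_lt_pi_div_two t
    have a2 := Real.neg_pi_div_two_lt_arctan t
    have a3 := Real.pi_le_four
    rw [Metric.mem_ball, Real.dist_eq, abs_lt]
    constructor <;> nlinarith

/-- Separation: if `x` is outside the closed upper side of `n` and `y` is inside, then `x`
sees `y` and `n` on the same side. Hint: the set of bad `y` is closed along charts (`conn`). -/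
theorem sep {x y n : X} (h1 : ¬ up n x) (h2 : x ≠ n) (hy : up n y ∨ y = n) :
    up x y ↔ up x n := by
  refine h.pre.conn (fun y => (up n y ∨ y = n) → (up x y ↔ up x n)) ?_ n y
    (fun _ => Iff.rfl) hy
  intro c hc s t hs ht
  by_cases hn : ∃ r, n = c r
  · obtain ⟨r, rfl⟩ := hn
    have hrt : r ≤ t := by
      rcases ht with ht | ht
      · exact ((h.upc hc r t).1 ht).le
      · exact (h.inj hc ht).ge
    by_cases hx : ∃ q, x = c q
    · obtain ⟨q, rfl⟩ := hx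
      have hq : q < r := by
        rcases lt_trichotomy q r with a | a | a
        · exact a
        · exact absurd (congrArg c a) h2
        · exact absurd ((h.upc hc r q).2 a) h1
      exact iff_of_true ((h.upc hc q t).2 (lt_of_lt_of_le hq hrt)) ((h.upc hc q r).2 hq)
    · have hx' : ∀ q, x ≠ c q := fun q hq => hx ⟨q, hq⟩
      exact ⟨h.upk hc hx' t r, h.upk hc hx' r t⟩
  · have hn' : ∀ q, n ≠ c q := fun q hq => hn ⟨q, hq⟩
    have ht' : up n (c t) := ht.resolve_right (fun a => hn' t a.symm)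
    have hx' : ∀ q, x ≠ c q := by
      rintro q rfl
      exact h1 (h.upk hc hn' t q ht')
    have := hs (Or.inl (h.upk hc hn' t s ht'))
    exact ⟨fun a => this.1 (h.upk hc hx' t s a), fun a => h.upk hc hx' s t (this.2 a)⟩

/-- The dual separation lemma. -/
theorem sep' {x y n : X} (h1 : up n x) (hy : ¬ up n y) : up x y ↔ up x n := by
  refine h.pre.conn (fun y => ¬ up n y → (up x y ↔ up x n)) ?_ n y (fun _ => Iff.rfl) hy
  intro c hc s t hs ht
  by_cases hn : ∃ r, n = c r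
  · obtain ⟨r, rfl⟩ := hn
    have hrt : t ≤ r := le_of_not_gt (fun a => ht ((h.upc hc r t).2 a))
    by_cases hx : ∃ q, x = c q
    · obtain ⟨q, rfl⟩ := hx
      have hq : r < q := (h.upc hc r q).1 h1
      refine iff_of_false (fun a => ?_) (fun a => ?_)
      · have := (h.upc hc q t).1 a
        linarith
      · have := (h.upc hc q r).1 a
        linarith
    · have hx' : ∀ q, x ≠ c q := fun q hq => hx ⟨q, hq⟩
      exact ⟨h.upk hc hx' t r, h.upk hc hx' r t⟩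
  · have hn' : ∀ q, n ≠ c q := fun q hq => hn ⟨q, hq⟩
    have hx' : ∀ q, x ≠ c q := by
      rintro q rfl
      exact ht (h.upk hc hn' q t h1)
    have := hs (fun a => ht (h.upk hc hn' s t a))
    exact ⟨fun a => this.1 (h.upk hc hx' t s a), fun a => h.upk hc hx' s t (this.2 a)⟩

theorem sub {x y z : X} (h1 : up x y) (h2 : ¬ up y x) (h3 : up y z) : up x z := by
  have hne : x ≠ y := by
    rintro rfl
    exact h2 h1
  exact (h.sep h2 hne (Or.inl h3)).2 h1

theorem disj {x y z : X} (h1 : ¬ up x y) (h2 : ¬ up y x) (hne : x ≠ y) (hx : up x z ∨ z = x)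
    (hy : up y z ∨ z = y) : False := by
  have a := h.sep h2 hne hy
  rcases hx with hx | hx
  · exact h1 (a.1 hx)
  · subst hx
    rcases hy with hy | hy
    · exact h2 hy
    · exact hne hy

theorem asc {x y : X} (hxy : Relation.TransGen (Asc C) x y) : up x y ∧ ¬ up y x := by
  have one : ∀ a b, Asc C a b → up a b ∧ ¬ up b a := by
    rintro a b ⟨c, hc, s, t, hst, rfl, rfl⟩
    exact ⟨(h.upc hc s t).2 hst, fun a => lt_asymm hst ((h.upc hc t s).1 a)⟩
  induction hxy with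
  | single a => exact one _ _ a
  | tail _ a ih =>
    have b := one _ _ a
    exact ⟨h.sub ih.1 ih.2 b.1, fun c => ih.2 (h.sub b.1 b.2 c)⟩

end OM

end Pool.Agent.Work.MP_3d425c_gt.Cy

/-! Basic lemmas on oriented simply connected one-manifolds. -/

namespace Pool.Agent.Work.MP_3d425c_gt.Cy
open Set Filter Topology

variable {G X : Type*} [Group G] [MulAction G X] {C : Set (ℝ → X)} {up : X → X → Prop}

namespace OM
variable (h : OM G C up)
include h

theorem objB_shift {c} (hc : c ∈ C) (t : ℝ) : (fun u => c (t + u)) ∈ C :=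
  h.reparam hc (f := fun u => t + u) (fun _ _ e => by linarith) (continuous_const.add continuous_id)

/-- General splice. -/
theorem splice {c e} (hc : c ∈ C) (he : e ∈ C)
    (h1 : ∃ ε > 0, ∀ u ∈ Ioo (-ε) (0 : ℝ), ∃ w < 0, c u = e w)
    (h2 : ∀ w < (0 : ℝ), ∃ u < 0, ∃ w', w < w' ∧ c u = e w') :
    (fun u => if u < 0 then c u else e u) ∈ C := by
  classical
  obtain ⟨ε, hε, h1⟩ := h1
  choose! φ hφ0 hφ using h1
  have hm : ∀ u ∈ Ioo (-ε) (0 : ℝ), ∀ u' w', u' < u → c u' = e w' → w' < φ u := by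
    intro u hu u' w' huu hw
    have a := (h.upc hc u' u).2 huu
    rw [hw, hφ u hu] at a
    exact (h.upc he _ _).1 a
  refine h.sat _ fun t => ?_
  rcases lt_trichotomy t 0 with ht | rfl | ht
  · refine ⟨c, hc, id, -t, by linarith, strictMonoOn_id, continuousOn_id, fun u hu => ?_⟩
    exact if_pos (by linarith [hu.2])
  · refine ⟨e, he, fun u => if u < 0 then φ u else u, ε, hε, ?_, ?_, ?_⟩
    · intro u hu u' hu' huu
      rw [zero_sub, zero_add] at hu hu'
      by_cases a : u < 0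
      · by_cases a' : u' < 0
        · simp only [if_pos a, if_pos a']
          exact hm u' ⟨hu'.1, a'⟩ u _ huu (hφ u ⟨hu.1, a⟩)
        · simp only [if_pos a, if_neg a']
          exact (hφ0 u ⟨hu.1, a⟩).trans_le (not_lt.1 a')
      · have a' : ¬ u' < 0 := fun a' => a (huu.trans a')
        simp only [if_neg a, if_neg a']
        exact huu
    · intro u hu
      rw [zero_sub, zero_add] at hu
      refine ContinuousAt.continuousWithinAt ?_
      rcases lt_trichotomy u 0 with a | rfl | a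
      · intro N hN
        simp only [if_pos a] at hN
        have b := h.near hc he (hφ u ⟨hu.1, a⟩) hN
        rw [mem_map]
        filter_upwards [b, Ioo_mem_nhds hu.1 a] with u' b1 b2
        obtain ⟨v', b3, b4⟩ := b1
        have b5 : φ u' = v' := h.inj he ((hφ u' b2).symm.trans b4)
        simp only [mem_preimage, if_pos b2.2, b5]
        exact b3
      · intro N hN
        simp only [lt_irrefl, if_false] at hN
        obtain ⟨l, r, ⟨b1, b2⟩, b3⟩ := mem_nhds_iff_exists_Ioo_subset.1 hN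
        obtain ⟨u0, b4, w', b5, b6⟩ := h2 l b1
        rw [mem_map]
        filter_upwards [Ioo_mem_nhds (max_lt b4 hu.1) b2] with u' b7
        refine b3 ?_
        by_cases a : u' < 0
        · have b8 : u' ∈ Ioo (-ε) (0 : ℝ) := ⟨(le_max_right _ _).trans_lt b7.1, a⟩
          simp only [if_pos a]
          exact ⟨b5.trans (hm u' b8 u0 w' ((le_max_left _ _).trans_lt b7.1) b6),
            (hφ0 u' b8).trans b2⟩
        · simp only [if_neg a]
          exact ⟨b1.trans_le (not_lt.1 a), b7.2⟩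
      · refine continuousAt_id.congr ?_
        filter_upwards [Ioi_mem_nhds a] with u' b
        exact (if_neg (not_lt.2 (le_of_lt b))).symm
    · intro u hu
      rw [zero_sub, zero_add] at hu
      by_cases a : u < 0
      · simp only [if_pos a]
        exact hφ u ⟨hu.1, a⟩
      · simp only [if_neg a]
  · refine ⟨e, he, id, t, ht, strictMonoOn_id, continuousOn_id, fun u hu => ?_⟩
    exact if_neg (not_lt.2 (by linarith [hu.1]))

theorem lg_refl (x : X) : LG C x x := by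
  obtain ⟨c, hc, t, rfl⟩ := h.pre.cover x
  have a := h.objB_shift hc t
  exact ⟨_, a, _, a, by simp only [add_zero], by simp only [add_zero], fun _ _ => rfl⟩

omit h in
theorem lg_symm {x y : X} (hxy : LG C x y) : LG C y x := by
  obtain ⟨c, hc, d, hd, h1, h2, h3⟩ := hxy
  exact ⟨d, hd, c, hc, h2, h1, fun u hu => (h3 u hu).symm⟩

theorem lg_smul (g : G) {x y : X} (hxy : LG C x y) : LG C (g • x) (g • y) := by
  obtain ⟨c, hc, d, hd, h1, h2, h3⟩ := hxy
  exact ⟨_, h.pre.smul g c hc, _, h.pre.smul g d hd, congrArg (g • ·) h1, congrArg (g • ·) h2,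
    fun u hu => congrArg (g • ·) (h3 u hu)⟩

theorem lg_near {c d} (hc : c ∈ C) (hd : d ∈ C) {u v : ℝ} (e : LG C (c u) (d v)) {N : Set ℝ}
    (hN : N ∈ 𝓝 v) : ∀ᶠ u' in 𝓝[<] u, ∃ v' ∈ N, v' < v ∧ c u' = d v' := by
  obtain ⟨c1, hc1, d1, hd1, h1, h2, h3⟩ := e
  have a := h.near hc hc1 h1.symm (h.near hd1 hd h2 hN)
  filter_upwards [nhdsWithin_le_nhds a, self_mem_nhdsWithin] with u' b1 b2
  obtain ⟨s, ⟨v', b3, b4⟩, b5⟩ := b1
  have b6 : s < 0 := by
    have := (h.upc hc u' u).2 b2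
    rw [b5, ← h1] at this
    exact (h.upc hc1 _ _).1 this
  refine ⟨v', b3, ?_, b5.trans ((h3 s b6).trans b4)⟩
  have := (h.upc hd1 s 0).2 b6
  rw [b4, h2] at this
  exact (h.upc hd _ _).1 this

theorem lg_splice {c d} (hc : c ∈ C) (hd : d ∈ C) {s t : ℝ} (e : LG C (c s) (d t)) :
    ∃ a ∈ C, (∀ u < 0, a u = c (s + u)) ∧ ∀ u ≥ 0, a u = d (t + u) := by
  refine ⟨_, h.splice (h.objB_shift hc s) (h.objB_shift hd t) ?_ ?_, fun u hu => if_pos hu,
    fun u hu => if_neg (not_lt.2 hu)⟩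
  · obtain ⟨l, a1, a2⟩ := mem_nhdsLT_iff_exists_Ioo_subset.1 (h.lg_near hc hd e univ_mem)
    have a3 : l < s := a1
    refine ⟨s - l, by linarith, fun u hu => ?_⟩
    obtain ⟨v', -, b1, b2⟩ := a2 (show s + u ∈ Ioo l s from ⟨by linarith [hu.1], by linarith [hu.2]⟩)
    exact ⟨v' - t, by linarith, by rw [b2, add_sub_cancel]⟩
  · intro w hw
    obtain ⟨u', ⟨v', b1, -, b2⟩, b3⟩ := ((h.lg_near hc hd e
      (Ioi_mem_nhds (show t + w < t by linarith))).and self_mem_nhdsWithin).exists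
    have b4 : t + w < v' := b1
    have b5 : u' < s := b3
    exact ⟨u' - s, by linarith, v' - t, by linarith, by rw [add_sub_cancel, add_sub_cancel, b2]⟩

theorem lg_trans {x y z : X} (hxy : LG C x y) (hyz : LG C y z) : LG C x z := by
  obtain ⟨c, hc, d, hd, h1, h2, h3⟩ := hxy
  obtain ⟨d', hd', t, rfl⟩ := h.pre.cover z
  obtain ⟨a, ha, a1, a2⟩ := h.lg_splice hd hd' (h2 ▸ hyz)
  refine ⟨c, hc, a, ha, h1, by rw [a2 0 le_rfl, add_zero], fun u hu => ?_⟩
  rw [a1 u hu, zero_add, h3 u hu]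

theorem lg_not_up {x y : X} (hxy : LG C x y) : ¬ up x y := by
  obtain ⟨c, hc, d, hd, rfl, rfl, h3⟩ := hxy
  intro hu
  by_cases a : ∃ t, c 0 = d t
  · obtain ⟨t, ht⟩ := a
    have b : t < 0 := (h.upc hd _ _).1 (ht ▸ hu)
    exact b.ne' (h.inj hc (ht.trans (h3 t b).symm))
  · have b := h.upk hd (fun t e => a ⟨t, e⟩) 0 (-1) hu
    rw [← h3 (-1) (by norm_num)] at b
    linarith [(h.upc hc _ _).1 b]

theorem lg_up {x y w : X} (hxy : LG C x y) (hw : up w x) : up w y := by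
  obtain ⟨c, hc, d, hd, rfl, rfl, h3⟩ := hxy
  by_cases a : ∃ t, w = c t
  · obtain ⟨t, rfl⟩ := a
    have b : t < 0 := (h.upc hc _ _).1 hw
    rw [h3 t b]
    exact (h.upc hd _ _).2 b
  · have b := h.upk hc (fun t e => a ⟨t, e⟩) 0 (-1) hw
    rw [h3 (-1) (by norm_num)] at b
    exact h.mono hd (by norm_num) b

/-- Cut lemma. Hint: the set of `z` above every `c t` with `t < v` and outside the closed upper
side of every point not separated from `c v` is closed along charts. -/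
theorem cut {c} (hc : c ∈ C) {v : ℝ} {x : X} (hx : ∀ t < v, up (c t) x) :
    ∃ μ, LG C μ (c v) ∧ (up μ x ∨ x = μ) := by
  by_contra hn
  have key := h.pre.conn (fun z => (∀ t < v, up (c t) z) ∧
      ¬ ∃ μ, LG C μ (c v) ∧ (up μ z ∨ z = μ)) (fun d hd s s' hP => ?_) x (c (v - 1)) ⟨hx, hn⟩
  · exact h.irr _ (key.1 (v - 1) (by linarith))
  obtain ⟨p1, p2⟩ := hP
  by_cases a : ∃ t0 < v, ∃ r0, c t0 = d r0
  · exfalso
    obtain ⟨t0, a1, r0, a2⟩ := a
    have b : ∀ t ∈ Ico t0 v, ∃ r, c t = d r := by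
      intro t ht
      by_contra hr
      have b1 := h.upk hd (fun r e => hr ⟨r, e⟩) s r0 (p1 t ht.2)
      rw [← a2] at b1
      exact ht.1.not_gt ((h.upc hc _ _).1 b1)
    choose! φ hφ using b
    have b2 : ∀ t ∈ Ico t0 v, φ t ≤ s := fun t ht =>
      ((h.upc hd _ _).1 (hφ t ht ▸ p1 t ht.2)).le
    have b3 : BddAbove (φ '' Ico t0 v) := ⟨s, forall_mem_image.2 b2⟩
    have b4 : (φ '' Ico t0 v).Nonempty := ⟨_, t0, ⟨le_rfl, a1⟩, rfl⟩
    have b5 : sSup (φ '' Ico t0 v) ≤ s := csSup_le b4 (forall_mem_image.2 b2)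
    have b6 := h.splice (h.objB_shift hc v) (h.objB_shift hd (sSup (φ '' Ico t0 v)))
      ⟨v - t0, by linarith, fun u hu => by
        have c1 : v + u ∈ Ico t0 v := ⟨by linarith [hu.1], by linarith [hu.2]⟩
        have c2 : v + u / 2 ∈ Ico t0 v := ⟨by linarith [hu.1, hu.2], by linarith [hu.2]⟩
        have c3 := (h.upc hc (v + u) (v + u / 2)).2 (by linarith [hu.2])
        rw [hφ _ c1, hφ _ c2] at c3
        have c4 := (h.upc hd _ _).1 c3
        have c5 := le_csSup b3 ⟨_, c2, rfl⟩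
        exact ⟨φ (v + u) - sSup (φ '' Ico t0 v), by linarith, by rw [add_sub_cancel, hφ _ c1]⟩⟩
      fun w hw => by
        obtain ⟨_, ⟨t, c1, rfl⟩, c2⟩ := exists_lt_of_lt_csSup b4
          (show sSup (φ '' Ico t0 v) + w < sSup (φ '' Ico t0 v) by linarith)
        exact ⟨t - v, by linarith [c1.2], φ t - sSup (φ '' Ico t0 v), by linarith,
          by rw [add_sub_cancel, add_sub_cancel, hφ t c1]⟩
    refine p2 ⟨d (sSup (φ '' Ico t0 v)), ⟨_, b6, _, h.objB_shift hc v, ?_, ?_,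
      fun u hu => if_pos hu⟩, ?_⟩
    · simp only [lt_irrefl, if_false, add_zero]
    · simp only [add_zero]
    · rcases b5.eq_or_lt with e | e
      · exact .inr (by rw [e])
      · exact .inl ((h.upc hd _ _).2 e)
  · refine ⟨fun t ht => h.upk hd (fun r e => a ⟨t, ht, r, e⟩) s s' (p1 t ht), ?_⟩
    rintro ⟨μ, b1, b2⟩
    have b3 : ∀ r, μ ≠ d r := by
      rintro r rfl
      obtain ⟨u', v', -, c1, c2⟩ := (h.lg_near hd hc b1 univ_mem).exists
      exact a ⟨v', c1, u', c2.symm⟩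
    rcases b2 with b2 | b2
    · exact p2 ⟨μ, b1, .inl (h.upk hd b3 s' s b2)⟩
    · exact b3 s' b2.symm

end OM

end Pool.Agent.Work.MP_3d425c_gt.Cy

/-! Basic lemmas on oriented simply connected one-manifolds. -/

namespace Pool.Agent.Work.MP_3d425c_gt.Cy
open Set Filter Topology

variable {G X : Type*} [Group G] [MulAction G X] {C : Set (ℝ → X)} {up : X → X → Prop}

theorem oc_neg {c : ℝ → X} (hc : c ∈ C) : (fun t => c (-t)) ∈ dualC C := by
  show (fun t => c (- -t)) ∈ C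
  simpa only [neg_neg] using hc

theorem oc_flip {D : Set (ℝ → X)} {r : X → X → Prop} (hD : ∀ c ∈ C, (fun t => c (-t)) ∈ D)
    (h : Good G D r up) : Good G C r (fun x y => ¬ up x y ∧ ¬ r x y) where
  eqv := h.eqv
  rsm := h.rsm
  opn c hc d hd := by
    have e : {u | ∃ v, r (c u) (d v)} = Neg.neg ⁻¹' {u | ∃ v, r (c (-u)) (d (-v))} := by
      ext u
      refine ⟨fun ⟨v, k⟩ => ⟨-v, ?_⟩, fun ⟨v, k⟩ => ⟨-v, ?_⟩⟩
      · rwa [neg_neg, neg_neg]
      · rwa [neg_neg] at k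
    rw [e]
    exact (h.opn _ (hD c hc) _ (hD d hd)).preimage continuous_neg
  upl x x' y k q := ⟨fun a => q.1 (h.upl _ _ _ (h.eqv.symm k) a), fun a => q.2 (h.eqv.trans k a)⟩
  upr x y y' k q :=
    ⟨fun a => q.1 (h.upr _ _ _ (h.eqv.symm k) a), fun a => q.2 (h.eqv.trans a (h.eqv.symm k))⟩
  upc c hc s t := by
    have k : ∀ s t, up (c s) (c t) ↔ t < s := fun s t => by
      have := h.upc _ (hD c hc) (-s) (-t)
      simpa only [neg_neg, neg_lt_neg_iff] using this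
    refine ⟨fun q => ?_, fun q => ⟨fun a => lt_asymm q ((k s t).1 a), fun a => ?_⟩⟩
    · refine lt_of_le_of_ne (not_lt.1 fun a => q.1 ((k s t).2 a)) ?_
      rintro rfl
      exact q.2 (h.eqv.refl _)
    · exact lt_irrefl t ((k t t).1 (h.upr _ _ _ a ((k t s).2 q)))
  upk c hc x hx s t q := by
    refine ⟨fun a => q.1 ?_, hx t⟩
    have := h.upk _ (hD c hc) x (fun t => hx (-t)) (-t) (-s)
    simp only [neg_neg] at this
    exact this a
  ups g x y q := by
    refine ⟨fun a => q.1 ?_, fun a => q.2 ?_⟩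
    · simpa only [inv_smul_smul] using h.ups g⁻¹ _ _ a
    · simpa only [inv_smul_smul] using h.rsm g⁻¹ _ _ a
  ab := h.ab
  nf g hg c hc u v q := by
    obtain ⟨t, a, b⟩ := h.nf g hg _ (hD c hc) (-v) (-u) (neg_lt_neg q)
    exact ⟨-t, ⟨le_neg.1 a.2, neg_le.1 a.1⟩, b⟩

theorem oc_asc (hP : Pre G C) (g : G) {x y : X} (k : Relation.TransGen (Asc C) x y) :
    Relation.TransGen (Asc (dualC C)) (g • y) (g • x) := by
  have one : ∀ a b, Asc C a b → Asc (dualC C) (g • b) (g • a) := by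
    rintro a b ⟨c, hc, s, t, hst, rfl, rfl⟩
    exact ⟨_, oc_neg (hP.smul g c hc), -t, -s, neg_lt_neg hst, by simp only [neg_neg],
      by simp only [neg_neg]⟩
  induction k with
  | single a => exact .single (one _ _ a)
  | tail _ a ih => exact .head (one _ _ a) ih

namespace OM
variable (h : OM G C up)
include h

theorem dual : OM G (dualC C) (dualU up) := by
  refine ⟨⟨fun x => ?_, fun g a ha => h.pre.smul g _ ha, fun P k => h.pre.conn P fun c hc s t => ?_,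
    fun x => ?_⟩, oc_flip (fun _ k => k) h.good, fun a k => h.sat _ fun t => ?_⟩
  · obtain ⟨c, hc, t, rfl⟩ := h.pre.cover x
    exact ⟨_, oc_neg hc, -t, by simp only [neg_neg]⟩
  · simpa only [neg_neg] using k _ (oc_neg hc) (-s) (-t)
  · obtain ⟨g, k⟩ := h.pre.taut x
    exact ⟨g⁻¹, by simpa only [inv_smul_smul] using oc_asc h.pre g⁻¹ k⟩
  · obtain ⟨d, hd, f, ε, hε, h1, h2, h3⟩ := k (-t)
    have m : MapsTo Neg.neg (Ioo (t - ε) (t + ε)) (Ioo (-t - ε) (-t + ε)) := fun u q =>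
      ⟨by linarith [q.2], by linarith [q.1]⟩
    refine ⟨_, hd, fun u => -f (-u), ε, hε,
      fun u a v b q => neg_lt_neg (h1 (m b) (m a) (neg_lt_neg q)),
      (h2.comp continuous_neg.continuousOn m).neg, fun u q => ?_⟩
    simp only [neg_neg]
    exact h3 _ (m q)

end OM

theorem Good.undual {r up' : X → X → Prop} (h : Good G (dualC C) r up') :
    Good G C r (fun x y => ¬ up' x y ∧ ¬ r x y) := by
  exact oc_flip (fun _ => oc_neg) h

end Pool.Agent.Work.MP_3d425c_gt.Cy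

/-! Quotients, saturation of the atlas, and the maximal fold. -/

namespace Pool.Agent.Work.MP_3d425c_gt.Cy
open Set Filter Topology

universe u
variable {G : Type*} {X : Type u} [Group G] [MulAction G X] {C : Set (ℝ → X)}

theorem za_sub : C ⊆ {a | LocChart C a} := fun c hc _ =>
  ⟨c, hc, id, 1, one_pos, strictMono_id.strictMonoOn _, continuousOn_id, fun _ _ => rfl⟩

theorem za_nhds {t ε : ℝ} (hε : 0 < ε) : Ioo (t - ε) (t + ε) ∈ 𝓝 t :=
  Ioo_mem_nhds (by linarith) (by linarith)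

theorem za_self {t ε : ℝ} (hε : 0 < ε) : t ∈ Ioo (t - ε) (t + ε) := ⟨by linarith, by linarith⟩

section
variable {up : X → X → Prop} (hG : Good G C Eq up)
include hG

theorem za_inj {d : ℝ → X} (hd : d ∈ C) {s t : ℝ} (h : d s = d t) : s = t := by
  have h1 : ¬ s < t := fun h' => lt_irrefl t ((hG.upc d hd t t).1 (h ▸ (hG.upc d hd s t).2 h'))
  have h2 : ¬ t < s := fun h' => lt_irrefl s ((hG.upc d hd s s).1 (h.symm ▸ (hG.upc d hd t s).2 h'))
  exact le_antisymm (not_lt.1 h2) (not_lt.1 h1)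

theorem za_up0 {d : ℝ → X} (hd : d ∈ C) {x : X} {s : ℝ} (h : up x (d s)) :
    ∀ᶠ t in 𝓝 s, up x (d t) := by
  by_cases hx : ∃ w, x = d w
  · obtain ⟨w, rfl⟩ := hx
    filter_upwards [Ioi_mem_nhds ((hG.upc d hd w s).1 h)] with t ht
    exact (hG.upc d hd w t).2 ht
  · exact Eventually.of_forall fun t => hG.upk d hd x (not_exists.1 hx) s t h

theorem za_dn0 {d : ℝ → X} (hd : d ∈ C) {x : X} {s : ℝ} (h : ¬ up x (d s)) (h' : x ≠ d s) :
    ∀ᶠ t in 𝓝 s, ¬ up x (d t) ∧ x ≠ d t := by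
  by_cases hx : ∃ w, x = d w
  · obtain ⟨w, rfl⟩ := hx
    have h1 : s < w := lt_of_le_of_ne (not_lt.1 fun h2 => h ((hG.upc d hd w s).2 h2))
      fun e => h' (e ▸ rfl)
    filter_upwards [Iio_mem_nhds h1] with t ht
    exact ⟨fun h2 => lt_asymm ht ((hG.upc d hd w t).1 h2), fun e => (ne_of_lt ht) (za_inj hG hd e).symm⟩
  · exact Eventually.of_forall fun t =>
      ⟨fun h2 => h (hG.upk d hd x (not_exists.1 hx) t s h2), not_exists.1 hx t⟩

theorem za_up {a : ℝ → X} (ha : LocChart C a) {x : X} {s : ℝ} (h : up x (a s)) :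
    ∀ᶠ t in 𝓝 s, up x (a t) := by
  obtain ⟨d, hd, f, ε, hε, -, hf, e⟩ := ha s
  rw [e s (za_self hε)] at h
  filter_upwards [(hf.continuousAt (za_nhds hε)).eventually (za_up0 hG hd h), za_nhds hε]
    with t h1 h2
  rwa [e t h2]

theorem za_dn {a : ℝ → X} (ha : LocChart C a) {x : X} {s : ℝ} (h : ¬ up x (a s)) (h' : x ≠ a s) :
    ∀ᶠ t in 𝓝 s, ¬ up x (a t) ∧ x ≠ a t := by
  obtain ⟨d, hd, f, ε, hε, -, hf, e⟩ := ha s
  rw [e s (za_self hε)] at h h'
  filter_upwards [(hf.continuousAt (za_nhds hε)).eventually (za_dn0 hG hd h h'), za_nhds hε]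
    with t h1 h2
  rwa [e t h2]

theorem za_at {a : ℝ → X} (ha : LocChart C a) (s : ℝ) :
    ∀ᶠ t in 𝓝 s, (up (a s) (a t) ↔ s < t) ∧ (a s = a t → s = t) := by
  obtain ⟨d, hd, f, ε, hε, hm, -, e⟩ := ha s
  filter_upwards [za_nhds hε] with t ht
  rw [e s (za_self hε), e t ht, hG.upc d hd]
  exact ⟨hm.lt_iff_lt (za_self hε) ht, fun h => hm.injOn (za_self hε) ht (za_inj hG hd h)⟩

theorem za_upset {a : ℝ → X} (ha : LocChart C a) (x : X) {s t : ℝ} (hst : s ≤ t)
    (h : up x (a s) ∨ x = a s) : up x (a t) ∨ x = a t := by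
  have hcl : IsClosed {t | up x (a t) ∨ x = a t} := by
    rw [← isOpen_compl_iff, isOpen_iff_mem_nhds]
    intro t ht
    filter_upwards [za_dn hG ha (not_or.1 ht).1 (not_or.1 ht).2] with u hu
    exact not_or.2 hu
  refine (hcl.inter isClosed_Icc).Icc_subset_of_forall_mem_nhdsWithin (a := s) (b := t) h ?_
    ⟨hst, le_rfl⟩
  rintro u ⟨hu | hu, -⟩
  · exact mem_nhdsWithin_of_mem_nhds ((za_up hG ha hu).mono fun _ h => Or.inl h)
  · filter_upwards [mem_nhdsWithin_of_mem_nhds (za_at hG ha u), self_mem_nhdsWithin] with v h1 h2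
    exact Or.inl (hu ▸ h1.1.2 h2)

theorem za_left {a : ℝ → X} (ha : LocChart C a) {s t : ℝ} (hst : s < t) :
    ¬ (up (a t) (a s) ∨ a t = a s) := by
  intro h
  have h1 : ∀ᶠ u in 𝓝[<] t, False := by
    filter_upwards [mem_nhdsWithin_of_mem_nhds (za_at hG ha t), Ioo_mem_nhdsLT hst] with u h1 h2
    rcases za_upset hG ha (a t) h2.1.le h with h3 | h3
    · exact lt_asymm h2.2 (h1.1.1 h3)
    · exact h2.2.ne' (h1.2 h3)
  exact h1.exists.elim fun _ h => h

theorem za_upc {a : ℝ → X} (ha : LocChart C a) (s t : ℝ) : up (a s) (a t) ↔ s < t := by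
  constructor
  · intro h
    rcases lt_trichotomy s t with h1 | rfl | h1
    · exact h1
    · exact (za_at hG ha s).self_of_nhds.1.1 h
    · exact absurd (Or.inl h) (za_left hG ha h1)
  · intro h
    exact (za_upset hG ha (a s) h.le (Or.inr rfl)).resolve_right
      fun e => za_left hG ha h (Or.inr e.symm)

theorem za_upk {a : ℝ → X} (ha : LocChart C a) (x : X) (hx : ∀ t, ¬ x = a t) (s t : ℝ)
    (h : up x (a s)) : up x (a t) := by
  have hc : IsClopen {t | up x (a t)} := by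
    constructor
    · rw [← isOpen_compl_iff, isOpen_iff_mem_nhds]
      intro u hu
      exact (za_dn hG ha hu (hx u)).mono fun _ h => h.1
    · exact isOpen_iff_mem_nhds.2 fun u hu => za_up hG ha hu
  have h1 := hc.eq_univ ⟨s, h⟩
  exact (h1.symm ▸ mem_univ t : t ∈ {t | up x (a t)})

theorem za_opn {a b : ℝ → X} (ha : LocChart C a) (hb : LocChart C b) :
    IsOpen {u | ∃ v, a u = b v} := by
  rw [isOpen_iff_mem_nhds]
  rintro u ⟨v, huv⟩
  obtain ⟨e, he, h, δ, hδ, hm, hh, eb⟩ := hb v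
  have m1 : v - δ / 2 ∈ Ioo (v - δ) (v + δ) := ⟨by linarith, by linarith⟩
  have m2 : v + δ / 2 ∈ Ioo (v - δ) (v + δ) := ⟨by linarith, by linarith⟩
  have hsub : Icc (v - δ / 2) (v + δ / 2) ⊆ Ioo (v - δ) (v + δ) := Icc_subset_Ioo m1.1 m2.2
  have e0 : a u = e (h v) := huv.trans (eb v (za_self hδ))
  have l1 : h (v - δ / 2) < h v := hm m1 (za_self hδ) (by linarith)
  have l2 : h v < h (v + δ / 2) := hm (za_self hδ) m2 (by linarith)
  have k1 := za_up hG ha (x := e (h (v - δ / 2))) (s := u) (e0 ▸ (hG.upc e he _ _).2 l1)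
  have k2 := za_dn hG ha (x := e (h (v + δ / 2))) (s := u)
    (e0 ▸ fun h' => lt_asymm l2 ((hG.upc e he _ _).1 h'))
    (e0 ▸ fun h' => l2.ne' (za_inj hG he h'))
  have k3 : ∀ᶠ u' in 𝓝 u, ∃ w, a u' = e w := by
    obtain ⟨d, hd, f, ε, hε, -, hf, ea⟩ := ha u
    have h1 : {s | ∃ w, d s = e w} ∈ 𝓝 (f u) :=
      (hG.opn d hd e he).mem_nhds ⟨_, (ea u (za_self hε)).symm.trans e0⟩
    filter_upwards [(hf.continuousAt (za_nhds hε)).eventually h1, za_nhds hε] with t h2 h3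
    rwa [ea t h3]
  filter_upwards [k1, k2, k3] with u' h1 h2 h3
  obtain ⟨w, hw⟩ := h3
  rw [hw, hG.upc e he] at h1 h2
  obtain ⟨v', hv', rfl⟩ := intermediate_value_Icc (by linarith : v - δ / 2 ≤ v + δ / 2)
    (hh.mono hsub) ⟨h1.le, not_lt.1 h2.1⟩
  exact ⟨v', hw.trans (eb v' (hsub hv')).symm⟩

theorem za_nf (g : G) (hg : g ≠ 1) {a : ℝ → X} (ha : LocChart C a) (u v : ℝ) (huv : u < v) :
    ∃ t ∈ Icc u v, ¬ g • a t = a t := by
  obtain ⟨d, hd, f, ε, hε, hm, hf, e⟩ := ha u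
  have h1 : u < min v (u + ε / 2) := lt_min huv (by linarith)
  have m2 : min v (u + ε / 2) ∈ Ioo (u - ε) (u + ε) :=
    ⟨by linarith, (min_le_right _ _).trans_lt (by linarith)⟩
  have hsub : Icc u (min v (u + ε / 2)) ⊆ Ioo (u - ε) (u + ε) := Icc_subset_Ioo (by linarith) m2.2
  obtain ⟨w, hw, h2⟩ := hG.nf g hg d hd _ _ (hm (za_self hε) m2 h1)
  obtain ⟨t, ht, rfl⟩ := intermediate_value_Icc h1.le (hf.mono hsub) hw
  exact ⟨t, ⟨ht.1, ht.2.trans (min_le_left _ _)⟩, by rwa [e t (hsub ht)]⟩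

end

theorem za_sat {a : ℝ → X} (ha : LocChart {a | LocChart C a} a) : LocChart C a := by
  intro t
  obtain ⟨b, hb, f, ε, hε, hm, hf, e⟩ := ha t
  obtain ⟨d, hd, h, δ, hδ, hm', hh, e'⟩ := hb (f t)
  have h1 : Ioo (t - ε) (t + ε) ∩ f ⁻¹' Ioo (f t - δ) (f t + δ) ∈ 𝓝 t :=
    inter_mem (za_nhds hε) ((hf.continuousAt (za_nhds hε)).preimage_mem_nhds (za_nhds hδ))
  obtain ⟨η, hη, h2⟩ := Metric.mem_nhds_iff.1 h1
  rw [Real.ball_eq_Ioo] at h2
  refine ⟨d, hd, fun u => h (f u), η, hη, fun u hu v hv huv => ?_, ?_, fun u hu => ?_⟩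
  · exact hm' (h2 hu).2 (h2 hv).2 (hm (h2 hu).1 (h2 hv).1 huv)
  · exact hh.comp (hf.mono fun u hu => (h2 hu).1) fun u hu => (h2 hu).2
  · rw [e u (h2 hu).1, e' _ (h2 hu).2]

/-- Saturating the atlas. Hint: take `{a | LocChart C a}`; the position of `a t` relative to a
point (below, equal, above) is locally monotone in `t`, hence monotone. -/
theorem saturate {up : X → X → Prop} (hP : Pre G C) (hG : Good G C Eq up) :
    OM G {a | LocChart C a} up ∧ C ⊆ {a | LocChart C a} := by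
  refine ⟨⟨⟨fun x => ?_, fun g a ha t => ?_, fun P h => hP.conn P fun c hc => h c (za_sub hc),
    fun x => ?_⟩, ⟨hG.eqv, hG.rsm, fun a ha b hb => za_opn hG ha hb, hG.upl, hG.upr,
    fun a ha => za_upc hG ha, fun a ha => za_upk hG ha, hG.ups, hG.ab,
    fun g hg a ha => za_nf hG g hg ha⟩, fun a ha => za_sat ha⟩, za_sub⟩
  · obtain ⟨c, hc, h⟩ := hP.cover x
    exact ⟨c, za_sub hc, h⟩
  · obtain ⟨d, hd, f, ε, hε, hm, hf, e⟩ := ha t
    exact ⟨_, hP.smul g d hd, f, ε, hε, hm, hf, fun u hu => congrArg (g • ·) (e u hu)⟩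
  · obtain ⟨g, h⟩ := hP.taut x
    exact ⟨g, h.lift id fun _ _ ⟨c, hc, h⟩ => ⟨c, za_sub hc, h⟩⟩

theorem za_quot {r up : X → X → Prop} (hP : Pre G C) (hG : Good G C r up) {Y : Type u}
    [MulAction G Y] (π : X → Y) (hs : Function.Surjective π) (hr : ∀ x y, π x = π y ↔ r x y)
    (he : ∀ (g : G) x, π (g • x) = g • π x) :
    Pre G {b | ∃ c ∈ C, b = fun t => π (c t)} ∧ Good G {b | ∃ c ∈ C, b = fun t => π (c t)} Eq
      fun y y' => ∃ x x', π x = y ∧ π x' = y' ∧ up x x' := by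
  have hu : ∀ x y, (∃ z z', π z = π x ∧ π z' = π y ∧ up z z') ↔ up x y := fun x y =>
    ⟨fun ⟨z, z', h1, h2, h3⟩ => hG.upl _ _ _ ((hr _ _).1 h1) (hG.upr _ _ _ ((hr _ _).1 h2) h3),
      fun h => ⟨x, y, rfl, rfl, h⟩⟩
  refine ⟨⟨fun y => ?_, ?_, fun P h y y' => ?_, fun y => ?_⟩, ⟨eq_equivalence, ?_, ?_, ?_, ?_, ?_,
    ?_, ?_, fun y g h h1 h2 => ?_, ?_⟩⟩
  · obtain ⟨x, rfl⟩ := hs y
    obtain ⟨c, hc, t, rfl⟩ := hP.cover x
    exact ⟨_, ⟨c, hc, rfl⟩, t, rfl⟩
  · rintro g _ ⟨c, hc, rfl⟩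
    exact ⟨_, hP.smul g c hc, funext fun t => (he g _).symm⟩
  · obtain ⟨x, rfl⟩ := hs y
    obtain ⟨x', rfl⟩ := hs y'
    exact hP.conn (fun x => P (π x)) (fun c hc => h _ ⟨c, hc, rfl⟩) x x'
  · obtain ⟨x, rfl⟩ := hs y
    obtain ⟨g, h⟩ := hP.taut x
    refine ⟨g, he g x ▸ h.lift π ?_⟩
    rintro _ _ ⟨c, hc, s, t, hst, rfl, rfl⟩
    exact ⟨_, ⟨c, hc, rfl⟩, s, t, hst, rfl, rfl⟩
  · rintro g y _ rfl
    rfl
  · rintro _ ⟨c, hc, rfl⟩ _ ⟨d, hd, rfl⟩
    simpa only [hr] using hG.opn c hc d hd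
  · rintro y _ y' rfl h
    exact h
  · rintro y y' _ rfl h
    exact h
  · rintro _ ⟨c, hc, rfl⟩ s t
    exact (hu _ _).trans (hG.upc c hc s t)
  · rintro _ ⟨c, hc, rfl⟩ y hy s t h
    obtain ⟨x, rfl⟩ := hs y
    exact (hu _ _).2 (hG.upk c hc x (fun t h' => hy t ((hr _ _).2 h')) s t ((hu _ _).1 h))
  · rintro g _ _ ⟨x, x', rfl, rfl, h⟩
    exact ⟨_, _, he g x, he g x', hG.ups g x x' h⟩
  · obtain ⟨x, rfl⟩ := hs y
    exact hG.ab x g h ((hr _ _).1 ((he g x).trans h1)) ((hr _ _).1 ((he h x).trans h2))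
  · rintro g hg _ ⟨c, hc, rfl⟩ u v huv
    obtain ⟨t, ht, h⟩ := hG.nf g hg c hc u v huv
    exact ⟨t, ht, fun h' => h ((hr _ _).1 ((he g _).trans h'))⟩

/-- The quotient by a good relation. -/
theorem exists_quot {r up : X → X → Prop} (hP : Pre G C) (hG : Good G C r up) :
    ∃ (Y : Type u) (_ : MulAction G Y) (π : X → Y) (C' : Set (ℝ → Y)) (up' : Y → Y → Prop),
      OM G C' up' ∧ Function.Surjective π ∧ (∀ x y, π x = π y ↔ r x y) ∧
      (∀ (g : G) x, π (g • x) = g • π x) ∧ ∀ c ∈ C, (fun t => π (c t)) ∈ C' := by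
  let S : Setoid X := ⟨r, hG.eqv⟩
  let A : MulAction G (Quotient S) :=
    { smul := fun g => Quotient.map (g • ·) fun x y h => hG.rsm g x y h
      one_smul := fun y => Quotient.inductionOn y fun x => congrArg (Quotient.mk S) (one_smul G x)
      mul_smul := fun g h y => Quotient.inductionOn y fun x =>
        congrArg (Quotient.mk S) (mul_smul g h x) }
  have hr : ∀ x y, Quotient.mk S x = Quotient.mk S y ↔ r x y := fun x y => Quotient.eq
  obtain ⟨h1, h2⟩ := za_quot hP hG (Quotient.mk S) Quotient.mk_surjective hr fun _ _ => rfl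
  obtain ⟨h3, h4⟩ := saturate h1 h2
  exact ⟨Quotient S, A, Quotient.mk S, _, _, h3, Quotient.mk_surjective, hr, fun _ _ => rfl,
    fun c hc => h4 ⟨c, hc, rfl⟩⟩

end Pool.Agent.Work.MP_3d425c_gt.Cy

/-! Quotients, saturation of the atlas, and the maximal fold. -/

namespace Pool.Agent.Work.MP_3d425c_gt.Cy
open Set Filter Topology

universe u
variable {G : Type*} {X : Type u} [Group G] [MulAction G X] {C : Set (ℝ → X)}

theorem zb_closed {ρ : ℝ → ℝ → Prop} {a b : ℝ}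
    (hM : ∀ s s' t t', ρ s s' → ρ t t' → (s < t ↔ s' < t')) (ha : ρ a a) (hb : ρ b b)
    (h1 : ∀ w, a < w → w < b → ∃ z, ρ w z) (h2 : ∀ w, a < w → w < b → ∃ y, ρ y w) :
    IsClosed ({t | ρ t t} ∩ Icc a b) := by
  refine isOpen_compl_iff.1 (isOpen_iff_mem_nhds.2 fun w hw => ?_)
  by_cases k : w ∈ Icc a b
  swap
  · exact mem_of_superset (isClosed_Icc.isOpen_compl.mem_nhds k) fun t q r => q r.2
  have n : ¬ ρ w w := fun q => hw ⟨q, k⟩
  have l1 : a < w := k.1.lt_of_ne fun e => n (e ▸ ha)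
  have l2 : w < b := k.2.lt_of_ne fun e => n (e ▸ hb)
  obtain ⟨z, hz⟩ := h1 w l1 l2
  have l3 : a < z := (hM _ _ _ _ ha hz).1 l1
  have l4 : z < b := (hM _ _ _ _ hz hb).1 l2
  obtain ⟨y, hy⟩ := h2 ((z + w) / 2) (by linarith) (by linarith)
  rcases lt_trichotomy z w with q | q | q
  · refine mem_of_superset (Ioo_mem_nhds (show (z + w) / 2 < w by linarith)
      ((hM _ _ _ _ hz hy).2 (by linarith))) fun t r s => ?_
    exact lt_asymm r.1 ((hM _ _ _ _ s.1 hy).1 r.2)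
  · exact absurd (q ▸ hz) n
  · refine mem_of_superset (Ioo_mem_nhds ((hM _ _ _ _ hy hz).2 (by linarith))
      (show w < (z + w) / 2 by linarith)) fun t r s => ?_
    exact lt_asymm r.2 ((hM _ _ _ _ hy s.1).1 r.1)

theorem zb_conv {r up : X → X → Prop} (h : Good G C r up) {c d : ℝ → X} (hc : c ∈ C) (hd : d ∈ C)
    {a b w : ℝ} (ha : r (d a) (c a)) (hb : r (d b) (c b)) (h1 : a < w) (h2 : w < b) :
    ∃ z, r (d w) (c z) := by
  by_contra k
  exact lt_asymm h1 ((h.upc d hd w a).1 (h.upr _ _ _ (h.eqv.symm ha)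
    (h.upk c hc _ (fun t q => k ⟨t, q⟩) b a (h.upr _ _ _ hb ((h.upc d hd w b).2 h2)))))

theorem zb_fix {r up : X → X → Prop} (h : Good G C r up) {c d : ℝ → X} (hc : c ∈ C) (hd : d ∈ C)
    {a b : ℝ} (ha : r (d a) (c a)) (hb : r (d b) (c b)) :
    IsClosed ({t | r (d t) (c t)} ∩ Icc a b) := by
  refine zb_closed (ρ := fun s t => r (d s) (c t)) (fun s s' t t' p q => ?_) ha hb
    (fun w => zb_conv h hc hd ha hb) fun w p q => ?_
  · rw [← h.upc d hd, ← h.upc c hc]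
    exact ⟨fun k => h.upl _ _ _ p (h.upr _ _ _ q k),
      fun k => h.upl _ _ _ (h.eqv.symm p) (h.upr _ _ _ (h.eqv.symm q) k)⟩
  · obtain ⟨z, k⟩ := zb_conv h hd hc (h.eqv.symm ha) (h.eqv.symm hb) p q
    exact ⟨z, h.eqv.symm k⟩

/-- Unions of chains of good relations are good. Hint: `up` is the eventual value along the
chain; for `nf` use the rationals and the Baire theorem in `ℝ`. -/
theorem good_chain (hP : Pre G C) (S : Set (X → X → Prop)) (hne : S.Nonempty)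
    (hch : IsChain (· ≤ ·) S) (hS : ∀ r ∈ S, ∃ up, Good G C r up) :
    ∃ up, Good G C (fun x y => ∃ r ∈ S, r x y) up := by
  choose! U hU using hS
  obtain ⟨r0, h0⟩ := hne
  have mx : ∀ r ∈ S, ∀ r' ∈ S, ∃ m ∈ S, r ≤ m ∧ r' ≤ m := fun r a r' b =>
    (hch.total a b).elim (fun k => ⟨r', b, k, le_rfl⟩) fun k => ⟨r, a, le_rfl, k⟩
  refine ⟨fun x y => ∃ r ∈ S, ∀ r' ∈ S, r ≤ r' → U r' x y,
    ⟨fun x => ⟨r0, h0, (hU r0 h0).eqv.refl x⟩, fun ⟨r, a, k⟩ => ⟨r, a, (hU r a).eqv.symm k⟩, ?_⟩,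
    fun g x y ⟨r, a, k⟩ => ⟨r, a, (hU r a).rsm g x y k⟩, fun c hc d hd => ?_, ?_, ?_,
    fun c hc s t => ⟨fun ⟨r, a, k⟩ => ((hU r a).upc c hc s t).1 (k r a le_rfl),
      fun k => ⟨r0, h0, fun r a _ => ((hU r a).upc c hc s t).2 k⟩⟩,
    fun c hc x hx s t ⟨r, a, k⟩ => ⟨r, a, fun r' b q =>
      (hU r' b).upk c hc x (fun t p => hx t ⟨r', b, p⟩) s t (k r' b q)⟩,
    fun g x y ⟨r, a, k⟩ => ⟨r, a, fun r' b q => (hU r' b).ups g x y (k r' b q)⟩, ?_,
    fun g hg c hc u v huv => ?_⟩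
  · rintro x y z ⟨r, a, k⟩ ⟨r', b, q⟩
    obtain ⟨m, c, p, p'⟩ := mx r a r' b
    exact ⟨m, c, (hU m c).eqv.trans (p _ _ k) (p' _ _ q)⟩
  · have e : {u | ∃ v, ∃ r ∈ S, r (c u) (d v)} = ⋃ r ∈ S, {u | ∃ v, r (c u) (d v)} := by
      ext u
      simp only [mem_iUnion]
      exact ⟨fun ⟨v, r, a, k⟩ => ⟨r, a, v, k⟩, fun ⟨r, a, v, k⟩ => ⟨v, r, a, k⟩⟩
    rw [e]
    exact isOpen_biUnion fun r a => (hU r a).opn c hc d hd
  · rintro x x' y ⟨r, a, k⟩ ⟨r', b, q⟩
    obtain ⟨m, c, p, p'⟩ := mx r a r' b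
    exact ⟨m, c, fun n e f => (hU n e).upl _ _ _ (f _ _ (p _ _ k)) (q n e (p'.trans f))⟩
  · rintro x y y' ⟨r, a, k⟩ ⟨r', b, q⟩
    obtain ⟨m, c, p, p'⟩ := mx r a r' b
    exact ⟨m, c, fun n e f => (hU n e).upr _ _ _ (f _ _ (p _ _ k)) (q n e (p'.trans f))⟩
  · rintro x g g' ⟨r, a, k⟩ ⟨r', b, q⟩
    obtain ⟨m, c, p, p'⟩ := mx r a r' b
    exact (hU m c).ab x g g' (p _ _ k) (p' _ _ q)
  · by_contra k
    have k1 : ∀ t ∈ Icc u v, ∃ r ∈ S, r (g • c t) (c t) := fun t a =>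
      by_contra fun b => k ⟨t, a, b⟩
    obtain ⟨r1, a1, b1⟩ := k1 u ⟨le_rfl, huv.le⟩
    obtain ⟨r2, a2, b2⟩ := k1 v ⟨huv.le, le_rfl⟩
    obtain ⟨m, hm, p1, p2⟩ := mx r1 a1 r2 a2
    have cl : ∀ r ∈ S, m ≤ r → IsOpen ({t | r (g • c t) (c t)} ∩ Icc u v)ᶜ := fun r a q =>
      (zb_fix (hU r a) hc (hP.smul g c hc) (q _ _ (p1 _ _ b1)) (q _ _ (p2 _ _ b2))).isOpen_compl
    have de : ∀ r ∈ S, Dense ({t | r (g • c t) (c t)} ∩ Icc u v)ᶜ := fun r a =>
      dense_of_exists_between fun s t q => by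
        obtain ⟨w, e, f⟩ := (hU r a).nf g hg c hc ((2 * s + t) / 3) ((s + 2 * t) / 3) (by linarith)
        exact ⟨w, fun z => f z.1, by linarith [e.1], by linarith [e.2]⟩
    have k2 : ∀ q : ℚ, ∃ r ∈ S, m ≤ r ∧ ((q : ℝ) ∈ Icc u v → r (g • c q) (c q)) := fun q => by
      by_cases e : (q : ℝ) ∈ Icc u v
      · obtain ⟨r, a, b⟩ := k1 q e
        obtain ⟨n, hn, p, p'⟩ := mx m hm r a
        exact ⟨n, hn, p, fun _ => p' _ _ b⟩
      · exact ⟨m, hm, le_rfl, fun f => absurd f e⟩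
    choose R R1 R2 R3 using k2
    obtain ⟨t, e, f⟩ := (dense_iInter_of_isOpen (fun q => cl _ (R1 q) (R2 q))
      fun q => de _ (R1 q)).exists_mem_open isOpen_Ioo (nonempty_Ioo.2 huv)
    obtain ⟨r, a, b⟩ := k1 t (Ioo_subset_Icc_self f)
    have le : ∀ q, R q ≤ r := fun q => (hch.total (R1 q) a).resolve_right fun p =>
      mem_iInter.1 e q ⟨p _ _ b, Ioo_subset_Icc_self f⟩
    obtain ⟨w, w1, w2⟩ := (de r a).exists_mem_open isOpen_Ioo (nonempty_Ioo.2 huv)
    obtain ⟨q, w3, w4⟩ := Rat.denseRange_cast.exists_mem_open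
      ((cl r a ((R2 0).trans (le 0))).inter isOpen_Ioo) ⟨w, w1, w2⟩
    exact w3 ⟨le q _ _ (R3 q (Ioo_subset_Icc_self w4)), Ioo_subset_Icc_self w4⟩

end Pool.Agent.Work.MP_3d425c_gt.Cy

/-! Quotients, saturation of the atlas, and the maximal fold. -/

namespace Pool.Agent.Work.MP_3d425c_gt.Cy
open Set Filter Topology

universe u
variable {G : Type*} {X : Type u} [Group G] [MulAction G X] {C : Set (ℝ → X)}

theorem zc_pull {Y : Type u} [MulAction G Y] {C' : Set (ℝ → Y)} {r up : Y → Y → Prop}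
    (hG : Good G C' r up) (π : X → Y) (he : ∀ (g : G) x, π (g • x) = g • π x)
    (hc : ∀ c ∈ C, (fun t => π (c t)) ∈ C') :
    Good G C (fun x y => r (π x) (π y)) fun x y => up (π x) (π y) where
  eqv := ⟨fun _ => hG.eqv.refl _, fun h => hG.eqv.symm h, fun h h' => hG.eqv.trans h h'⟩
  rsm g x y h := by
    rw [he, he]
    exact hG.rsm g _ _ h
  opn c h d h' := hG.opn _ (hc c h) _ (hc d h')
  upl _ _ _ := hG.upl _ _ _
  upr _ _ _ := hG.upr _ _ _
  upc c h := hG.upc _ (hc c h)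
  upk c h _ := hG.upk _ (hc c h) _
  ups g x y h := by
    rw [he, he]
    exact hG.ups g _ _ h
  ab x g h h1 h2 := by
    rw [he] at h1 h2
    exact hG.ab _ g h h1 h2
  nf g hg c h u v huv := by
    obtain ⟨t, ht, h1⟩ := hG.nf g hg _ (hc c h) u v huv
    exact ⟨t, ht, by rwa [he]⟩

/-- A quotient with no proper good relation. -/
theorem exists_max {up : X → X → Prop} (hP : Pre G C) (hG : Good G C Eq up) (x₀ : X) :
    ∃ (Y : Type u) (_ : MulAction G Y) (_ : Y) (C' : Set (ℝ → Y)) (up' : Y → Y → Prop),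
      OM G C' up' ∧ ∀ r up'', Good G C' r up'' → ∀ x y, r x y → x = y := by
  obtain ⟨m, -, hm⟩ := zorn_le_nonempty₀ {r : X → X → Prop | ∃ up, Good G C r up}
    (fun S hS hch r hr => ⟨fun x y => ∃ r ∈ S, r x y, good_chain hP S ⟨r, hr⟩ hch hS,
      fun z hz x y h => ⟨z, hz, h⟩⟩) Eq ⟨up, hG⟩
  obtain ⟨up1, h1⟩ := hm.prop
  obtain ⟨Y, A, π, C', up', h2, hs, hr, he, hc⟩ := exists_quot hP h1
  refine ⟨Y, A, π x₀, C', up', h2, fun r up'' h3 y y' h => ?_⟩
  obtain ⟨x, rfl⟩ := hs y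
  obtain ⟨x', rfl⟩ := hs y'
  have h4 : (fun x y => r (π x) (π y)) ≤ m := hm.le_of_ge ⟨_, zc_pull h3 π he hc⟩ fun a b hab => by
    rw [(hr a b).2 hab]
    exact h3.eqv.refl _
  exact (hr x x').2 (h4 x x' h)

end Pool.Agent.Work.MP_3d425c_gt.Cy

/-! Invariant rays above a fixed point and their groupoid. -/

namespace Pool.Agent.Work.MP_3d425c_gt.Cy
open Set Filter Topology

variable {G X : Type*} [Group G] [MulAction G X] {C : Set (ℝ → X)} {up : X → X → Prop}

/-- Coordinate from the half-open unit interval to the half-line. -/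
noncomputable def io (s : II) : ℝ := (s : ℝ) / (1 - s)

theorem io_nonneg (s : II) : 0 ≤ io s :=
  div_nonneg s.2.1 (sub_nonneg.2 s.2.2)

theorem io_lt {s t : II} (hs : s < 1) (ht : t < 1) : io s < io t ↔ s < t := by
  have h1 : (s : ℝ) < 1 := hs
  have h2 : (t : ℝ) < 1 := ht
  rw [io, io, div_lt_div_iff₀ (sub_pos.2 h1) (sub_pos.2 h2)]
  change _ ↔ (s : ℝ) < t
  constructor <;> intro h <;> nlinarith

theorem io_inv {u : ℝ} (hu : 0 ≤ u) :
    projIcc (0 : ℝ) 1 zero_le_one (u / (1 + u)) < 1 ∧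
      io (projIcc (0 : ℝ) 1 zero_le_one (u / (1 + u))) = u := by
  have h1 : u / (1 + u) < 1 := (div_lt_one (by linarith)).2 (by linarith)
  rw [projIcc_of_mem _ ⟨by positivity, h1.le⟩]
  refine ⟨h1, ?_⟩
  change u / (1 + u) / (1 - u / (1 + u)) = u
  have : 1 + u ≠ 0 := by linarith
  field_simp
  ring

theorem io_surj {u : ℝ} (hu : 0 ≤ u) : ∃ s : II, s < 1 ∧ io s = u :=
  ⟨_, io_inv hu⟩

theorem io_zero : io 0 = 0 := by
  simp [io]

theorem io_cont {s : II} (hs : s < 1) : ContinuousAt io s :=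
  continuous_subtype_val.continuousAt.div
    (continuous_const.sub continuous_subtype_val).continuousAt
    (sub_pos.2 (show (s : ℝ) < 1 from hs)).ne'

/-- The inverse coordinate is continuous. -/
theorem io_near {s : II} (hs : s < 1) {N : Set II} (hN : N ∈ 𝓝 s) :
    ∀ᶠ u in 𝓝 (io s), 0 ≤ u → ∃ s' ∈ N, s' < 1 ∧ io s' = u := by
  have h0 := io_nonneg s
  have hc : ContinuousAt (fun u : ℝ => projIcc (0 : ℝ) 1 zero_le_one (u / (1 + u))) (io s) :=
    continuous_projIcc.continuousAt.comp (continuousAt_id.div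
      (continuousAt_const.add continuousAt_id) (by change 1 + io s ≠ 0; linarith))
  have e : projIcc (0 : ℝ) 1 zero_le_one (io s / (1 + io s)) = s :=
    le_antisymm (not_lt.1 fun h => (io_inv h0).2.not_gt ((io_lt hs (io_inv h0).1).2 h))
      (not_lt.1 fun h => (io_inv h0).2.not_lt ((io_lt (io_inv h0).1 hs).2 h))
  refine (hc.eventually (p := (· ∈ N)) (by beta_reduce; rw [e]; exact hN)).mono fun u hu h => ?_
  exact ⟨_, hu, io_inv h⟩

end Pool.Agent.Work.MP_3d425c_gt.Cy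

/-! Invariant rays above a fixed point and their groupoid. -/

namespace Pool.Agent.Work.MP_3d425c_gt.Cy
open Set Filter Topology

variable {G X : Type*} [Group G] [MulAction G X] {C : Set (ℝ → X)} {up : X → X → Prop}

/-- A fixed point above zero: stretch the segment below it. -/
theorem armB_fix (h : OM G C up) {c : ℝ → X} (hc : c ∈ C) {u : ℝ} (hu : 0 < u) :
    ∃ A ∈ C, A 0 = c 0 ∧ ∀ σ : G, σ • c 0 = c 0 → σ • c u = c u →
      ∀ t ≥ 0, ∃ t' ≥ 0, σ • A t = A t' := by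
  have hpi := Real.pi_pos
  have hk : 0 < u / (Real.pi / 2) := by positivity
  have hf : StrictMono fun t => u / (Real.pi / 2) * Real.arctan t :=
    Real.arctan_strictMono.const_mul hk
  have hlt : ∀ t, u / (Real.pi / 2) * Real.arctan t < u := fun t => by
    calc u / (Real.pi / 2) * Real.arctan t < u / (Real.pi / 2) * (Real.pi / 2) :=
          mul_lt_mul_of_pos_left (Real.arctan_lt_pi_div_two t) hk
      _ = u := by field_simp
  refine ⟨fun t => c (u / (Real.pi / 2) * Real.arctan t),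
    h.reparam hc hf (continuous_const.mul Real.continuous_arctan), by simp, ?_⟩
  intro σ h0 h1 t ht
  have ht0 : 0 ≤ u / (Real.pi / 2) * Real.arctan t := by
    have := hf.monotone ht
    simpa using this
  have hd := h.pre.smul σ c hc
  obtain ⟨z, hz0, hzu, hz⟩ := h.conv hd hc h0 h1 ht0 (hlt t).le
  have hzu' : z < u := by
    refine lt_of_le_of_ne hzu fun e => ?_
    rw [e, ← h1] at hz
    exact (hlt t).ne (h.inj hd hz)
  have hx0 : 0 ≤ z / u * (Real.pi / 2) := by positivity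
  have hx1 : z / u * (Real.pi / 2) < Real.pi / 2 :=
    mul_lt_of_lt_one_left (by positivity) ((div_lt_one hu).2 hzu')
  refine ⟨Real.tan (z / u * (Real.pi / 2)),
    Real.tan_nonneg_of_nonneg_of_le_pi_div_two hx0 hx1.le, ?_⟩
  show σ • c _ = c _
  rw [Real.arctan_tan (by linarith) hx1]
  have : u / (Real.pi / 2) * (z / u * (Real.pi / 2)) = z := by field_simp
  rw [this]
  exact hz

/-- A contracting element: the union of the translates of a segment. -/
theorem armB_con (h : OM G C up) {c : ℝ → X} (hc : c ∈ C) {σ : G} (h0 : σ • c 0 = c 0)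
    {u v : ℝ} (hv : 0 < v) (hvu : v < u) (h1 : σ • c u = c v) :
    ∃ A ∈ C, A 0 = c 0 ∧ (∀ t ≥ 0, ∃ t' ≥ 0, σ • A t = A t') ∧
      ∀ t ≥ 0, ∃ t' ≥ 0, σ⁻¹ • A t = A t' := by
  obtain ⟨δ, hδ⟩ : ∃ δ, δ = u - v := ⟨_, rfl⟩
  have hδ0 : 0 < δ := by linarith
  have h1' : σ⁻¹ • c v = c u := by rw [← h1, inv_smul_smul]
  have h0' : σ⁻¹ • c 0 = c 0 := by rw [inv_smul_eq_iff, h0]
  have hd := h.pre.smul σ⁻¹ c hc
  obtain ⟨a, ha, ha1, ha2⟩ := h.lg_splice (s := u) (t := v) hc hd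
    (by
      show LG C (c u) (σ⁻¹ • c v)
      rw [h1']
      exact h.lg_refl _)
  obtain ⟨A, hA⟩ : ∃ A : ℝ → X,
      ∀ t, A t = σ⁻¹ ^ ⌈(t - u) / δ⌉₊ • c (t - ⌈(t - u) / δ⌉₊ * δ) := ⟨_, fun _ => rfl⟩
  have K1 : ∀ (n : ℕ) (t : ℝ), t - n * δ ≤ u → (n = 0 ∨ v ≤ t - n * δ) →
      A t = σ⁻¹ ^ n • c (t - n * δ) := by
    intro n t h2 h3
    have hm : ⌈(t - u) / δ⌉₊ ≤ n := by
      rw [Nat.ceil_le, div_le_iff₀ hδ0]
      linarith
    rcases hm.eq_or_lt with e | hlt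
    · rw [hA, e]
    · have h4 : v ≤ t - n * δ := h3.resolve_left (by omega)
      have h5 : (t - u) / δ ≤ ⌈(t - u) / δ⌉₊ := Nat.le_ceil _
      rw [div_le_iff₀ hδ0] at h5
      rw [hA]
      generalize ⌈(t - u) / δ⌉₊ = m at *
      have h6 : (m : ℝ) + 1 ≤ n := by exact_mod_cast hlt
      have h7 : ((m : ℝ) + 1) * δ ≤ n * δ := mul_le_mul_of_nonneg_right h6 hδ0.le
      have h8 : (n : ℝ) * δ = (m + 1) * δ := by linarith
      have h9 : n = m + 1 := by exact_mod_cast mul_right_cancel₀ hδ0.ne' h8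
      have e1 : t - m * δ = u := by linarith
      have e2 : t - n * δ = v := by linarith
      rw [e1, e2, h9, pow_succ, mul_smul, h1']
  have K2 : ∀ (n : ℕ) (t : ℝ), t - n * δ ≤ u + δ → (n = 0 ∨ v ≤ t - n * δ) →
      A t = σ⁻¹ ^ n • a (t - n * δ - u) := by
    intro n t h2 h3
    rcases lt_or_ge (t - n * δ) u with h4 | h4
    · rw [K1 n t h4.le h3, ha1 _ (by linarith)]
      congr 2
      ring
    · rw [K1 (n + 1) t (by push_cast; linarith) (Or.inr (by push_cast; linarith)),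
        ha2 _ (by linarith), pow_succ, mul_smul]
      congr 3
      push_cast
      linarith
  have K3 : ∀ t : ℝ, ∃ n : ℕ, t - n * δ ≤ u ∧ (n = 0 ∨ v < t - n * δ) := by
    intro t
    refine ⟨⌈(t - u) / δ⌉₊, ?_, ?_⟩
    · have h5 : (t - u) / δ ≤ ⌈(t - u) / δ⌉₊ := Nat.le_ceil _
      rw [div_le_iff₀ hδ0] at h5
      linarith
    · rcases le_or_gt ((t - u) / δ) 0 with h5 | h5
      · exact Or.inl (Nat.ceil_eq_zero.2 h5)
      · have h6 := Nat.ceil_lt_add_one h5.le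
        have h7 : (⌈(t - u) / δ⌉₊ : ℝ) - 1 < (t - u) / δ := by linarith
        rw [lt_div_iff₀ hδ0] at h7
        exact Or.inr (by linarith)
  have K0 : ∀ z, z ≤ u → A z = c z := fun z hz => by
    simpa using K1 0 z (by simpa using hz) (Or.inl rfl)
  refine ⟨A, h.sat A fun t => ?_, K0 0 (by linarith), fun t ht => ?_, fun t ht => ?_⟩
  · obtain ⟨n, h2, h3⟩ := K3 t
    obtain ⟨ε, hε, hε1, hε2⟩ : ∃ ε > 0, ε ≤ δ ∧ (n = 0 ∨ ε ≤ t - n * δ - v) := by
      rcases h3 with h3 | h3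
      · exact ⟨δ, hδ0, le_rfl, Or.inl h3⟩
      · exact ⟨min δ (t - n * δ - v), lt_min hδ0 (by linarith), min_le_left _ _,
          Or.inr (min_le_right _ _)⟩
    refine ⟨_, h.pre.smul (σ⁻¹ ^ n) a ha, fun w => w - n * δ - u, ε, hε, ?_, ?_, ?_⟩
    · intro x _ y _ hxy
      show x - n * δ - u < y - n * δ - u
      linarith
    · fun_prop
    · intro w hw
      exact K2 n w (by linarith [hw.2]) (hε2.imp id fun h4 => by linarith [hw.1])
  · obtain ⟨n, h2, h3⟩ := K3 t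
    rw [K1 n t h2 (h3.imp id le_of_lt)]
    rcases n with _ | n
    · obtain ⟨z, hz0, hzv, hz⟩ := h.conv (h.pre.smul σ c hc) hc h0 h1 ht (by simpa using h2)
      refine ⟨z, hz0, ?_⟩
      rw [K0 z (by linarith)]
      simpa using hz
    · have h4 : v < t - (n + 1 : ℕ) * δ := h3.resolve_left (by omega)
      have h5 : (0 : ℝ) ≤ n * δ := by positivity
      push_cast at h2 h4
      refine ⟨t - δ, by linarith, ?_⟩
      rw [K1 n (t - δ) (by linarith) (Or.inr (by linarith)), pow_succ', mul_smul, smul_inv_smul]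
      congr 2
      push_cast
      ring
  · obtain ⟨n, h2, h3⟩ := K3 t
    rw [K1 n t h2 (h3.imp id le_of_lt)]
    rcases le_or_gt v (t - n * δ) with h4 | h4
    · refine ⟨t + δ, by linarith, ?_⟩
      rw [K1 (n + 1) (t + δ) (by push_cast; linarith) (Or.inr (by push_cast; linarith)),
        pow_succ', mul_smul]
      congr 3
      push_cast
      ring
    · have hn : n = 0 := h3.resolve_right (by linarith)
      subst hn
      obtain ⟨z, hz0, hzv, hz⟩ := h.conv hd hc h0' h1' ht (by simpa using h4.le)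
      refine ⟨z, hz0, ?_⟩
      rw [K0 z hzv]
      simpa using hz

/-- Hint: if the germ of `τ` above `μ` has a fixed point at parameter `u > 0`, stretch `[0, u)`;
otherwise `τ` or `τ⁻¹` contracts and the ray is the union of the translates of a segment. -/
theorem OM.arm (h : OM G C up) {τ : G} {μ : X} (hτ : τ • μ = μ) :
    ∃ A ∈ C, A 0 = μ ∧ (∀ t ≥ 0, ∃ t' ≥ 0, τ • A t = A t') ∧
      ∀ t ≥ 0, ∃ t' ≥ 0, τ⁻¹ • A t = A t' := by
  obtain ⟨c0, hc0, t0, e0⟩ := h.pre.cover μ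
  have hc : (fun t => c0 (t + t0)) ∈ C :=
    h.reparam hc0 (fun _ _ hxy => by linarith) (by fun_prop)
  obtain ⟨c, hc, e⟩ : ∃ c ∈ C, c 0 = μ := ⟨_, hc, by simpa using e0⟩
  subst e
  have hd := h.pre.smul τ c hc
  have hn := (h.near hd hc hτ univ_mem).filter_mono (nhdsWithin_le_nhds (s := Ioi 0))
  obtain ⟨u, ⟨v, -, huv⟩, hu⟩ := (hn.and self_mem_nhdsWithin).exists
  have hu : 0 < u := hu
  have huv : τ • c u = c v := huv
  have hv : 0 < v := by
    rw [← h.upc hc, ← huv, ← hτ, h.ups_iff, h.upc hc]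
    exact hu
  rcases lt_trichotomy v u with hlt | heq | hlt
  · exact armB_con h hc hτ hv hlt huv
  · subst heq
    obtain ⟨A, hA, hA0, hA1⟩ := armB_fix h hc hu
    exact ⟨A, hA, hA0, hA1 τ hτ huv,
      hA1 τ⁻¹ (by rw [inv_smul_eq_iff, hτ]) (by rw [inv_smul_eq_iff, huv])⟩
  · obtain ⟨A, hA, hA0, hA1, hA2⟩ := armB_con h hc (σ := τ⁻¹) (by rw [inv_smul_eq_iff, hτ]) hu
      hlt (by rw [inv_smul_eq_iff, huv])
    rw [inv_inv] at hA2
    exact ⟨A, hA, hA0, hA2, hA1⟩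

end Pool.Agent.Work.MP_3d425c_gt.Cy

/-! Invariant rays above a fixed point and their groupoid. -/

namespace Pool.Agent.Work.MP_3d425c_gt.Cy
open Set Filter Topology

variable {G X : Type*} [Group G] [MulAction G X] {C : Set (ℝ → X)} {up : X → X → Prop}

private theorem armC_le {s t : II} (hs : s < 1) (ht : t < 1) : io s ≤ io t ↔ s ≤ t := by
  rw [← not_lt, ← not_lt, io_lt ht hs]

private theorem armC_lt (h : OM G C up) {A : ℝ → X} (hA : A ∈ C) {b : G} {u u' v v' : ℝ}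
    (e1 : b • A u = A u') (e2 : b • A v = A v') : u < v ↔ u' < v' := by
  rw [← h.upc hA u v, ← h.upc hA u' v', ← e1, ← e2, h.ups_iff]

private theorem armC_fun {A : ℝ → X} {γ : G} (h1 : ∀ t ≥ 0, ∃ t' ≥ 0, γ • A t = A t') :
    ∃ F : II → II, (∀ s, s < 1 → F s < 1 ∧ γ • A (io s) = A (io (F s))) ∧ F 1 = 1 := by
  have : ∀ s : II, ∃ s' : II, (s < 1 → s' < 1 ∧ γ • A (io s) = A (io s')) ∧ (s = 1 → s' = 1) := by
    intro s
    by_cases hs : s < 1
    · obtain ⟨t', ht', e⟩ := h1 (io s) (io_nonneg s)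
      obtain ⟨s', hs', rfl⟩ := io_surj ht'
      exact ⟨s', fun _ => ⟨hs', e⟩, fun e1 => absurd e1 hs.ne⟩
    · exact ⟨1, fun h' => absurd h' hs, fun _ => rfl⟩
  choose F hF using this
  exact ⟨F, fun s hs => (hF s).1 hs, (hF 1).2 rfl⟩

private theorem armC_top {s : II} (hs : ¬ s < 1) : s = 1 :=
  le_antisymm unitInterval.le_one' (not_lt.1 hs)

private theorem armC_bd (q : ℝ) : ∃ a : II, a < 1 ∧ ∀ s : II, s < 1 → io s ≤ q → s ≤ a := by
  obtain ⟨a, ha, e⟩ := io_surj (le_max_right q 0)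
  refine ⟨a, ha, fun s hs hq => (armC_le hs ha).1 ?_⟩
  rw [e]
  exact hq.trans (le_max_left _ _)

private theorem armC_closed (h : OM G C up) {A : ℝ → X} (hA : A ∈ C) (b : G) (p q : ℝ) :
    IsClosed {x : II × II | (∃ p', b • A p = A p') ∧ (∃ q', b • A q = A q') ∧
      p ≤ io x.1 ∧ io x.1 ≤ q ∧ x.1 < 1 ∧ x.2 < 1 ∧ b • A (io x.1) = A (io x.2)} := by
  apply IsSeqClosed.isClosed
  intro x y hx hy
  obtain ⟨⟨p', ep⟩, ⟨q', eq'⟩, -⟩ := hx 0
  have hy1 : Tendsto (fun n => (x n).1) atTop (𝓝 y.1) := (continuous_fst.tendsto y).comp hy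
  have hy2 : Tendsto (fun n => (x n).2) atTop (𝓝 y.2) := (continuous_snd.tendsto y).comp hy
  obtain ⟨a, ha, hab⟩ := armC_bd q
  obtain ⟨a', ha', hab'⟩ := armC_bd q'
  have l1 : y.1 < 1 := by
    refine lt_of_le_of_lt (le_of_tendsto' hy1 fun n => ?_) ha
    obtain ⟨-, -, -, h2, h3, -, -⟩ := hx n
    exact hab _ h3 h2
  have l2 : y.2 < 1 := by
    refine lt_of_le_of_lt (le_of_tendsto' hy2 fun n => ?_) ha'
    obtain ⟨-, -, -, h2, -, h4, h5⟩ := hx n
    refine hab' _ h4 (not_lt.1 fun hlt => ?_)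
    exact absurd ((armC_lt h hA eq' h5).2 hlt) (not_lt.2 h2)
  have t1 : Tendsto (fun n => io (x n).1) atTop (𝓝 (io y.1)) := (io_cont l1).tendsto.comp hy1
  have t2 : Tendsto (fun n => io (x n).2) atTop (𝓝 (io y.2)) := (io_cont l2).tendsto.comp hy2
  have b1 : p ≤ io y.1 := ge_of_tendsto' t1 fun n => (hx n).2.2.1
  have b2 : io y.1 ≤ q := le_of_tendsto' t1 fun n => (hx n).2.2.2.1
  have hb := h.pre.smul b A hA
  obtain ⟨z, -, -, ez⟩ := h.conv hb hA ep eq' b1 b2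
  have t3 : Tendsto (fun n => io (x n).2) atTop (𝓝 z) := by
    intro N hN
    have hev := t1.eventually (h.near hb hA ez hN)
    refine mem_map.2 (mem_of_superset hev fun n hn => ?_)
    obtain ⟨v', hv', e'⟩ := hn
    have e2 : A (io (x n).2) = A v' := ((hx n).2.2.2.2.2.2).symm.trans e'
    have := h.inj hA e2
    show io (x n).2 ∈ N
    rw [this]
    exact hv'
  have ez' : io y.2 = z := tendsto_nhds_unique t2 t3
  refine ⟨⟨p', ep⟩, ⟨q', eq'⟩, b1, b2, l1, l2, ?_⟩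
  rw [ez']
  exact ez

theorem OM.armI (h : OM G C up) {τ : G} {μ : X} (hτ : τ • μ = μ) :
    ∃ A ∈ C, A 0 = μ ∧ ∃ T : II ≃o II, ∀ s, s < 1 → τ • A (io s) = A (io (T s)) := by
  obtain ⟨A, hA, h0, h1, h2⟩ := h.arm hτ
  obtain ⟨F, hF, hF1⟩ := armC_fun h1
  obtain ⟨F', hF', hF1'⟩ := armC_fun h2
  have hm : StrictMono F := by
    intro s t hst
    have hs : s < 1 := lt_of_lt_of_le hst unitInterval.le_one'
    by_cases ht : t < 1
    · exact (io_lt (hF s hs).1 (hF t ht).1).1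
        ((armC_lt h hA (hF s hs).2 (hF t ht).2).1 ((io_lt hs ht).2 hst))
    · rw [armC_top ht, hF1]
      exact (hF s hs).1
  have hr : Function.RightInverse F' F := by
    intro s
    by_cases hs : s < 1
    · obtain ⟨l1, e1⟩ := hF' s hs
      obtain ⟨l2, e2⟩ := hF _ l1
      rw [← e1, smul_inv_smul] at e2
      have e3 := h.inj hA e2
      exact le_antisymm ((armC_le l2 hs).1 e3.ge) ((armC_le hs l2).1 e3.le)
    · rw [armC_top hs, hF1', hF1]
  exact ⟨A, hA, h0, hm.orderIsoOfRightInverse F F' hr, fun s hs => (hF s hs).2⟩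

theorem OM.grpd (h : OM G C up) {A : ℝ → X} (hA : A ∈ C) :
    Grpd (fun (b : G) (s t : II) => s < 1 ∧ t < 1 ∧ b • A (io s) = A (io t)) := by
  refine ⟨fun b s t hb => hb.1, fun s hs => ⟨hs, hs, one_smul _ _⟩, ?_, ?_, ?_, ?_, ?_, ?_, ?_⟩
  · rintro b b' s t u ⟨h1, -, e1⟩ ⟨-, h2, e2⟩
    exact ⟨h1, h2, by rw [mul_smul, e1, e2]⟩
  · rintro b s t ⟨h1, h2, e⟩
    exact ⟨h2, h1, by rw [← e, inv_smul_smul]⟩
  · rintro b s s' t t' ⟨h1, h2, e1⟩ ⟨h3, h4, e2⟩ hst
    exact (io_lt h2 h4).1 ((armC_lt h hA e1 e2).1 ((io_lt h1 h3).2 hst))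
  · rintro b u u' v v' w ⟨h1, h2, e1⟩ ⟨h3, h4, e2⟩ hu hv
    have hw : w < 1 := lt_of_le_of_lt hv h4
    have hb := h.pre.smul b A hA
    obtain ⟨z, hz, -, ez⟩ := h.conv hA hb e1.symm e2.symm ((armC_le h2 hw).2 hu)
      ((armC_le hw h4).2 hv)
    obtain ⟨s, hs, rfl⟩ := io_surj ((io_nonneg u).trans hz)
    exact ⟨s, hs, hw, ez.symm⟩
  · intro b
    obtain ⟨f, hf⟩ := exists_surjective_nat (ℚ × ℚ)
    refine ⟨fun m => {x : II × II | (∃ p', b • A ((f m).1 : ℝ) = A p') ∧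
      (∃ q', b • A ((f m).2 : ℝ) = A q') ∧ ((f m).1 : ℝ) ≤ io x.1 ∧ io x.1 ≤ ((f m).2 : ℝ) ∧
      x.1 < 1 ∧ x.2 < 1 ∧ b • A (io x.1) = A (io x.2)},
      fun m => armC_closed h hA b _ _, fun s t => ⟨?_, ?_⟩⟩
    · rintro ⟨h1, h2, e⟩
      have hb := h.pre.smul b A hA
      have ho := (h.opn hb hA).mem_nhds (x := io s) ⟨io t, e⟩
      obtain ⟨l, r, ⟨hl, hr⟩, hsub⟩ := mem_nhds_iff_exists_Ioo_subset.1 ho
      obtain ⟨p, hp1, hp2⟩ := exists_rat_btwn hl
      obtain ⟨q, hq1, hq2⟩ := exists_rat_btwn hr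
      obtain ⟨m, hm⟩ := hf (p, q)
      refine ⟨m, ?_⟩
      simp only [hm, mem_ofPred_eq]
      exact ⟨hsub ⟨hp1, hp2.trans hr⟩, hsub ⟨hl.trans hq1, hq2⟩, hp2.le, hq1.le, h1, h2, e⟩
    · rintro ⟨m, -, -, -, -, h1⟩
      exact h1
  · rintro a b s ⟨-, -, e1⟩ ⟨-, -, e2⟩
    exact h.good.ab _ a b e1 e2
  · intro a ha u v huv
    by_cases hv : v < 1
    · have hu : u < 1 := huv.trans hv
      obtain ⟨t, ⟨ht1, ht2⟩, hn⟩ := h.good.nf a ha A hA _ _ ((io_lt hu hv).2 huv)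
      obtain ⟨s, hs, rfl⟩ := io_surj ((io_nonneg u).trans ht1)
      exact ⟨s, ⟨(armC_le hu hs).1 ht1, (armC_le hs hv).1 ht2⟩, fun hh => hn hh.2.2⟩
    · exact ⟨v, ⟨huv.le, le_rfl⟩, fun hh => hv hh.1⟩

end Pool.Agent.Work.MP_3d425c_gt.Cy

/-! Junctions of closed half-spaces. -/

namespace Pool.Agent.Work.MP_3d425c_gt.Cy
open Set Filter Topology

variable {G X : Type*} [Group G] [MulAction G X] {C : Set (ℝ → X)} {up : X → X → Prop}

/-- Closed upper (`true`) and closed lower (`false`) side of a point. -/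
def hm (up : X → X → Prop) (h : X × Bool) (x : X) : Prop :=
  if h.2 = true then (up h.1 x ∨ x = h.1) else ¬ up h.1 x

/-- Half-spaces of the same junction. -/
def hE (C : Set (ℝ → X)) (h h' : X × Bool) : Prop :=
  h.2 = h'.2 ∧ if h.2 = true then LG C h.1 h'.1 else LG (dualC C) h.1 h'.1

def Jump (C : Set (ℝ → X)) (up : X → X → Prop) (j : X × Bool) (x y : X) : Prop :=
  ∃ h h', hE C j h ∧ hE C j h' ∧ h ≠ h' ∧ hm up h x ∧ hm up h' y

def Same (C : Set (ℝ → X)) (up : X → X → Prop) (j : X × Bool) (x y : X) : Prop :=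
  ∀ h, hE C j h → (hm up h x ↔ hm up h y)

def Centre (C : Set (ℝ → X)) (up : X → X → Prop) (j : X × Bool) (x y z : X) : Prop :=
  ¬ Same C up j x y ∧ ¬ Same C up j y z ∧ ¬ Same C up j z x

namespace OM
variable (h : OM G C up)
include h

theorem windA_self (a : X × Bool) : hm up a a.1 := by
  obtain ⟨a, _ | _⟩ := a
  · simpa [hm] using h.irr a
  · simp [hm]

theorem windA_dual (a x : X) : (dualU up a x ∨ x = a) ↔ ¬ up a x := by
  constructor
  · rintro (e | rfl)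
    · exact e.1
    · exact h.irr _
  · intro e
    by_cases q : x = a
    · exact Or.inr q
    · exact Or.inl ⟨e, fun r => q r.symm⟩

theorem hE_equiv : Equivalence (hE C) := by
  refine ⟨?_, ?_, ?_⟩
  · rintro ⟨a, _ | _⟩
    · simpa [hE] using h.dual.lg_refl a
    · simpa [hE] using h.lg_refl a
  · rintro ⟨a, _ | _⟩ ⟨b, _ | _⟩ e <;> simp only [hE] at e ⊢
    · exact ⟨trivial, by simpa using lg_symm (by simpa using e.2)⟩
    · simp at e
    · simp at e
    · exact ⟨trivial, by simpa using lg_symm (by simpa using e.2)⟩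
  · rintro ⟨a, _ | _⟩ ⟨b, _ | _⟩ ⟨d, _ | _⟩ e e' <;> simp [hE] at e e' ⊢
    · exact h.dual.lg_trans e e'
    · exact h.lg_trans e e'

theorem windA_disj {a b x : X} (e : LG C a b) (ha : up a x ∨ x = a) (hb : up b x ∨ x = b) :
    a = b := by
  by_contra q
  exact h.disj (h.lg_not_up e) (h.lg_not_up (lg_symm e)) q ha hb

theorem hm_unique {a b : X × Bool} {x : X} (e : hE C a b) (ha : hm up a x) (hb : hm up b x) :
    a = b := by
  obtain ⟨a, _ | _⟩ := a <;> obtain ⟨b, _ | _⟩ := b <;> simp [hE, hm] at e ha hb ⊢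
  · exact h.dual.windA_disj e ((h.windA_dual a x).2 ha) ((h.windA_dual b x).2 hb)
  · exact h.windA_disj e ha hb

/-- A half-space missing `a` lies on one side of `a`. -/
theorem windA_nest {b : X × Bool} {a p : X} (ha : ¬ hm up b a) (hp : hm up b p) :
    up a p ↔ up a b.1 := by
  obtain ⟨b, _ | _⟩ := b <;> simp [hm] at ha hp ⊢
  · exact h.sep' ha hp
  · exact h.sep ha.1 ha.2 hp

theorem windA_nest' {b : X × Bool} {a p : X} (β : Bool) (ha : ¬ hm up b a) (hp : hm up b p) :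
    hm up (a, β) p ↔ hm up (a, β) b.1 := by
  have k := h.windA_nest ha hp
  have k1 : p ≠ a := fun q => ha (q ▸ hp)
  have k2 : b.1 ≠ a := fun q => ha (q ▸ h.windA_self b)
  cases β <;> simp [hm, k, k1, k2]

omit h in
theorem windA_compl {b p : X} {β : Bool} (hp : ¬ hm up (b, β) p) : hm up (b, !β) p := by
  cases β <;> simp [hm] at hp ⊢
  · exact Or.inl hp
  · exact hp.1

omit h in
theorem windA_compl' {b p : X} {β : Bool} (hp : hm up (b, β) p) (q : p ≠ b) :
    ¬ hm up (b, !β) p := by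
  cases β <;> simp [hm, q] at hp ⊢ <;> exact hp

/-- The points of a junction lie on the same side of a half-space of another junction. -/
theorem windA_side {a n n' : X × Bool} (e : hE C n n') (q : ¬ hE C a n) :
    hm up a n.1 → hm up a n'.1 := by
  have q' : ¬ hE C a n' := fun r => q (h.hE_equiv.trans r (h.hE_equiv.symm e))
  have r1 : a ≠ n := fun r => q (r ▸ h.hE_equiv.refl a)
  have r2 : a ≠ n' := fun r => q' (r ▸ h.hE_equiv.refl a)
  obtain ⟨a, _ | _⟩ := a <;> obtain ⟨n, _ | _⟩ := n <;> obtain ⟨n', _ | _⟩ := n' <;>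
    simp [hE, hm] at e r1 r2 ⊢
  · intro k
    exact (h.dual.lg_up e ⟨k, r1⟩).1
  · exact fun k k' => k (h.lg_up (lg_symm e) k')
  · intro k
    by_contra k'
    push Not at k'
    have := h.dual.lg_up (lg_symm e) (⟨k'.1, fun r => k'.2 r.symm⟩ : dualU up a n')
    rcases k with k | k
    · exact this.1 k
    · exact this.2 k.symm
  · rintro (k | k)
    · exact Or.inl (h.lg_up e k)
    · exact absurd k.symm r1

theorem windA_same {j a : X × Bool} {x y : X} (e : hE C j a) (hx : hm up a x) (hy : hm up a y) :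
    Same C up j x y := fun b eb =>
  have k := h.hE_equiv.trans (h.hE_equiv.symm e) eb
  ⟨fun q => h.hm_unique k hx q ▸ hy, fun q => h.hm_unique k hy q ▸ hx⟩

theorem windA_up {a b : X × Bool} {x : X} (e : hE C a b) (ha : ¬ hm up a x) (hb : ¬ hm up b x) :
    up x a.1 ↔ up x b.1 := by
  obtain ⟨a, _ | _⟩ := a <;> obtain ⟨b, _ | _⟩ := b <;> simp [hE, hm] at e ha hb ⊢
  · have k1 : x ≠ a := fun q => h.irr a (q ▸ ha)
    have k2 : x ≠ b := fun q => h.irr b (q ▸ hb)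
    constructor
    · intro k
      by_contra k'
      exact (h.dual.lg_up (lg_symm e) (⟨k', k2⟩ : dualU up x b)).1 k
    · intro k
      by_contra k'
      exact (h.dual.lg_up e (⟨k', k1⟩ : dualU up x a)).1 k
  · exact ⟨h.lg_up e, h.lg_up (lg_symm e)⟩

/-- With a centre no point separates the other two. Hint: if `x` lies in a half-space `μ` of the
junction, `y` and `z` do not, use `sep`, `sep'`; otherwise `y`, `z` lie in half-spaces with
points `ν`, `ν'` not separated, and `x` sees `y` like `ν`. -/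
theorem centre_sep {j : X × Bool} {x y z : X} (hc : Centre C up j x y z) : up x y ↔ up x z := by
  obtain ⟨h1, -, h3⟩ := hc
  by_cases q : ∃ a, hE C j a ∧ hm up a x
  · obtain ⟨⟨a, β⟩, e, hx⟩ := q
    have hy : ¬ hm up (a, β) y := fun k => h1 (h.windA_same e hx k)
    have hz : ¬ hm up (a, β) z := fun k => h3 (h.windA_same e k hx)
    by_cases r : x = a
    · subst r
      cases β <;> simp [hm] at hy hz
      · exact ⟨fun _ => hz, fun _ => hy⟩
      · exact ⟨fun k => absurd k hy.1, fun k => absurd k hz.1⟩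
    · have k := windA_compl' hx r
      exact (h.windA_nest k (windA_compl hy)).trans (h.windA_nest k (windA_compl hz)).symm
  · have q' : ∀ a, hE C j a → ¬ hm up a x := fun a e k => q ⟨a, e, k⟩
    obtain ⟨a, ea, ha⟩ : ∃ a, hE C j a ∧ hm up a y := by
      by_contra r
      exact h1 fun a e => ⟨fun k => absurd k (q' a e), fun k => absurd ⟨a, e, k⟩ r⟩
    obtain ⟨b, eb, hb⟩ : ∃ b, hE C j b ∧ hm up b z := by
      by_contra r
      exact h3 fun a e => ⟨fun k => absurd ⟨a, e, k⟩ r, fun k => absurd k (q' a e)⟩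
    exact (h.windA_nest (q' a ea) ha).trans ((h.windA_up
      (h.hE_equiv.trans (h.hE_equiv.symm ea) eb) (q' a ea) (q' b eb)).trans
        (h.windA_nest (q' b eb) hb).symm)

theorem windA_pos {j j' : X × Bool} {p : X} (q : ¬ hE C j j') (hp : ¬ Same C up j' p j.1) :
    Same C up j p j'.1 := by
  have E := h.hE_equiv
  obtain ⟨⟨b, γ⟩, eb, hb⟩ : ∃ b, hE C j' b ∧ ¬ (hm up b p ↔ hm up b j.1) := by
    by_contra r
    exact hp fun b e => by_contra fun k => r ⟨b, e, k⟩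
  rintro ⟨a, β⟩ ea
  have n1 : ¬ hE C (b, γ) j := fun r => q (E.symm (E.trans eb r))
  have n2 : ¬ hE C (b, γ) (a, β) := fun r => n1 (E.trans r (E.symm ea))
  have n3 : ¬ hE C (a, β) j' := fun r => q (E.trans ea r)
  have k1 : hm up (b, γ) j.1 ↔ hm up (b, γ) a :=
    ⟨h.windA_side ea n1, h.windA_side (E.symm ea) n2⟩
  have k2 : hm up (a, β) b ↔ hm up (a, β) j'.1 :=
    ⟨h.windA_side (E.symm eb) fun r => n2 (E.symm r), h.windA_side eb n3⟩
  refine Iff.trans ?_ k2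
  rw [k1] at hb
  by_cases r : hm up (b, γ) a
  · have r' : ¬ hm up (b, γ) p := fun k => hb ⟨fun _ => r, fun _ => k⟩
    by_cases w : a = b
    · subst w
      have : β = !γ := by
        cases β <;> cases γ <;> first | rfl | exact absurd (E.refl _) n2
      subst this
      exact ⟨fun _ => h.windA_self (a, !γ), fun _ => windA_compl r'⟩
    · exact h.windA_nest' (b := (b, !γ)) β (windA_compl' r w) (windA_compl r')
  · have r' : hm up (b, γ) p := by
      by_contra k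
      exact hb ⟨fun k' => absurd k' k, fun k' => absurd k' r⟩
    exact h.windA_nest' (b := (b, γ)) β r r'

/-- Hint: for different junctions `j`, `j'` all points of `j'` have the same position `o` for
`j`, all points of `j` the same position `o'` for `j'`, and a point whose position for `j'` is
not `o'` has position `o` for `j`. -/
theorem centre_unique {j j' : X × Bool} {x y z : X} (hc : Centre C up j x y z)
    (hc' : Centre C up j' x y z) : hE C j j' := by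
  by_contra q
  have tr : ∀ {i : X × Bool} {u v w : X}, Same C up i u w → Same C up i v w → Same C up i u v :=
    fun a b c e => (a c e).trans (b c e).symm
  by_cases hx : Same C up j' x j.1
  · exact hc.2.1 (tr (h.windA_pos q fun k => hc'.1 (tr hx k))
      (h.windA_pos q fun k => hc'.2.2 (tr k hx)))
  · by_cases hy : Same C up j' y j.1
    · exact hc.2.2 (tr (h.windA_pos q fun k => hc'.2.1 (tr hy k)) (h.windA_pos q hx))
    · exact hc.1 (tr (h.windA_pos q hx) (h.windA_pos q hy))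

theorem windA_mono {c} (hc : c ∈ C) {a : X × Bool} {s t : ℝ}
    (hst : if a.2 = true then s ≤ t else t ≤ s) (ha : hm up a (c s)) : hm up a (c t) := by
  obtain ⟨a, _ | _⟩ := a <;> simp [hm] at hst ha ⊢
  · exact fun k => ha (h.mono hc hst k)
  · rcases ha with k | k
    · exact Or.inl (h.mono hc hst k)
    · rcases hst.eq_or_lt with rfl | w
      · exact Or.inr k
      · exact Or.inl (k ▸ (h.upc hc s t).2 w)

theorem windA_chart {c} (hc : c ∈ C) (β : Bool) (v t : ℝ) :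
    hm up (c v, β) (c t) ↔ if β = true then v ≤ t else t ≤ v := by
  cases β <;> simp [hm, h.upc hc]
  constructor
  · rintro (k | k)
    · exact k.le
    · exact (h.inj hc k).ge
  · intro k
    rcases k.eq_or_lt with rfl | w
    · exact Or.inr rfl
    · exact Or.inl w

omit h in
theorem windA_total (β : Bool) (s t : ℝ) :
    (if β = true then s ≤ t else t ≤ s) ∨ (if β = true then t ≤ s else s ≤ t) := by
  cases β <;> simp [le_total]

theorem chart_in {c} (hc : c ∈ C) (j : X × Bool) (s t : ℝ) : ¬ Jump C up j (c s) (c t) := by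
  rintro ⟨a, b, ea, eb, ne, ha, hb⟩
  have e := h.hE_equiv.trans (h.hE_equiv.symm ea) eb
  rcases windA_total a.2 s t with k | k
  · exact ne (h.hm_unique e (h.windA_mono hc k ha) hb)
  · exact ne (h.hm_unique e ha (h.windA_mono hc (e.1 ▸ k) hb))

theorem windA_free {c} (hc : c ∈ C) {x : X} {j : X × Bool}
    (q : ¬ ∃ a b v, hE C j a ∧ hE C j b ∧ a ≠ b ∧ hm up a x ∧ b.1 = c v) (s t : ℝ) :
    Jump C up j x (c s) → Jump C up j x (c t) := by
  rintro ⟨a, ⟨b, β⟩, ea, eb, ne, ha, hb⟩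
  have k : ∀ v, b ≠ c v := fun v r => q ⟨a, (b, β), v, ea, eb, ne, ha, r⟩
  refine ⟨a, (b, β), ea, eb, ne, ha, ?_⟩
  cases β <;> simp [hm] at hb ⊢
  · exact fun r => hb (h.upk hc k t s r)
  · rcases hb with r | r
    · exact Or.inl (h.upk hc k s t r)
    · exact absurd r.symm (k s)

theorem windA_att {c} (hc : c ∈ C) {x : X} {j a : X × Bool} {β : Bool} {v : ℝ} (ea : hE C j a)
    (eb : hE C j (c v, β)) (ne : a ≠ (c v, β)) (ha : hm up a x) (t : ℝ) :
    (Jump C up j x (c t) ↔ if β = true then v ≤ t else t ≤ v) ∧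
      (up (c t) x ↔ if β = true then t < v else t ≤ v) := by
  have E := h.hE_equiv
  have e : hE C a (c v, β) := E.trans (E.symm ea) eb
  have e2 : a.2 = β := e.1
  have out : ¬ hm up a (c t) := fun k => by
    rcases windA_total β t v with w | w
    · exact ne (h.hm_unique e (h.windA_mono hc (e2 ▸ w) k) (h.windA_self (c v, β)))
    · exact ne (h.hm_unique e k ((h.windA_chart hc β v t).2 w))
  constructor
  · constructor
    · rintro ⟨a', b', ea', eb', -, -, hb'⟩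
      have e' : hE C b' (c v, β) := E.trans (E.symm eb') eb
      rcases windA_total β v t with w | w
      · exact w
      · have := h.hm_unique e' (h.windA_mono hc ((show b'.2 = β from e'.1) ▸ w) hb')
          (h.windA_self (c v, β))
        exact (h.windA_chart hc β v t).1 (this ▸ hb')
    · exact fun w => ⟨a, (c v, β), ea, eb, ne, ha, (h.windA_chart hc β v t).2 w⟩
  · rw [h.windA_nest out ha]
    have k : c t ≠ a.1 := fun r => out (r ▸ h.windA_self a)
    obtain ⟨a, γ⟩ := a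
    dsimp only at e2 k ⊢
    subst e2
    cases γ <;> simp [hE] at e ⊢
    · constructor
      · intro r
        by_contra w
        push Not at w
        exact (h.dual.lg_up (lg_symm e) (⟨fun z => lt_asymm w ((h.upc hc t v).1 z),
          fun z => w.ne' (h.inj hc z)⟩ : dualU up (c t) (c v))).1 r
      · intro w
        by_contra r
        have z := h.dual.lg_up e (⟨r, k⟩ : dualU up (c t) a)
        rcases w.eq_or_lt with rfl | w
        · exact z.2 rfl
        · exact z.1 ((h.upc hc t v).2 w)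
    · exact ⟨fun r => (h.upc hc t v).1 (h.lg_up e r),
        fun w => h.lg_up (lg_symm e) ((h.upc hc t v).2 w)⟩

theorem windA_ex {c} (hc : c ∈ C) {x : X} (hx : ∀ t, x ≠ c t) {s t : ℝ} (hs : up (c s) x)
    (ht : ¬ up (c t) x) :
    ∃ j a b v, hE C j a ∧ hE C j b ∧ a ≠ b ∧ hm up a x ∧ b.1 = c v := by
  have E := h.hE_equiv
  have down : ∀ u u', u ≤ u' → up (c u') x → up (c u) x := fun u u' w k => by
    rcases w.eq_or_lt with rfl | w
    · exact k
    · exact h.sub ((h.upc hc u u').2 w) (fun z => lt_asymm w ((h.upc hc u' u).1 z)) k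
  have bd : BddAbove {u | up (c u) x} :=
    ⟨t, fun u k => le_of_not_gt fun w => ht (down t u w.le k)⟩
  have ne : {u | up (c u) x}.Nonempty := ⟨s, hs⟩
  obtain ⟨v, hv⟩ : ∃ v, v = sSup {u | up (c u) x} := ⟨_, rfl⟩
  by_cases q : up (c v) x
  · have hc' : (fun u => c (-u)) ∈ dualC C := by simpa [dualC] using hc
    obtain ⟨μ, e, k⟩ := h.dual.cut hc' (v := -v) (x := x) fun u w =>
      ⟨fun z => by
        have : -u ≤ v := hv ▸ le_csSup bd z
        linarith, fun z => hx _ z.symm⟩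
    have k' := (h.windA_dual μ x).1 k
    simp only [neg_neg] at e
    refine ⟨(c v, false), (μ, false), (c v, false), v, ?_, E.refl _, ?_, ?_, rfl⟩
    · simpa [hE] using lg_symm e
    · intro r
      exact k' ((Prod.mk.inj r).1 ▸ q)
    · simpa [hm] using k'
  · obtain ⟨μ, e, k⟩ := h.cut hc (v := v) (x := x) fun u w => by
      obtain ⟨u', z, w'⟩ := exists_lt_of_lt_csSup ne (hv ▸ w)
      exact down u u' w'.le z
    refine ⟨(c v, true), (μ, true), (c v, true), v, ?_, E.refl _, ?_, ?_, rfl⟩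
    · simpa [hE] using lg_symm e
    · intro r
      have r' : μ = c v := (Prod.mk.inj r).1
      rcases k with k | k
      · exact q (r' ▸ k)
      · exact hx v (k.trans r')
    · simpa [hm] using k

/-- Along a chart missing `x` at most one junction is attached. Hint: call `j` attached if it has
half-spaces `a ≠ b` with `x` in `a` and the point of `b` equal to `c v`; then `up (c t) x` holds
iff `t < v` (upper type) or iff `t ≤ v` (lower type). If none is attached, `cut` and its dual show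
that `up (c t) x` does not depend on `t`. -/
theorem chart_out {c} (hc : c ∈ C) {x : X} (hx : ∀ t, x ≠ c t) (s t : ℝ) :
    ((∀ j, Jump C up j x (c s) ↔ Jump C up j x (c t)) ∧ (up (c s) x ↔ up (c t) x)) ∨
    ∃ j₀, (∀ j, ¬ hE C j j₀ → (Jump C up j x (c s) ↔ Jump C up j x (c t))) ∧
      ¬ (Jump C up j₀ x (c s) ↔ Jump C up j₀ x (c t)) ∧ ¬ (up (c s) x ↔ up (c t) x) := by
  have E := h.hE_equiv
  have key : ∀ j, (∃ a b v, hE C j a ∧ hE C j b ∧ a ≠ b ∧ hm up a x ∧ b.1 = c v) →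
      ((Jump C up j x (c s) ↔ Jump C up j x (c t)) ↔ (up (c s) x ↔ up (c t) x)) := by
    rintro j ⟨a, ⟨b, β⟩, v, ea, eb, ne, ha, rfl⟩
    have k1 := h.windA_att hc ea eb ne ha s
    have k2 := h.windA_att hc ea eb ne ha t
    rw [k1.1, k1.2, k2.1, k2.2]
    cases β
    · simp
    · simp only [if_true, ← not_lt (a := v)]
      simp only [← not_le]
      exact not_iff_not.symm
  by_cases q : up (c s) x ↔ up (c t) x
  · refine Or.inl ⟨fun j => ?_, q⟩
    by_cases r : ∃ a b v, hE C j a ∧ hE C j b ∧ a ≠ b ∧ hm up a x ∧ b.1 = c v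
    · exact (key j r).2 q
    · exact ⟨h.windA_free hc r s t, h.windA_free hc r t s⟩
  · obtain ⟨j₀, r₀⟩ : ∃ j a b v, hE C j a ∧ hE C j b ∧ a ≠ b ∧ hm up a x ∧ b.1 = c v := by
      by_cases w : up (c s) x
      · exact h.windA_ex hc hx w fun z => q ⟨fun _ => z, fun _ => w⟩
      · exact h.windA_ex hc hx (s := t) (t := s)
          (by_contra fun z => q ⟨fun y => absurd y w, fun y => absurd y z⟩) w
    refine Or.inr ⟨j₀, fun j n => ?_, fun z => q ((key j₀ r₀).1 z), q⟩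
    have r : ¬ ∃ a b v, hE C j a ∧ hE C j b ∧ a ≠ b ∧ hm up a x ∧ b.1 = c v := by
      rintro ⟨a, ⟨b, β⟩, v, ea, eb, ne, ha, rfl⟩
      obtain ⟨a', ⟨b', β'⟩, v', ea', eb', ne', ha', rfl⟩ := r₀
      have k : ∀ u, (if β = true then u < v else u ≤ v) ↔ (if β' = true then u < v' else u ≤ v') :=
        fun u => (h.windA_att hc ea eb ne ha u).2.symm.trans (h.windA_att hc ea' eb' ne' ha' u).2
      have k' : v = v' ∧ β = β' := by
        have k1 := k v
        have k2 := k v'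
        have k3 := k ((v + v') / 2)
        cases β <;> cases β' <;> simp at k1 k2 k3 ⊢
        · exact le_antisymm k1 k2
        · exact absurd (k3.2 (by linarith)) (by linarith)
        · exact absurd (k3.1 (by linarith)) (by linarith)
        · exact le_antisymm k2 k1
      obtain ⟨rfl, rfl⟩ := k'
      exact n (E.trans eb (E.symm eb'))
    exact ⟨h.windA_free hc r s t, h.windA_free hc r t s⟩

end OM

end Pool.Agent.Work.MP_3d425c_gt.Cy

/-! Ordered cataclysms give an invariant total order (winding number).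
Plan: `S x y` is the set of classes of `hE` with a `Jump`; it is finite and its cardinality plus
`[up x y] + [up y x]` is odd for `x ≠ y` (both by `conn`, `chart_in`, `chart_out`).
`W x y` is the sum over classes of the sign (by `lo`, `hi`), `φ = 2 W + [up x y] - [up y x]`,
`lt x y` iff `0 < φ x y`. A class contributes to `W x y + W y z + W z x` only if it is a
`Centre`, and then by at most one; three positive values have sum at least three. -/

namespace Pool.Agent.Work.MP_3d425c_gt.Cy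
open Set Filter Topology

variable {G X : Type*} [Group G] [MulAction G X] {C : Set (ℝ → X)} {up : X → X → Prop}

open Classical in
/-- Indicator of a proposition. -/
noncomputable def wdI (p : Prop) : ℤ := if p then 1 else 0

theorem wdI_pos {p : Prop} (hp : p) : wdI p = 1 := by simp [wdI, hp]

theorem wdI_neg {p : Prop} (hp : ¬ p) : wdI p = 0 := by simp [wdI, hp]

theorem wdI_iff {p q : Prop} (e : p ↔ q) : wdI p = wdI q := by rw [propext e]

theorem wdI_cases (p : Prop) : (p ∧ wdI p = 1) ∨ (¬ p ∧ wdI p = 0) := by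
  by_cases hp : p
  · exact Or.inl ⟨hp, wdI_pos hp⟩
  · exact Or.inr ⟨hp, wdI_neg hp⟩

/-- The number of indices at which a predicate holds. -/
noncomputable def wdN {Q : Type*} (p : Q → Prop) : ℤ := ∑ᶠ J, wdI (p J)

theorem wdN_sum {Q : Type*} {p : Q → Prop} {T : Finset Q} (hT : ∀ J, p J → J ∈ T) :
    wdN p = ∑ J ∈ T, wdI (p J) := by
  refine finsum_eq_sum_of_support_subset _ fun J hJ => ?_
  rcases wdI_cases (p J) with h | h
  · exact hT J h.1
  · exact absurd h.2 hJ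

theorem wdN_zero {Q : Type*} {p : Q → Prop} (hp : ∀ J, ¬ p J) : wdN p = 0 := by
  rw [wdN_sum (T := ∅) fun J hJ => absurd hJ (hp J), Finset.sum_empty]

theorem wdN_or {Q : Type*} {p q r : Q → Prop} (hr : {J | r J}.Finite)
    (e : ∀ J, r J ↔ p J ∨ q J) (d : ∀ J, p J → ¬ q J) : wdN r = wdN p + wdN q := by
  have hT : ∀ J, r J → J ∈ hr.toFinset := fun J hJ => hr.mem_toFinset.2 hJ
  rw [wdN_sum hT, wdN_sum (p := p) fun J hJ => hT J ((e J).2 (Or.inl hJ)),
    wdN_sum (p := q) fun J hJ => hT J ((e J).2 (Or.inr hJ)), ← Finset.sum_add_distrib]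
  refine Finset.sum_congr rfl fun J _ => ?_
  have h1 := e J
  have h2 := d J
  rcases wdI_cases (r J) with a | a <;> rcases wdI_cases (p J) with b | b <;>
    rcases wdI_cases (q J) with c | c <;> first | omega | tauto

theorem wdN_flip {Q : Type*} {p q : Q → Prop} (hp : {J | p J}.Finite) (J₀ : Q)
    (e : ∀ J, J ≠ J₀ → (p J ↔ q J)) (d : ¬ (p J₀ ↔ q J₀)) :
    wdN p = wdN q + 1 ∨ wdN q = wdN p + 1 := by
  classical
  have hp' : ∀ J, p J → J ∈ insert J₀ hp.toFinset := fun J hJ =>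
    Finset.mem_insert_of_mem (hp.mem_toFinset.2 hJ)
  have hq' : ∀ J, q J → J ∈ insert J₀ hp.toFinset := fun J hJ => by
    by_cases hJ0 : J = J₀
    · rw [hJ0]; exact Finset.mem_insert_self _ _
    · exact hp' J ((e J hJ0).2 hJ)
  have key : wdN p - wdN q = wdI (p J₀) - wdI (q J₀) := by
    rw [wdN_sum hp', wdN_sum hq', ← Finset.sum_sub_distrib]
    refine Finset.sum_eq_single_of_mem J₀ (Finset.mem_insert_self _ _) fun J _ hJ => ?_
    rw [wdI_iff (e J hJ), sub_self]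
  rcases wdI_cases (p J₀) with a | a <;> rcases wdI_cases (q J₀) with b | b <;>
    first | omega | tauto

/-- The order on the half-spaces of one junction. -/
def wdOrd (lo hi : X → X → Prop) (a b : X × Bool) : Prop :=
  if a.2 = true then lo a.1 b.1 else hi a.1 b.1

/-- A positive jump. -/
def wdPos (C : Set (ℝ → X)) (up lo hi : X → X → Prop) (j : X × Bool) (x y : X) : Prop :=
  ∃ a b, hE C j a ∧ hE C j b ∧ hm up a x ∧ hm up b y ∧ wdOrd lo hi a b

section Ord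
variable {lo hi : X → X → Prop} (hlo : ClassOrd G (LG C) lo) (hhi : ClassOrd G (LG (dualC C)) hi)
include hlo hhi

theorem wdOrd_irr (a : X × Bool) : ¬ wdOrd lo hi a a := by
  obtain ⟨a, _ | _⟩ := a
  · simpa [wdOrd] using hhi.irr a
  · simpa [wdOrd] using hlo.irr a

theorem wdOrd_tri {a b : X × Bool} (e : hE C a b) (hne : a ≠ b) :
    wdOrd lo hi a b ∨ wdOrd lo hi b a := by
  obtain ⟨a, s⟩ := a
  obtain ⟨b, t⟩ := b
  obtain ⟨rfl, e⟩ : s = t ∧ _ := e
  have hab : a ≠ b := fun hab => hne (by rw [hab])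
  cases s
  · simpa [wdOrd] using hhi.tri a b (by simpa using e) hab
  · simpa [wdOrd] using hlo.tri a b (by simpa using e) hab

theorem wdOrd_tr {a b c : X × Bool} (e : hE C a b) (e' : hE C b c) (h1 : wdOrd lo hi a b)
    (h2 : wdOrd lo hi b c) : wdOrd lo hi a c := by
  obtain ⟨a, s⟩ := a
  obtain ⟨b, t⟩ := b
  obtain ⟨c, u⟩ := c
  obtain ⟨rfl, e⟩ : s = t ∧ _ := e
  obtain ⟨rfl, e'⟩ : s = u ∧ _ := e'
  cases s
  · simpa [wdOrd] using hhi.tr a b c (by simpa using e) (by simpa using e')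
      (by simpa [wdOrd] using h1) (by simpa [wdOrd] using h2)
  · simpa [wdOrd] using hlo.tr a b c (by simpa using e) (by simpa using e')
      (by simpa [wdOrd] using h1) (by simpa [wdOrd] using h2)

theorem wdOrd_smul (g : G) {a b : X × Bool} (h1 : wdOrd lo hi a b) :
    wdOrd lo hi (g • a.1, a.2) (g • b.1, b.2) := by
  obtain ⟨a, _ | _⟩ := a
  · simpa [wdOrd] using hhi.inv g a b.1 (by simpa [wdOrd] using h1)
  · simpa [wdOrd] using hlo.inv g a b.1 (by simpa [wdOrd] using h1)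

end Ord

theorem wd_hE_smul (h : OM G C up) (g : G) {a b : X × Bool} (e : hE C a b) :
    hE C (g • a.1, a.2) (g • b.1, b.2) := by
  obtain ⟨a, s⟩ := a
  obtain ⟨b, t⟩ := b
  obtain ⟨rfl, e⟩ : s = t ∧ _ := e
  refine ⟨rfl, ?_⟩
  cases s
  · simpa using h.dual.lg_smul g (x := a) (y := b) (by simpa using e)
  · simpa using h.lg_smul g (x := a) (y := b) (by simpa using e)

theorem wd_hm_smul (h : OM G C up) (g : G) {a : X × Bool} {x : X} (e : hm up a x) :
    hm up (g • a.1, a.2) (g • x) := by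
  obtain ⟨a, _ | _⟩ := a
  · simpa [hm, h.ups_iff] using e
  · simpa [hm, h.ups_iff] using e

theorem wd_jump_congr (h : OM G C up) {j j' : X × Bool} (e : hE C j j') {x y : X}
    (hj : Jump C up j x y) : Jump C up j' x y := by
  obtain ⟨a, b, h1, h2, h3⟩ := hj
  exact ⟨a, b, h.hE_equiv.trans (h.hE_equiv.symm e) h1, h.hE_equiv.trans (h.hE_equiv.symm e) h2, h3⟩

theorem wd_pos_congr (h : OM G C up) {lo hi : X → X → Prop} {j j' : X × Bool} (e : hE C j j')
    {x y : X} (hj : wdPos C up lo hi j x y) : wdPos C up lo hi j' x y := by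
  obtain ⟨a, b, h1, h2, h3⟩ := hj
  exact ⟨a, b, h.hE_equiv.trans (h.hE_equiv.symm e) h1, h.hE_equiv.trans (h.hE_equiv.symm e) h2, h3⟩

section Pos
variable (h : OM G C up) {lo hi : X → X → Prop} (hlo : ClassOrd G (LG C) lo)
  (hhi : ClassOrd G (LG (dualC C)) hi)
include h hlo hhi

theorem wd_pos_tr {j : X × Bool} {x y z : X} (h1 : wdPos C up lo hi j x y)
    (h2 : wdPos C up lo hi j y z) : wdPos C up lo hi j x z := by
  obtain ⟨a, b, ha, hb, hx, hy, o⟩ := h1
  obtain ⟨b', c, hb', hc, hy', hz, o'⟩ := h2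
  have E := h.hE_equiv
  obtain rfl : b = b' := h.hm_unique (E.trans (E.symm hb) hb') hy hy'
  exact ⟨a, c, ha, hc, hx, hz,
    wdOrd_tr hlo hhi (E.trans (E.symm ha) hb) (E.trans (E.symm hb) hc) o o'⟩

theorem wd_pos_irr (j : X × Bool) (x : X) : ¬ wdPos C up lo hi j x x := by
  rintro ⟨a, b, ha, hb, hx, hy, o⟩
  have E := h.hE_equiv
  obtain rfl : a = b := h.hm_unique (E.trans (E.symm ha) hb) hx hy
  exact wdOrd_irr hlo hhi a o

theorem wd_pos_asymm {j : X × Bool} {x y : X} (h1 : wdPos C up lo hi j x y) :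
    ¬ wdPos C up lo hi j y x := fun h2 => wd_pos_irr h hlo hhi j x (wd_pos_tr h hlo hhi h1 h2)

theorem wd_jump_iff (j : X × Bool) (x y : X) :
    Jump C up j x y ↔ wdPos C up lo hi j x y ∨ wdPos C up lo hi j y x := by
  have E := h.hE_equiv
  constructor
  · rintro ⟨a, b, ha, hb, hne, hx, hy⟩
    rcases wdOrd_tri hlo hhi (E.trans (E.symm ha) hb) hne with o | o
    · exact Or.inl ⟨a, b, ha, hb, hx, hy, o⟩
    · exact Or.inr ⟨b, a, hb, ha, hy, hx, o⟩
  · rintro (⟨a, b, ha, hb, hx, hy, o⟩ | ⟨a, b, ha, hb, hx, hy, o⟩)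
    · exact ⟨a, b, ha, hb, fun e => wdOrd_irr hlo hhi a (by rw [← e] at o; exact o), hx, hy⟩
    · exact ⟨b, a, hb, ha, fun e => wdOrd_irr hlo hhi a (by rw [e] at o; exact o), hy, hx⟩

theorem wd_pos_smul (g : G) {j : X × Bool} {x y : X} (h1 : wdPos C up lo hi j x y) :
    wdPos C up lo hi (g • j.1, j.2) (g • x) (g • y) := by
  obtain ⟨a, b, ha, hb, hx, hy, o⟩ := h1
  exact ⟨_, _, wd_hE_smul h g ha, wd_hE_smul h g hb, wd_hm_smul h g hx, wd_hm_smul h g hy,
    wdOrd_smul hlo hhi g o⟩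

end Pos

theorem wd_same_left {lo hi : X → X → Prop} {j : X × Bool} {x y : X} (s : Same C up j x y)
    (z : X) : wdPos C up lo hi j x z ↔ wdPos C up lo hi j y z :=
  ⟨fun ⟨a, b, ha, hb, hx, hy, o⟩ => ⟨a, b, ha, hb, (s a ha).1 hx, hy, o⟩,
    fun ⟨a, b, ha, hb, hx, hy, o⟩ => ⟨a, b, ha, hb, (s a ha).2 hx, hy, o⟩⟩

theorem wd_same_right {lo hi : X → X → Prop} {j : X × Bool} {x y : X} (s : Same C up j x y)
    (z : X) : wdPos C up lo hi j z x ↔ wdPos C up lo hi j z y :=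
  ⟨fun ⟨a, b, ha, hb, hx, hy, o⟩ => ⟨a, b, ha, hb, hx, (s b hb).1 hy, o⟩,
    fun ⟨a, b, ha, hb, hx, hy, o⟩ => ⟨a, b, ha, hb, hx, (s b hb).2 hy, o⟩⟩

/-- The contribution of one junction to a triple. -/
noncomputable def wdD (C : Set (ℝ → X)) (up lo hi : X → X → Prop) (j : X × Bool) (x y z : X) : ℤ :=
  wdI (wdPos C up lo hi j x y) - wdI (wdPos C up lo hi j y x) +
    (wdI (wdPos C up lo hi j y z) - wdI (wdPos C up lo hi j z y)) +
    (wdI (wdPos C up lo hi j z x) - wdI (wdPos C up lo hi j x z))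

theorem wdD_cyc {lo hi : X → X → Prop} (j : X × Bool) (x y z : X) :
    wdD C up lo hi j x y z = wdD C up lo hi j y z x := by
  unfold wdD
  ring

section Trip
variable (h : OM G C up) {lo hi : X → X → Prop} (hlo : ClassOrd G (LG C) lo)
  (hhi : ClassOrd G (LG (dualC C)) hi)
include h hlo hhi

theorem wdD_same {j : X × Bool} {x y : X} (s : Same C up j x y) (z : X) :
    wdD C up lo hi j x y z = 0 := by
  have h1 : ¬ wdPos C up lo hi j x y := fun e =>
    wd_pos_irr h hlo hhi j y ((wd_same_left s y).1 e)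
  have h2 : ¬ wdPos C up lo hi j y x := fun e =>
    wd_pos_irr h hlo hhi j y ((wd_same_right s y).1 e)
  unfold wdD
  rw [wdI_neg h1, wdI_neg h2, wdI_iff (wd_same_left s z), wdI_iff (wd_same_right s z)]
  ring

theorem wdD_zero {j : X × Bool} {x y z : X} (hc : ¬ Centre C up j x y z) :
    wdD C up lo hi j x y z = 0 := by
  by_cases s1 : Same C up j x y
  · exact wdD_same h hlo hhi s1 z
  by_cases s2 : Same C up j y z
  · rw [wdD_cyc]
    exact wdD_same h hlo hhi s2 x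
  by_cases s3 : Same C up j z x
  · rw [wdD_cyc, wdD_cyc]
    exact wdD_same h hlo hhi s3 y
  exact absurd ⟨s1, s2, s3⟩ hc

theorem wdD_le (j : X × Bool) (x y z : X) : wdD C up lo hi j x y z ≤ 1 := by
  have t1 := wd_pos_tr h hlo hhi (j := j) (x := x) (y := y) (z := z)
  have t2 := wd_pos_tr h hlo hhi (j := j) (x := y) (y := z) (z := x)
  have t3 := wd_pos_tr h hlo hhi (j := j) (x := z) (y := x) (z := y)
  have t4 := wd_pos_asymm h hlo hhi (j := j) (x := x) (y := z)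
  unfold wdD
  rcases wdI_cases (wdPos C up lo hi j x y) with a | a <;>
    rcases wdI_cases (wdPos C up lo hi j y x) with b | b <;>
    rcases wdI_cases (wdPos C up lo hi j y z) with c | c <;>
    rcases wdI_cases (wdPos C up lo hi j z y) with d | d <;>
    rcases wdI_cases (wdPos C up lo hi j z x) with e | e <;>
    rcases wdI_cases (wdPos C up lo hi j x z) with f | f <;> first | omega | tauto

end Trip

/-- The junctions. -/
def wdS (h : OM G C up) : Setoid (X × Bool) := ⟨hE C, h.hE_equiv⟩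

theorem wd_out (h : OM G C up) (j : X × Bool) : hE C (Quotient.mk (wdS h) j).out j :=
  Quotient.mk_out (s := wdS h) j

theorem wd_ne (h : OM G C up) {J : Quotient (wdS h)} {j : X × Bool}
    (hJ : J ≠ Quotient.mk (wdS h) j) : ¬ hE C J.out j := fun e =>
  hJ (by rw [← Quotient.out_eq J]; exact Quotient.sound (s := wdS h) e)

theorem wd_fin (h : OM G C up) (x y : X) :
    {J : Quotient (wdS h) | Jump C up J.out x y}.Finite := by
  have h0 : ∀ c ∈ C, ∀ u t, {J : Quotient (wdS h) | Jump C up J.out (c u) (c t)}.Finite :=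
    fun c hc u t => Set.finite_empty.subset fun J hJ => h.chart_in hc _ u t hJ
  refine h.pre.conn (fun y => {J : Quotient (wdS h) | Jump C up J.out x y}.Finite) ?_ x y ?_
  · intro c hc s t hs
    by_cases hx : ∀ u, x ≠ c u
    · rcases h.chart_out hc hx s t with ⟨e, -⟩ | ⟨j₀, e, -⟩
      · exact hs.subset fun J hJ => (e _).2 hJ
      · refine (hs.insert (Quotient.mk (wdS h) j₀)).subset fun J hJ => ?_
        by_cases hJ0 : J = Quotient.mk (wdS h) j₀
        · exact Or.inl hJ0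
        · exact Or.inr ((e _ (wd_ne h hJ0)).2 hJ)
    · push Not at hx
      obtain ⟨u, rfl⟩ := hx
      exact h0 c hc u t
  · obtain ⟨c, hc, u, rfl⟩ := h.pre.cover x
    exact h0 c hc u u

theorem wd_odd (h : OM G C up) {x y : X} (hxy : x ≠ y) :
    (wdN (fun J : Quotient (wdS h) => Jump C up J.out x y) + wdI (up x y) + wdI (up y x)) % 2
      = 1 := by
  refine h.pre.conn (fun y => x ≠ y → (wdN (fun J : Quotient (wdS h) => Jump C up J.out x y) +
    wdI (up x y) + wdI (up y x)) % 2 = 1) ?_ x y (fun e => absurd rfl e) hxy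
  intro c hc s t hs hne
  by_cases hx : ∀ u, x ≠ c u
  · have h1 := hs (hx s)
    rw [wdI_iff (⟨h.upk hc hx s t, h.upk hc hx t s⟩ : up x (c s) ↔ up x (c t))] at h1
    rcases h.chart_out hc hx s t with ⟨e, e'⟩ | ⟨j₀, e, e', e''⟩
    · rw [wdI_iff e'] at h1
      have h2 : (fun J : Quotient (wdS h) => Jump C up J.out x (c s)) =
          fun J : Quotient (wdS h) => Jump C up J.out x (c t) :=
        funext fun J => propext (e _)
      rwa [h2] at h1
    · have h2 := wdN_flip (p := fun J : Quotient (wdS h) => Jump C up J.out x (c s))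
        (q := fun J : Quotient (wdS h) => Jump C up J.out x (c t)) (wd_fin h x (c s))
        (Quotient.mk (wdS h) j₀) (fun J hJ => e _ (wd_ne h hJ)) (fun e3 => e'
          ⟨fun a => wd_jump_congr h (wd_out h j₀)
            (e3.1 (wd_jump_congr h (h.hE_equiv.symm (wd_out h j₀)) a)),
           fun a => wd_jump_congr h (wd_out h j₀)
            (e3.2 (wd_jump_congr h (h.hE_equiv.symm (wd_out h j₀)) a))⟩)
      rcases wdI_cases (up (c s) x) with a | a <;> rcases wdI_cases (up (c t) x) with b | b <;>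
        first | omega | tauto
  · push Not at hx
    obtain ⟨u, rfl⟩ := hx
    have hut : u ≠ t := fun e => hne (by rw [e])
    rw [wdN_zero fun J : Quotient (wdS h) => h.chart_in hc J.out u t, wdI_iff (h.upc hc u t),
      wdI_iff (h.upc hc t u)]
    rcases lt_or_gt_of_ne hut with l | l
    · rw [wdI_pos l, wdI_neg (not_lt.2 l.le)]; rfl
    · rw [wdI_pos l, wdI_neg (not_lt.2 l.le)]; rfl

/-- The number of positive jumps. -/
noncomputable def wdP (h : OM G C up) (lo hi : X → X → Prop) (x y : X) : ℤ :=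
  wdN fun J : Quotient (wdS h) => wdPos C up lo hi J.out x y

/-- The action on junctions. -/
def wdA (h : OM G C up) (g : G) : Quotient (wdS h) → Quotient (wdS h) :=
  Quotient.map (sa := wdS h) (sb := wdS h) (fun j => (g • j.1, j.2)) fun _ _ e => wd_hE_smul h g e

theorem wdA_inv (h : OM G C up) (g : G) (J : Quotient (wdS h)) : wdA h g⁻¹ (wdA h g J) = J := by
  obtain ⟨j, rfl⟩ := Quotient.exists_rep J
  change Quotient.mk (wdS h) (g⁻¹ • g • j.1, j.2) = _
  rw [inv_smul_smul]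

theorem wdA_out (h : OM G C up) (g : G) (J : Quotient (wdS h)) :
    hE C (wdA h g J).out (g • J.out.1, J.out.2) := by
  have e : wdA h g J = Quotient.mk (wdS h) (g • J.out.1, J.out.2) := by
    conv_lhs => rw [← Quotient.out_eq J]
    rfl
  rw [e]
  exact wd_out h _

section Fin
variable (h : OM G C up) {lo hi : X → X → Prop} (hlo : ClassOrd G (LG C) lo)
  (hhi : ClassOrd G (LG (dualC C)) hi)
include hlo hhi

theorem wdP_smul (g : G) (x y : X) : wdP h lo hi (g • x) (g • y) = wdP h lo hi x y := by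
  have hb : Function.Bijective (wdA h g) :=
    Function.bijective_iff_has_inverse.2 ⟨wdA h g⁻¹, wdA_inv h g, fun J => by
      simpa using wdA_inv h g⁻¹ J⟩
  refine (finsum_eq_of_bijective (wdA h g) hb fun J => wdI_iff ⟨fun a => ?_, fun a => ?_⟩).symm
  · exact wd_pos_congr h (h.hE_equiv.symm (wdA_out h g J)) (wd_pos_smul h hlo hhi g a)
  · simpa using wd_pos_smul h hlo hhi g⁻¹ (wd_pos_congr h (wdA_out h g J) a)

theorem wdP_add (x y : X) : wdN (fun J : Quotient (wdS h) => Jump C up J.out x y) =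
    wdP h lo hi x y + wdP h lo hi y x :=
  wdN_or (wd_fin h x y) (fun J => wd_jump_iff h hlo hhi J.out x y)
    fun _ a => wd_pos_asymm h hlo hhi a

theorem wdP_triple (x y z : X) : ∃ T : Finset (Quotient (wdS h)),
    wdP h lo hi x y - wdP h lo hi y x + (wdP h lo hi y z - wdP h lo hi z y) +
      (wdP h lo hi z x - wdP h lo hi x z) = ∑ J ∈ T, wdD C up lo hi J.out x y z := by
  have hf := ((wd_fin h x y).union (wd_fin h y z)).union (wd_fin h z x)
  have ji := fun (J : Quotient (wdS h)) a b => (wd_jump_iff h hlo hhi J.out a b).2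
  refine ⟨hf.toFinset, ?_⟩
  unfold wdP wdD
  rw [wdN_sum (T := hf.toFinset) fun J hJ =>
      hf.mem_toFinset.2 (Or.inl (Or.inl (ji J x y (Or.inl hJ)))),
    wdN_sum (T := hf.toFinset) fun J hJ =>
      hf.mem_toFinset.2 (Or.inl (Or.inl (ji J x y (Or.inr hJ)))),
    wdN_sum (T := hf.toFinset) fun J hJ =>
      hf.mem_toFinset.2 (Or.inl (Or.inr (ji J y z (Or.inl hJ)))),
    wdN_sum (T := hf.toFinset) fun J hJ =>
      hf.mem_toFinset.2 (Or.inl (Or.inr (ji J y z (Or.inr hJ)))),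
    wdN_sum (T := hf.toFinset) fun J hJ =>
      hf.mem_toFinset.2 (Or.inr (ji J z x (Or.inl hJ))),
    wdN_sum (T := hf.toFinset) fun J hJ =>
      hf.mem_toFinset.2 (Or.inr (ji J z x (Or.inr hJ)))]
  simp only [Finset.sum_add_distrib, Finset.sum_sub_distrib]

theorem wd_triple (x y z : X) :
    2 * (wdP h lo hi x y - wdP h lo hi y x + (wdP h lo hi y z - wdP h lo hi z y) +
      (wdP h lo hi z x - wdP h lo hi x z)) + (wdI (up x y) - wdI (up y x) +
      (wdI (up y z) - wdI (up z y)) + (wdI (up z x) - wdI (up x z))) ≤ 2 := by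
  obtain ⟨T, hT⟩ := wdP_triple h hlo hhi x y z
  rw [hT]
  by_cases hc : ∃ j, Centre C up j x y z
  · obtain ⟨j, hj⟩ := hc
    have e1 := wdI_iff (h.centre_sep hj)
    have e2 := wdI_iff (h.centre_sep (j := j) ⟨hj.2.1, hj.2.2, hj.1⟩)
    have e3 := wdI_iff (h.centre_sep (j := j) ⟨hj.2.2, hj.1, hj.2.1⟩)
    have hs : ∑ J ∈ T, wdD C up lo hi J.out x y z ≤ 1 := by
      have z0 : ∀ J : Quotient (wdS h), J ≠ Quotient.mk (wdS h) j →
          wdD C up lo hi J.out x y z = 0 := fun J hJ =>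
        wdD_zero h hlo hhi fun hc => wd_ne h hJ (h.centre_unique hc hj)
      by_cases hm : Quotient.mk (wdS h) j ∈ T
      · rw [Finset.sum_eq_single_of_mem _ hm fun J _ hJ => z0 J hJ]
        exact wdD_le h hlo hhi _ x y z
      · rw [Finset.sum_eq_zero fun J hJ => z0 J fun e => hm (e ▸ hJ)]
        exact zero_le_one
    omega
  · rw [Finset.sum_eq_zero fun J _ => wdD_zero h hlo hhi fun a => hc ⟨_, a⟩]
    have t := h.sub (x := x) (y := y) (z := z)
    rcases wdI_cases (up x y) with a | a <;> rcases wdI_cases (up y x) with b | b <;>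
      rcases wdI_cases (up y z) with c | c <;> rcases wdI_cases (up z y) with d | d <;>
      rcases wdI_cases (up z x) with e | e <;> rcases wdI_cases (up x z) with f | f <;>
      first | omega | tauto

end Fin

theorem wind (h : OM G C up) {lo hi : X → X → Prop} (hlo : ClassOrd G (LG C) lo)
    (hhi : ClassOrd G (LG (dualC C)) hi) :
    ∃ lt : X → X → Prop, IsStrictTotalOrder X lt ∧
      ∀ (g : G) x y, lt x y → lt (g • x) (g • y) := by
  have ne0 : ∀ x y, x ≠ y →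
      2 * (wdP h lo hi x y - wdP h lo hi y x) + (wdI (up x y) - wdI (up y x)) ≠ 0 := by
    intro x y hxy
    have h1 := wd_odd h hxy
    rw [wdP_add h hlo hhi] at h1
    rcases wdI_cases (up x y) with a | a <;> rcases wdI_cases (up y x) with b | b <;> omega
  refine ⟨fun x y => 0 < 2 * (wdP h lo hi x y - wdP h lo hi y x) + (wdI (up x y) - wdI (up y x)),
    { trichotomous := ?_, irrefl := ?_, trans := ?_ }, ?_⟩
  · intro x y h1 h2
    by_contra hxy
    have := ne0 x y hxy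
    omega
  · intro x
    omega
  · intro x y z h1 h2
    have t := wd_triple h hlo hhi x y z
    by_cases hxz : x = z
    · subst hxz
      omega
    · have := ne0 x z hxz
      omega
  · intro g x y h1
    rw [wdP_smul h hlo hhi, wdP_smul h hlo hhi, wdI_iff (h.ups_iff g x y),
      wdI_iff (h.ups_iff g y x)]
    exact h1

end Pool.Agent.Work.MP_3d425c_gt.Cy

/-! Without rotating cataclysms all cataclysms are invariantly ordered. -/

namespace Pool.Agent.Work.MP_3d425c_gt.Cy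
open Set Filter Topology

variable {G X : Type*} [Group G] [MulAction G X] {C : Set (ℝ → X)} {up : X → X → Prop}

/-- The elements that move a point inside its class. -/
def catH (h : OM G C up) (μ : X) : Subgroup G where
  carrier := {g | LG C (g • μ) μ}
  one_mem' := by
    show LG C ((1 : G) • μ) μ
    rw [one_smul]
    exact h.lg_refl μ
  mul_mem' := fun {a b} ha hb => by
    show LG C ((a * b) • μ) μ
    rw [mul_smul]
    exact h.lg_trans (h.lg_smul a hb) ha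
  inv_mem' := fun {a} ha => by
    show LG C (a⁻¹ • μ) μ
    have k := h.lg_smul a⁻¹ ha
    rw [inv_smul_smul] at k
    exact OM.lg_symm k

theorem cat_asc_smul (hP : Pre G C) (g : G) {x y : X} (k : Relation.TransGen (Asc C) x y) :
    Relation.TransGen (Asc C) (g • x) (g • y) := by
  have one : ∀ a b, Asc C a b → Asc C (g • a) (g • b) := by
    rintro a b ⟨c, hc, s, t, hst, rfl, rfl⟩
    exact ⟨_, hP.smul g c hc, s, t, hst, rfl, rfl⟩
  induction k with
  | single a => exact Relation.TransGen.single (one _ _ a)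
  | tail _ a ih => exact Relation.TransGen.tail ih (one _ _ a)

theorem cat_asc_pow (hP : Pre G C) {g : G} {x : X} (k : Relation.TransGen (Asc C) x (g • x))
    (n : ℕ) : Relation.TransGen (Asc C) x (g ^ (n + 1) • x) := by
  induction n with
  | zero => simpa using k
  | succ n ih =>
    rw [pow_succ' g (n + 1), mul_smul]
    exact k.trans (cat_asc_smul hP g ih)

theorem cat_cone (hG : Hyp G) (hB : Big G) (h : OM G C up) (hN : NoFold G C) (μ : X) :
    ∃ P, Cone (catH h μ) (MulAction.stabilizer G μ) P := by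
  have hKH : MulAction.stabilizer G μ ≤ catH h μ := fun a ha => by
    show LG C (a • μ) μ
    rw [MulAction.mem_stabilizer_iff.1 ha]
    exact h.lg_refl μ
  have hab : ∀ a ∈ MulAction.stabilizer G μ, ∀ b ∈ MulAction.stabilizer G μ, a * b = b * a :=
    fun a ha b hb => h.good.ab μ a b ha hb
  refine exists_cone hG hB _ _ hKH hab (fun E hE hf => ?_) fun κ hκ h1 x hx hc => ?_
  · obtain ⟨g, hg⟩ := h.pre.taut μ
    obtain ⟨n, hn, -, hm⟩ := E.exists_pow_mem_of_index_ne_zero hf.index_ne_zero g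
    obtain ⟨m, rfl⟩ : ∃ m, n = m + 1 := ⟨n - 1, by omega⟩
    exact h.lg_not_up (OM.lg_symm (hE hm)) (h.asc (cat_asc_pow h.pre hg m)).1
  · obtain ⟨g, hg, k, hk, hgk, hall, hx'⟩ := exists_gen hG _ _ hKH hab hκ h1
    obtain ⟨n, rfl⟩ := hx' x hx hc
    exact Subgroup.zpow_mem _ (MulAction.mem_stabilizer_iff.2 (hN μ g k hk hg hgk hall)) n

theorem cat_stab {μ : X} {a b : G} (e : a • μ = b • μ) :
    a⁻¹ * b ∈ MulAction.stabilizer G μ := by
  rw [MulAction.mem_stabilizer_iff, mul_smul, ← e, inv_smul_smul]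

theorem exists_classOrd (hG : Hyp G) (hB : Big G) (h : OM G C up) (hN : NoFold G C) :
    ∃ lo, ClassOrd G (LG C) lo := by
  classical
  choose P hP using cat_cone hG hB h hN
  obtain ⟨ρ, h1, h2⟩ : ∃ ρ : X → X, (∀ x, ∃ a : G, a • ρ x = x) ∧
      ∀ (g : G) x, ρ (g • x) = ρ x := by
    refine ⟨fun x => (Quotient.mk (MulAction.orbitRel G X) x).out, fun x => ?_, fun g x => ?_⟩
    · have k : (MulAction.orbitRel G X) x (Quotient.mk (MulAction.orbitRel G X) x).out :=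
        (MulAction.orbitRel G X).symm (Quotient.mk_out x)
      exact MulAction.mem_orbit_iff.1 (MulAction.orbitRel_apply.1 k)
    · have k : Quotient.mk (MulAction.orbitRel G X) (g • x) =
          Quotient.mk (MulAction.orbitRel G X) x :=
        Quotient.sound (MulAction.orbitRel_apply.2 (MulAction.mem_orbit x g))
      simp only [k]
  refine ⟨fun x y => WellOrderingRel (ρ x) (ρ y) ∨ (ρ x = ρ y ∧
    ∃ a b : G, a • ρ x = x ∧ b • ρ x = y ∧ a⁻¹ * b ∈ P (ρ x)), ?_, ?_, ?_, ?_⟩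
  · intro g x y k
    rw [h2, h2]
    refine k.imp_right fun ⟨e, a, b, ha, hb, hp⟩ => ⟨e, g * a, g * b, ?_, ?_, ?_⟩
    · rw [mul_smul, ha]
    · rw [mul_smul, hb]
    · have : (g * a)⁻¹ * (g * b) = a⁻¹ * b := by group
      rwa [this]
  · intro x y hxy hne
    rcases trichotomous_of WellOrderingRel (ρ x) (ρ y) with k | k | k
    · exact Or.inl (Or.inl k)
    · obtain ⟨a, ha⟩ := h1 x
      obtain ⟨b, hb⟩ := h1 y
      have hb' : b • ρ x = y := by rw [k, hb]
      have hH : a⁻¹ * b ∈ catH h (ρ x) := by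
        show LG C ((a⁻¹ * b) • ρ x) (ρ x)
        have k2 := h.lg_smul a⁻¹ (OM.lg_symm hxy)
        rw [mul_smul, hb']
        rwa [show a⁻¹ • x = ρ x by rw [inv_smul_eq_iff, ha]] at k2
      have hK : a⁻¹ * b ∉ MulAction.stabilizer G (ρ x) := fun k2 => hne (by
        rw [MulAction.mem_stabilizer_iff, mul_smul, inv_smul_eq_iff, ha, hb'] at k2
        exact k2.symm)
      rcases (hP (ρ x)).tot _ hH hK with k2 | k2
      · exact Or.inl (Or.inr ⟨k, a, b, ha, hb', k2⟩)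
      · refine Or.inr (Or.inr ⟨k.symm, b, a, hb, by rw [← k, ha], ?_⟩)
        rw [← k]
        simpa using k2
    · exact Or.inr (Or.inl k)
  · rintro x (k | ⟨-, a, b, ha, hb, hp⟩)
    · exact irrefl_of WellOrderingRel _ k
    · exact (hP (ρ x)).notK _ hp (cat_stab (ha.trans hb.symm))
  · rintro x y z - - (k | ⟨e, a, b, ha, hb, hp⟩) (k' | ⟨e', a', b', ha', hb', hp'⟩)
    · exact Or.inl (trans_of WellOrderingRel k k')
    · exact Or.inl (e' ▸ k)
    · exact Or.inl (e ▸ k')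
    · rw [← e] at ha' hb' hp'
      refine Or.inr ⟨e.trans e', a, b', ha, hb', ?_⟩
      have : a⁻¹ * b' = a⁻¹ * b * (b⁻¹ * a' * (a'⁻¹ * b')) := by group
      rw [this]
      exact (hP (ρ x)).mul _ hp _ ((hP (ρ x)).left _ (cat_stab (hb.trans ha'.symm)) _ hp')

end Pool.Agent.Work.MP_3d425c_gt.Cy
end
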